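import Mathlib

/-!
# Volume growth of meromorphic maps on punctured polydisks (MP_6803f2_an): definitions

The model space is `V n = Fin n → ℂ` (sup norm, Lebesgue measure).  All objects are bare hands:
a finite atlas of `X`, weights `w a` (a Gauduchon form), a map `f` on `Dp n \ I`.
-/

open MeasureTheory Set Filter Topology
open scoped ENNReal NNReal ContDiff ComplexConjugate

namespace Pool.Agent.H95.VG

/-- the model space `ℂⁿ` (with the sup norm and Lebesgue measure) -/
abbrev V (n : ℕ) : Type := Fin n → ℂ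

variable {n : ℕ}

/-- standard basis vectors -/
noncomputable def ek (k : Fin n) : V n := Pi.single k 1

/-- squared Euclidean norm -/
noncomputable def nsq (z : V n) : ℝ := ∑ i, ‖z i‖ ^ 2

/-- `log |z|`, Euclidean norm (value `0` at the origin) -/
noncomputable def lu (z : V n) : ℝ := Real.log (nsq z) / 2

/-- punctured Euclidean unit ball -/
def Dp (n : ℕ) : Set (V n) := {z | 0 < nsq z ∧ nsq z < 1}

/-! ## First and second order operators -/

/-- the `(1,0)` part of the differential of a complex valued function, applied to `v` -/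
noncomputable def dz (g : V n → ℂ) (z v : V n) : ℂ :=
  (fderiv ℝ g z v - Complex.I * fderiv ℝ g z (Complex.I • v)) / 2

/-- the `(0,1)` part -/
noncomputable def dzb (g : V n → ℂ) (z v : V n) : ℂ :=
  (fderiv ℝ g z v + Complex.I * fderiv ℝ g z (Complex.I • v)) / 2

/-- the `(1,0)` part of the differential of a real valued function -/
noncomputable def dr (g : V n → ℝ) (z v : V n) : ℂ :=
  (((fderiv ℝ g z v : ℝ) : ℂ) - Complex.I * ((fderiv ℝ g z (Complex.I • v) : ℝ) : ℂ)) / 2

/-- gradient energy in the direction `v` -/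
noncomputable def ge (g : V n → ℝ) (z v : V n) : ℝ := ‖dr g z v‖ ^ 2

/-- Levi form -/
noncomputable def lev {F : Type*} [NormedAddCommGroup F] [NormedSpace ℝ F] (g : V n → F)
    (z v : V n) : F :=
  (4 : ℝ)⁻¹ • (fderiv ℝ (fun x => fderiv ℝ g x v) z v
    + fderiv ℝ (fun x => fderiv ℝ g x (Complex.I • v)) z (Complex.I • v))

/-! ## Jacobians and cofactor fields -/

/-- complex Jacobian matrix of `Y` at `z` (row `i` = differential of `Y i`) -/
noncomputable def jac (Y : V n → V n) (z : V n) : Matrix (Fin n) (Fin n) ℂ :=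
  Matrix.of fun i j => fderiv ℂ Y z (ek j) i

/-- `k`-th cofactor field of `Y`: the `k`-th column of the adjugate of the Jacobian matrix -/
noncomputable def cf (Y : V n → V n) (k : Fin n) (z : V n) : V n :=
  fun i => (jac Y z).adjugate i k

/-- the map with components chosen among the coordinates of `z` and of `Y z` -/
def mix (Φ : Fin n → Fin n ⊕ Fin n) (Y : V n → V n) (z : V n) : V n :=
  fun i => Sum.elim z (Y z) (Φ i)

/-- sum of the squares of all `n`-minors of the matrix `(1; jac Y)` (with repetitions) -/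
noncomputable def Dm (Y : V n → V n) (z : V n) : ℝ :=
  ∑ Φ : Fin n → Fin n ⊕ Fin n, ‖(jac (mix Φ Y) z).det‖ ^ 2

/-! ## Atlas, maps, weights -/

/-- a finite atlas of holomorphic charts whose images contain the closed polydisc of radius 3 -/
structure Atl (n : ℕ) (X : Type) [TopologicalSpace X] (ι : Type) where
  φ : ι → OpenPartialHomeomorph X (V n)
  hol : ∀ a b, DifferentiableOn ℂ (fun y => φ b ((φ a).symm y)) ((φ a).symm.trans (φ b)).source
  ball : ∀ a, Metric.closedBall (0 : V n) 3 ⊆ (φ a).target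
  cover : ∀ x, ∃ a, x ∈ (φ a).source ∧ φ a x ∈ Metric.ball (0 : V n) 1

variable {X : Type} [TopologicalSpace X] {ι : Type}

/-- `f` read in the chart `a` -/
noncomputable def FF (A : Atl n X ι) (f : V n → X) (a : ι) (z : V n) : V n := A.φ a (f z)

/-- points sent to the closed polydisc of radius `R` of the chart `a` -/
def Cb (A : Atl n X ι) (f : V n → X) (a : ι) (R : ℝ) : Set (V n) :=
  {z | f z ∈ (A.φ a).source ∧ A.φ a (f z) ∈ Metric.closedBall (0 : V n) R}

/-- points of `Dp n \ I` sent to the open polydisc of radius `2` of the chart `a` -/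
def Oa (A : Atl n X ι) (f : V n → X) (I : Set (V n)) (a : ι) : Set (V n) :=
  {z | z ∈ Dp n \ I ∧ f z ∈ (A.φ a).source ∧ A.φ a (f z) ∈ Metric.ball (0 : V n) 2}

/-- pull back to `X` of a function in the chart `a`, extended by zero -/
noncomputable def Wt (A : Atl n X ι) (w : ι → V n → ℝ) (a : ι) (x : X) : ℝ :=
  ((A.φ a).source).indicator (fun x => w a (A.φ a x)) x

/-- transition Jacobian determinant squared: chart `b` to chart `a`, at the point `x` of `X` -/
noncomputable def tj (A : Atl n X ι) (b a : ι) (x : X) : ℝ :=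
  ‖(jac (fun y => A.φ a ((A.φ b).symm y)) (A.φ b x)).det‖ ^ 2

/-! ## Cutoffs -/

/-- `1` on `nsq ≤ 1/4`, `0` on `nsq ≥ 1/2` -/
noncomputable def chi (z : V n) : ℝ := Real.smoothTransition (2 - 4 * nsq z)

open Classical in
/-- `1` where `log |z| ≥ -t`, `0` where `log |z| ≤ -2t` and at the origin -/
noncomputable def rho (t : ℝ) (z : V n) : ℝ :=
  if nsq z = 0 then 0 else Real.smoothTransition (lu z / t + 2)

/-! ## Polynomials -/

/-- sup norm one on the closed Euclidean unit ball -/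
def Nrm (P : MvPolynomial (Fin n) ℂ) : Prop :=
  (∀ z : V n, nsq z ≤ 1 → ‖MvPolynomial.eval z P‖ ≤ 1) ∧
    ∃ z : V n, nsq z ≤ 1 ∧ ‖MvPolynomial.eval z P‖ = 1

/-- regularised `log |P|` -/
noncomputable def lgd (P : MvPolynomial (Fin n) ℂ) (δ : ℝ) (z : V n) : ℝ :=
  Real.log (‖MvPolynomial.eval z P‖ ^ 2 + δ ^ 2) / 2

/-! ## Closed 1-forms on `X` and their primitives on `Dp n \ I` -/

/-- local potentials of a closed real 1-form on `X` -/
structure Clo (A : Atl n X ι) (h : ι → V n → ℝ) : Prop where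
  smooth : ∀ a, ContDiffOn ℝ ∞ (h a) (Metric.ball (0 : V n) 2)
  compat : ∀ a b x, x ∈ (A.φ a).source → x ∈ (A.φ b).source →
    A.φ a x ∈ Metric.ball (0 : V n) 2 → A.φ b x ∈ Metric.ball (0 : V n) 2 →
    ∀ᶠ x' in 𝓝 x, h a (A.φ a x') - h b (A.φ b x') = h a (A.φ a x) - h b (A.φ b x)

/-- `η` is a primitive on `Dp n \ I` of the pull back by `f` of the closed form `h` -/
structure Eta (A : Atl n X ι) (f : V n → X) (I : Set (V n)) (h : ι → V n → ℝ)
    (η : V n → ℝ) : Prop where
  cont : ContinuousOn η (Dp n \ I)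
  loc : ∀ a, ∀ z ∈ Oa A f I a,
    ∀ᶠ z' in 𝓝 z, η z' - h a (FF A f a z') = η z - h a (FF A f a z)

/-! ## The interface: maps with mild singularities along `I` -/

/-- `f` is holomorphic on `Dp n \ I` and its graph has locally finite volume over `Dp n`, etc.;
this is what the main part of the proof uses about `(f, I)` (all of it is proved for meromorphic
maps; for holomorphic maps `I = ∅` and everything is elementary) -/
structure Sing (A : Atl n X ι) (f : V n → X) (I : Set (V n)) : Prop where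
  two : 2 ≤ n
  opn : IsOpen (Dp n \ I)
  null : volume (Dp n ∩ I) = 0
  cont : ContinuousOn f (Dp n \ I)
  hol : ∀ a, DifferentiableOn ℂ (FF A f a) {z | z ∈ Dp n \ I ∧ f z ∈ (A.φ a).source}
  /-- local finiteness of all minors -/
  s1 : ∀ K ⊆ Dp n, IsCompact K → ∀ a,
    ∫⁻ z in (K \ I) ∩ Cb A f a 2, ENNReal.ofReal (Dm (FF A f a) z) < ⊤
  /-- cutoffs of small energy near `I` -/
  s2 : ∀ K ⊆ Dp n, IsCompact K → ∃ c : ℕ → V n → ℝ, (∀ j, ContDiff ℝ ∞ (c j)) ∧
    (∀ j z, 0 ≤ c j z ∧ c j z ≤ 1) ∧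
    (∀ j, ∀ z ∈ K ∩ I, ∀ᶠ z' in 𝓝 z, c j z' = 0) ∧
    (∀ z ∈ K \ I, Tendsto (fun j => c j z) atTop (𝓝 1)) ∧
    ∀ a Φ k, Tendsto (fun j => ∫⁻ z in (K \ I) ∩ Cb A f a 2,
      ENNReal.ofReal (ge (c j) z (cf (mix Φ (FF A f a)) k z))) atTop (𝓝 0)
  /-- primitives of closed forms are locally bounded on `Dp n` -/
  s3 : ∀ h η, Clo A h → Eta A f I h η → ∀ K ⊆ Dp n, IsCompact K → ∃ C : ℝ, ∀ z ∈ K \ I, |η z| ≤ C
  /-- logarithms of polynomials are integrable on the graph, linearly in the degree -/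
  s4 : ∀ K ⊆ Dp n, IsCompact K → ∃ C : ℝ, ∀ (d : ℕ) (P : MvPolynomial (Fin n) ℂ) (δ : ℝ),
    1 ≤ d → P.totalDegree ≤ d → Nrm P → 0 < δ → δ ≤ 1 → ∀ a,
      ∫⁻ z in (K \ I) ∩ Cb A f a 2, ENNReal.ofReal (|lgd P δ z| * Dm (FF A f a) z)
        ≤ ENNReal.ofReal (C * d)

variable [Fintype ι]

/-! ## Weights and operators -/

/-- Gauduchon weights: `∑ a (φ a)^* (w a ω₀^{n-1})` is positive and `∂∂bar`-closed -/
structure Gau (A : Atl n X ι) (w : ι → V n → ℝ) : Prop where
  smooth : ∀ a, ContDiff ℝ ∞ (w a)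
  nonneg : ∀ a y, 0 ≤ w a y
  supp : ∀ a y, w a y ≠ 0 → y ∈ Metric.closedBall (0 : V n) (3 / 2)
  pos : ∀ a, ∀ y ∈ Metric.closedBall (0 : V n) 1, 0 < w a y
  gau : ∀ b, ∀ x ∈ (A.φ b).source, ∑ a, ((A.φ a).source).indicator
    (fun x => tj A b a x * ∑ k, lev (w a) (A.φ a x) (ek k)) x = 0

/-- the operator `g ↦ f^*Ω ∧ dd^c g` (density) -/
noncomputable def LL (A : Atl n X ι) (w : ι → V n → ℝ) (f : V n → X) (g : V n → ℝ) (z : V n) : ℝ :=
  ∑ a, Wt A w a (f z) * ∑ k, lev g z (cf (FF A f a) k z)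

/-- energy density `f^*Ω ∧ dg ∧ d^c g` -/
noncomputable def GE (A : Atl n X ι) (w : ι → V n → ℝ) (f : V n → X) (g : V n → ℝ) (z : V n) : ℝ :=
  ∑ a, Wt A w a (f z) * ∑ k, ge g z (cf (FF A f a) k z)

/-- pull back by `f` of the density `∑ a (φ a)^* (p a dλ)` -/
noncomputable def PB (A : Atl n X ι) (f : V n → X) (p : ι → V n → ℝ) (z : V n) : ℝ :=
  ∑ a, Wt A p a (f z) * ‖(jac (FF A f a) z).det‖ ^ 2

/-- the formal adjoint of `LL` -/
noncomputable def LLs (A : Atl n X ι) (w : ι → V n → ℝ) (f : V n → X) (g : V n → ℝ) (z : V n) :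
    ℝ :=
  LL A w f g z + 2 * ∑ a, ((A.φ a).source).indicator (fun _ => ∑ k,
    (dr g z (cf (FF A f a) k z) *
      conj ((jac (FF A f a) z).det * dr (w a) (FF A f a z) (ek k))).re) (f z)

/-- the flux of the pulled back form through the spheres around the origin -/
noncomputable def flux (A : Atl n X ι) (w : ι → V n → ℝ) (f : V n → X) (I : Set (V n)) : ℝ :=
  - ∫ z in Dp n \ I, LL A w f chi z

/-- coefficient of `θ'` in `dd^c (θ(h) Ω)` -/
noncomputable def k1 (w h : ι → V n → ℝ) (a : ι) (y : V n) : ℝ :=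
  ∑ k, (w a y * lev (h a) y (ek k) + 2 * (dr (h a) y (ek k) * conj (dr (w a) y (ek k))).re)

/-- coefficient of `θ''` in `dd^c (θ(h) Ω)` -/
noncomputable def k2 (w h : ι → V n → ℝ) (a : ι) (y : V n) : ℝ :=
  w a y * ∑ k, ge (h a) y (ek k)

/-- the period `∫_X dh ∧ d^c Ω` -/
noncomputable def kap (w h : ι → V n → ℝ) : ℝ :=
  ∑ a, ∫ y, ∑ k, (dr (h a) y (ek k) * conj (dr (w a) y (ek k))).re

/-- the density `∑ a (φ a)^* (p a dλ)` in the chart `b`, at the point `x` of `X` -/
noncomputable def dens (A : Atl n X ι) (p : ι → V n → ℝ) (b : ι) (x : X) : ℝ :=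
  ∑ a, ((A.φ a).source).indicator (fun x => tj A b a x * p a (A.φ a x)) x

/-- a chart containing `x` well inside -/
noncomputable def ch (A : Atl n X ι) (x : X) : ι := (A.cover x).choose

/-- ratio of the densities of the families `p` and `w`, as a function on `X` -/
noncomputable def rn (A : Atl n X ι) (w p : ι → V n → ℝ) (x : X) : ℝ :=
  dens A p (ch A x) x / dens A w (ch A x) x

end Pool.Agent.H95.VG
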