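import Mathlib
import Pool.Agent.H95.VG.Defs

/-!
# VG targets, part 1: calculus, singular calculus, masses near the origin
-/

open MeasureTheory Set Filter Topology
open scoped ENNReal NNReal ContDiff ComplexConjugate

namespace Pool.Agent.H95.VG

/-! ## K: calculus on the model space -/

/-- holomorphic functions of several variables are smooth, their derivatives are holomorphic -/
def T_SMO : Prop := ∀ (n : ℕ) (F : Type) [NormedAddCommGroup F] [NormedSpace ℂ F]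
  [CompleteSpace F] (O : Set (V n)) (Y : V n → F), IsOpen O → DifferentiableOn ℂ Y O →
    ContDiffOn ℂ ∞ Y O ∧ ContDiffOn ℝ ∞ Y O ∧
    ∀ v, DifferentiableOn ℂ (fun x => fderiv ℂ Y x v) O

/-- linearity of the first order operators -/
def T_LIN : Prop := ∀ (n : ℕ) (z : V n),
  (∀ (g : V n → ℂ) (u v : V n) (c : ℂ),
    dz g z (u + v) = dz g z u + dz g z v ∧ dz g z (c • v) = c * dz g z v ∧
    dzb g z (u + v) = dzb g z u + dzb g z v ∧ dzb g z (c • v) = conj c * dzb g z v ∧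
    dz g z v = ∑ i, v i * dz g z (ek i) ∧ dzb g z v = ∑ i, conj (v i) * dzb g z (ek i) ∧
    fderiv ℝ g z v = dz g z v + dzb g z v) ∧
  (∀ (g : V n → ℂ) (v : V n), DifferentiableAt ℝ g z →
    dzb (fun x => conj (g x)) z v = conj (dz g z v) ∧
    dz (fun x => conj (g x)) z v = conj (dzb g z v)) ∧
  (∀ (g : V n → ℂ) (v : V n), DifferentiableAt ℂ g z →
    dz g z v = fderiv ℂ g z v ∧ dzb g z v = 0) ∧
  (∀ (g : V n → ℝ) (v : V n), DifferentiableAt ℝ g z →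
    dz (fun x => (g x : ℂ)) z v = dr g z v ∧
    dzb (fun x => (g x : ℂ)) z v = conj (dr g z v)) ∧
  (∀ (g : V n → ℝ) (v : V n), dr g z v = ∑ i, v i * dr g z (ek i) ∧
    fderiv ℝ g z v = 2 * (dr g z v).re)

/-- product rules -/
def T_PRD : Prop := ∀ (n : ℕ) (z v : V n),
  (∀ g h : V n → ℂ, DifferentiableAt ℝ g z → DifferentiableAt ℝ h z →
    dz (fun x => g x * h x) z v = g z * dz h z v + h z * dz g z v ∧
    dzb (fun x => g x * h x) z v = g z * dzb h z v + h z * dzb g z v) ∧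
  (∀ g h : V n → ℝ, DifferentiableAt ℝ g z → DifferentiableAt ℝ h z →
    dr (fun x => g x * h x) z v = g z * dr h z v + h z * dr g z v) ∧
  (∀ g h : V n → ℝ, ContDiffAt ℝ 2 g z → ContDiffAt ℝ 2 h z →
    lev (fun x => g x * h x) z v = g z * lev h z v + h z * lev g z v
      + 2 * (dr g z v * conj (dr h z v)).re) ∧
  (∀ (θ : ℝ → ℝ) (g : V n → ℝ), DifferentiableAt ℝ θ (g z) → DifferentiableAt ℝ g z →
    dr (fun x => θ (g x)) z v = deriv θ (g z) * dr g z v) ∧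
  (∀ (θ : ℝ → ℝ) (g : V n → ℝ), ContDiffAt ℝ 2 θ (g z) → ContDiffAt ℝ 2 g z →
    lev (fun x => θ (g x)) z v = deriv θ (g z) * lev g z v + deriv (deriv θ) (g z) * ge g z v)

/-- the Levi form in coordinates (`g` complex valued), and symmetry -/
def T_LVM : Prop := ∀ (n : ℕ) (z v : V n),
  (∀ g : V n → ℂ, ContDiffAt ℝ 2 g z →
    (∀ i j, dzb (fun x => dz g x (ek i)) z (ek j) = dz (fun x => dzb g x (ek j)) z (ek i)) ∧
    lev g z v = ∑ i, ∑ j, v i * conj (v j) * dzb (fun x => dz g x (ek i)) z (ek j)) ∧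
  (∀ g : V n → ℝ, ContDiffAt ℝ 2 g z →
    ((lev g z v : ℝ) : ℂ) = lev (fun x => (g x : ℂ)) z v ∧
    ((lev g z v : ℝ) : ℂ) = ∑ i, ∑ j, v i * conj (v j) * dzb (fun x => dr g x (ek i)) z (ek j))

/-- Levi form along a holomorphic field -/
def T_LVX : Prop := ∀ (n : ℕ) (O : Set (V n)) (F : V n → V n) (g : V n → ℂ), IsOpen O →
  DifferentiableOn ℂ F O → ContDiffOn ℝ 2 g O → ∀ z ∈ O,
    lev g z (F z) = dzb (fun x => dz g x (F x)) z (F z) ∧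
    lev g z (F z) = dz (fun x => dzb g x (F x)) z (F z) ∧
    lev g z (F z) = ∑ i, F z i * dzb (fun x => dz g x (ek i)) z (F z)

/-- holomorphic chain rules -/
def T_CHN : Prop := ∀ (n : ℕ) (O : Set (V n)) (Y : V n → V n), IsOpen O →
  DifferentiableOn ℂ Y O → ∀ z ∈ O, ∀ v : V n,
  (∀ q : V n → ℂ, DifferentiableAt ℝ q (Y z) →
    dz (fun x => q (Y x)) z v = dz q (Y z) (fderiv ℂ Y z v) ∧
    dzb (fun x => q (Y x)) z v = dzb q (Y z) (fderiv ℂ Y z v)) ∧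
  (∀ q : V n → ℝ, DifferentiableAt ℝ q (Y z) →
    dr (fun x => q (Y x)) z v = dr q (Y z) (fderiv ℂ Y z v)) ∧
  (∀ q : V n → ℂ, ContDiffAt ℝ 2 q (Y z) →
    lev (fun x => q (Y x)) z v = lev q (Y z) (fderiv ℂ Y z v)) ∧
  (∀ q : V n → ℝ, ContDiffAt ℝ 2 q (Y z) →
    lev (fun x => q (Y x)) z v = lev q (Y z) (fderiv ℂ Y z v))

/-- chain rules along the cofactor fields -/
def T_CHR : Prop := ∀ (n : ℕ) (O : Set (V n)) (Y : V n → V n), IsOpen O →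
  DifferentiableOn ℂ Y O → ∀ z ∈ O, ∀ k,
  fderiv ℂ Y z (cf Y k z) = (jac Y z).det • ek k ∧
  (∀ q : V n → ℂ, DifferentiableAt ℝ q (Y z) →
    dz (fun x => q (Y x)) z (cf Y k z) = (jac Y z).det * dz q (Y z) (ek k) ∧
    dzb (fun x => q (Y x)) z (cf Y k z) = conj (jac Y z).det * dzb q (Y z) (ek k)) ∧
  (∀ q : V n → ℝ, DifferentiableAt ℝ q (Y z) →
    dr (fun x => q (Y x)) z (cf Y k z) = (jac Y z).det * dr q (Y z) (ek k)) ∧
  (∀ q : V n → ℝ, ContDiffAt ℝ 2 q (Y z) →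
    lev (fun x => q (Y x)) z (cf Y k z) = ‖(jac Y z).det‖ ^ 2 * lev q (Y z) (ek k))

/-- Piola identity -/
def T_PIO : Prop := ∀ (n : ℕ) (O : Set (V n)) (Y : V n → V n), IsOpen O →
  DifferentiableOn ℂ Y O → ∀ k, DifferentiableOn ℂ (cf Y k) O ∧
    ∀ z ∈ O, ∑ i, fderiv ℂ (fun x => cf Y k x i) z (ek i) = 0

/-- divergence theorem for divergence free holomorphic fields -/
def T_DIV : Prop := ∀ (n : ℕ) (O : Set (V n)) (F : V n → V n) (b G : V n → ℂ), IsOpen O →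
  DifferentiableOn ℂ F O → (∀ z ∈ O, ∑ i, fderiv ℂ (fun x => F x i) z (ek i) = 0) →
  DifferentiableOn ℂ b O → ContDiff ℝ 1 G → HasCompactSupport G → tsupport G ⊆ O →
    ∫ z in O, b z * dzb G z (F z) = 0

/-- formulas for `nsq` and `lu` -/
def T_NSQ : Prop := ∀ (n : ℕ),
  ContDiff ℝ ∞ (nsq (n := n)) ∧ ContDiffOn ℝ ∞ (lu (n := n)) {z | 0 < nsq z} ∧
  (∀ z : V n, nsq z = 0 ↔ z = 0) ∧ (∀ z v : V n, lev nsq z v = nsq v) ∧
  (∀ z v : V n, 0 < nsq z → 0 ≤ lev lu z v ∧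
    nsq v = nsq z * (2 * lev lu z v + 4 * ge lu z v) ∧ ‖dr lu z v‖ ^ 2 ≤ nsq v / nsq z) ∧
  (∀ z : V n, ‖z‖ ^ 2 ≤ nsq z ∧ nsq z ≤ n * ‖z‖ ^ 2)

/-- the cutoffs -/
def T_CUT : Prop := ∀ (n : ℕ),
  ContDiff ℝ ∞ (chi (n := n)) ∧ HasCompactSupport (chi (n := n)) ∧
  (∀ z : V n, 0 ≤ chi z ∧ chi z ≤ 1 ∧ (nsq z ≤ 1 / 4 → chi z = 1) ∧ (1 / 2 ≤ nsq z → chi z = 0)) ∧
  (∀ t : ℝ, 1 ≤ t → ContDiff ℝ ∞ (rho (n := n) t) ∧
    (∀ z : V n, 0 ≤ rho t z ∧ rho t z ≤ 1 ∧ (0 < nsq z → -t ≤ lu z → rho t z = 1) ∧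
      (lu z ≤ -2 * t ∨ nsq z = 0 → rho t z = 0)) ∧
    HasCompactSupport (fun z : V n => chi z * rho t z) ∧
    tsupport (fun z : V n => chi z * rho t z) ⊆ Dp n) ∧
  (∀ F : ℝ → ℝ, ContDiff ℝ 2 F → (∃ B, ∀ s ≤ B, F s = 0) →
    ContDiff ℝ 2 (fun z : V n => if nsq z = 0 then 0 else F (lu z)) ∧
    HasCompactSupport (fun z : V n => chi z * (if nsq z = 0 then 0 else F (lu z))) ∧
    tsupport (fun z : V n => chi z * (if nsq z = 0 then 0 else F (lu z))) ⊆ Dp n)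

/-- dominations by the sum of minors -/
def T_DOM : Prop := ∀ (n : ℕ) (Y : V n → V n) (z : V n), DifferentiableAt ℂ Y z →
  1 ≤ Dm Y z ∧ ‖(jac Y z).det‖ ^ 2 ≤ Dm Y z ∧ (∀ i j, ‖jac Y z i j‖ ^ 2 ≤ Dm Y z) ∧
  (∀ Φ k i, ‖cf (mix Φ Y) k z i‖ ^ 2 ≤ Dm Y z) ∧ (∀ k i, ‖cf Y k z i‖ ^ 2 ≤ Dm Y z) ∧
  (∀ Φ : Fin n → Fin n ⊕ Fin n, ∀ i, jac (mix Φ Y) z i = Sum.elim (fun j => ek j) (jac Y z) (Φ i)) ∧
  (∀ k, (fun x => cf (mix (fun i => Sum.inr i) Y) k x) = cf Y k)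

/-- the map `f` on its domain: openness of `Oa`, closedness, smoothness of the charts -/
def T_OAO : Prop := ∀ (n : ℕ) (X : Type) [TopologicalSpace X] [T2Space X] (ι : Type)
  (A : Atl n X ι) (f : V n → X) (I : Set (V n)), Sing A f I → ∀ a,
    IsOpen (Oa A f I a) ∧ DifferentiableOn ℂ (FF A f a) (Oa A f I a) ∧
    (∀ R ≤ 2, ∃ C : Set (V n), IsClosed C ∧ (Dp n \ I) ∩ Cb A f a R = (Dp n \ I) ∩ C) ∧
    (∀ R < 2, (Dp n \ I) ∩ Cb A f a R ⊆ Oa A f I a) ∧ Oa A f I a ⊆ (Dp n \ I) ∩ Cb A f a 2 ∧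
    (∀ b, ∀ z ∈ Dp n \ I, f z ∈ (A.φ a).source → f z ∈ (A.φ b).source →
      jac (FF A f a) z = jac (fun y => A.φ a ((A.φ b).symm y)) (A.φ b (f z)) * jac (FF A f b) z)

/-- area formula with multiplicities -/
def T_ARE : Prop := ∀ (n : ℕ) (O S : Set (V n)) (Y : V n → V n) (g : V n → ℝ≥0∞), IsOpen O →
  DifferentiableOn ℂ Y O → MeasurableSet S → S ⊆ O → Measurable g →
    Measurable (fun y => ∑' z : {z // z ∈ S ∧ Y z = y ∧ (jac Y z).det ≠ 0}, g z.1) ∧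
    ∫⁻ z in S, g z * ENNReal.ofReal (‖(jac Y z).det‖ ^ 2)
      = ∫⁻ y, ∑' z : {z // z ∈ S ∧ Y z = y ∧ (jac Y z).det ≠ 0}, g z.1 ∧
    volume (Y '' {z ∈ S | (jac Y z).det = 0}) = 0

/-! ## B: singular calculus -/

/-- first order identity across the singular set -/
def T_SFO : Prop := ∀ (n : ℕ) (X : Type) [TopologicalSpace X] [T2Space X] (ι : Type)
  (A : Atl n X ι) (f : V n → X) (I : Set (V n)), Sing A f I → ∀ (a : ι) (Φ) (k : Fin n)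
  (K : Set (V n)) (R : ℝ) (G b : V n → ℂ), K ⊆ Dp n → IsCompact K → R < 2 →
  ContDiffOn ℝ 1 G (Oa A f I a) → (∀ z ∈ Oa A f I a, G z ≠ 0 → z ∈ K ∩ Cb A f a R) →
  (∃ C : ℝ, ∀ z ∈ Oa A f I a, ‖G z‖ ≤ C) → DifferentiableOn ℂ b (Oa A f I a) →
  ∫⁻ z in Oa A f I a ∩ (K ∩ Cb A f a R), ENNReal.ofReal (‖b z‖ ^ 2) < ⊤ →
  IntegrableOn (fun z => b z * dzb G z (cf (mix Φ (FF A f a)) k z)) (Oa A f I a) →
    ∫ z in Oa A f I a, b z * dzb G z (cf (mix Φ (FF A f a)) k z) = 0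

/-- first order identity in push forward form, holomorphic factor `b` -/
def T_FO : Prop := ∀ (n : ℕ) (X : Type) [TopologicalSpace X] [T2Space X] (ι : Type)
  (A : Atl n X ι) (f : V n → X) (I : Set (V n)), Sing A f I → ∀ (a : ι) (k : Fin n)
  (φ b : V n → ℂ) (q : V n → ℝ → ℂ) (σ : V n → ℝ) (R : ℝ), R < 2 →
  ContDiff ℝ 1 φ → HasCompactSupport φ → tsupport φ ⊆ Dp n → DifferentiableOn ℂ b (Dp n) →
  (∀ z ∈ Oa A f I a, ∀ᶠ z' in 𝓝 z, σ z' = σ z) →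
  (∀ s, ContDiff ℝ 1 (fun y => q y s)) → (∀ y s, q y s ≠ 0 → y ∈ Metric.closedBall 0 R) →
  (∃ C : ℝ, ∀ y s, ‖q y s‖ ≤ C ∧ ‖fderiv ℝ (fun y => q y s) y‖ ≤ C) →
    IntegrableOn (fun z => φ z * b z * (‖(jac (FF A f a) z).det‖ ^ 2 : ℝ) *
      dzb (fun y => q y (σ z)) (FF A f a z) (ek k)) (Oa A f I a) ∧
    IntegrableOn (fun z => q (FF A f a z) (σ z) * b z * (jac (FF A f a) z).det *
      dzb φ z (cf (FF A f a) k z)) (Oa A f I a) ∧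
    ∫ z in Oa A f I a, φ z * b z * (‖(jac (FF A f a) z).det‖ ^ 2 : ℝ) *
      dzb (fun y => q y (σ z)) (FF A f a z) (ek k)
    = - ∫ z in Oa A f I a, q (FF A f a z) (σ z) * b z * (jac (FF A f a) z).det *
      dzb φ z (cf (FF A f a) k z)

/-- conjugate version with `b = 1` -/
def T_FOZ : Prop := ∀ (n : ℕ) (X : Type) [TopologicalSpace X] [T2Space X] (ι : Type)
  (A : Atl n X ι) (f : V n → X) (I : Set (V n)), Sing A f I → ∀ (a : ι) (k : Fin n)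
  (φ : V n → ℂ) (q : V n → ℝ → ℂ) (σ : V n → ℝ) (R : ℝ), R < 2 →
  ContDiff ℝ 1 φ → HasCompactSupport φ → tsupport φ ⊆ Dp n →
  (∀ z ∈ Oa A f I a, ∀ᶠ z' in 𝓝 z, σ z' = σ z) →
  (∀ s, ContDiff ℝ 1 (fun y => q y s)) → (∀ y s, q y s ≠ 0 → y ∈ Metric.closedBall 0 R) →
  (∃ C : ℝ, ∀ y s, ‖q y s‖ ≤ C ∧ ‖fderiv ℝ (fun y => q y s) y‖ ≤ C) →
    IntegrableOn (fun z => φ z * (‖(jac (FF A f a) z).det‖ ^ 2 : ℝ) *
      dz (fun y => q y (σ z)) (FF A f a z) (ek k)) (Oa A f I a) ∧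
    IntegrableOn (fun z => q (FF A f a z) (σ z) * conj (jac (FF A f a) z).det *
      dz φ z (cf (FF A f a) k z)) (Oa A f I a) ∧
    ∫ z in Oa A f I a, φ z * (‖(jac (FF A f a) z).det‖ ^ 2 : ℝ) *
      dz (fun y => q y (σ z)) (FF A f a z) (ek k)
    = - ∫ z in Oa A f I a, q (FF A f a z) (σ z) * conj (jac (FF A f a) z).det *
      dz φ z (cf (FF A f a) k z)

/-- integrate by parts once (only the derivative of `φ` has compact support in `Dp n`) -/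
def T_BY1 : Prop := ∀ (n : ℕ) (X : Type) [TopologicalSpace X] [T2Space X] (ι : Type)
  (A : Atl n X ι) (f : V n → X) (I : Set (V n)), Sing A f I → ∀ (a : ι) (k : Fin n)
  (φ : V n → ℝ) (q : V n → ℝ → ℝ) (σ : V n → ℝ) (R : ℝ), R < 2 →
  ContDiff ℝ 2 φ → HasCompactSupport (fderiv ℝ φ) → tsupport (fderiv ℝ φ) ⊆ Dp n →
  (∀ z ∈ Oa A f I a, ∀ᶠ z' in 𝓝 z, σ z' = σ z) →
  (∀ s, ContDiff ℝ 1 (fun y => q y s)) → (∀ y s, q y s ≠ 0 → y ∈ Metric.closedBall 0 R) →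
  (∃ C : ℝ, ∀ y s, |q y s| ≤ C ∧ ‖fderiv ℝ (fun y => q y s) y‖ ≤ C) →
    IntegrableOn (fun z => q (FF A f a z) (σ z) * lev φ z (cf (FF A f a) k z)) (Oa A f I a) ∧
    IntegrableOn (fun z => (dr φ z (cf (FF A f a) k z) * conj ((jac (FF A f a) z).det *
      dr (fun y => q y (σ z)) (FF A f a z) (ek k))).re) (Oa A f I a) ∧
    ∫ z in Oa A f I a, q (FF A f a z) (σ z) * lev φ z (cf (FF A f a) k z)
    = - ∫ z in Oa A f I a, (dr φ z (cf (FF A f a) k z) * conj ((jac (FF A f a) z).det *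
      dr (fun y => q y (σ z)) (FF A f a z) (ek k))).re

/-- second order identity -/
def T_SYM : Prop := ∀ (n : ℕ) (X : Type) [TopologicalSpace X] [T2Space X] (ι : Type)
  (A : Atl n X ι) (f : V n → X) (I : Set (V n)), Sing A f I → ∀ (a : ι) (k : Fin n)
  (φ : V n → ℝ) (q : V n → ℝ → ℝ) (σ : V n → ℝ) (R : ℝ), R < 2 →
  ContDiff ℝ 2 φ → HasCompactSupport φ → tsupport φ ⊆ Dp n →
  (∀ z ∈ Oa A f I a, ∀ᶠ z' in 𝓝 z, σ z' = σ z) →
  (∀ s, ContDiff ℝ 2 (fun y => q y s)) → (∀ y s, q y s ≠ 0 → y ∈ Metric.closedBall 0 R) →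
  (∃ C : ℝ, ∀ y s, |q y s| ≤ C ∧ ‖fderiv ℝ (fun y => q y s) y‖ ≤ C ∧
    ‖fderiv ℝ (fderiv ℝ (fun y => q y s)) y‖ ≤ C) →
    IntegrableOn (fun z => q (FF A f a z) (σ z) * lev φ z (cf (FF A f a) k z)) (Oa A f I a) ∧
    IntegrableOn (fun z => φ z * ‖(jac (FF A f a) z).det‖ ^ 2 *
      lev (fun y => q y (σ z)) (FF A f a z) (ek k)) (Oa A f I a) ∧
    ∫ z in Oa A f I a, q (FF A f a z) (σ z) * lev φ z (cf (FF A f a) k z)
    = ∫ z in Oa A f I a, φ z * ‖(jac (FF A f a) z).det‖ ^ 2 *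
      lev (fun y => q y (σ z)) (FF A f a z) (ek k)

/-- the operator is a divergence -/
def T_STA : Prop := ∀ (n : ℕ) (X : Type) [TopologicalSpace X] [T2Space X] (ι : Type) [Fintype ι]
  (A : Atl n X ι) (w : ι → V n → ℝ) (f : V n → X) (I : Set (V n)), Gau A w → Sing A f I →
  ∀ φ : V n → ℝ, ContDiff ℝ 2 φ → HasCompactSupport φ → tsupport φ ⊆ Dp n →
    IntegrableOn (LL A w f φ) (Dp n \ I) ∧ ∫ z in Dp n \ I, LL A w f φ z = 0

/-- the adjoint identity -/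
def T_ADJ : Prop := ∀ (n : ℕ) (X : Type) [TopologicalSpace X] [T2Space X] (ι : Type) [Fintype ι]
  (A : Atl n X ι) (w : ι → V n → ℝ) (f : V n → X) (I : Set (V n)), Gau A w → Sing A f I →
  ∀ φ g : V n → ℝ, ContDiff ℝ 2 φ → HasCompactSupport φ → tsupport φ ⊆ Dp n →
    ContDiffOn ℝ 2 g (Dp n) →
    IntegrableOn (fun z => φ z * LL A w f g z) (Dp n \ I) ∧
    IntegrableOn (fun z => g z * LLs A w f φ z) (Dp n \ I) ∧
    ∫ z in Dp n \ I, φ z * LL A w f g z = ∫ z in Dp n \ I, g z * LLs A w f φ z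

/-- pointwise bounds of the operators -/
def T_PWB : Prop := ∀ (n : ℕ) (X : Type) [TopologicalSpace X] [T2Space X] (ι : Type) [Fintype ι]
  (A : Atl n X ι) (w : ι → V n → ℝ) (f : V n → X) (I : Set (V n)), Gau A w → Sing A f I →
  ∀ (φ : V n → ℝ) (K : Set (V n)), ContDiffOn ℝ 2 φ (Dp n) → K ⊆ Dp n → IsCompact K →
    ∃ C : ℝ, ∀ z ∈ K \ I, |LL A w f φ z| ≤
        C * ∑ a, (Cb A f a (3 / 2)).indicator (Dm (FF A f a)) z ∧
      |LLs A w f φ z| ≤ C * ∑ a, (Cb A f a (3 / 2)).indicator (Dm (FF A f a)) z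

/-- comparison of the charts -/
def T_CMP : Prop := ∀ (n : ℕ) (X : Type) [TopologicalSpace X] [T2Space X] [CompactSpace X]
  (ι : Type) [Fintype ι] (A : Atl n X ι) (w : ι → V n → ℝ), Gau A w →
  ∃ C : ℝ, 0 < C ∧ ∀ (f : V n → X) (I : Set (V n)), Sing A f I → ∀ z ∈ Dp n \ I, ∀ a,
    z ∈ Cb A f a 2 →
    ‖(jac (FF A f a) z).det‖ ^ 2 ≤ C * PB A f w z ∧ PB A f w z ≤ C * ‖(jac (FF A f a) z).det‖ ^ 2 ∧
    (∀ g : V n → ℝ, ContDiffAt ℝ 2 g z → (∀ v, 0 ≤ lev g z v) →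
      ∑ k, lev g z (cf (FF A f a) k z) ≤ C * LL A w f g z) ∧
    (∀ g : V n → ℝ, DifferentiableAt ℝ g z →
      ∑ k, ge g z (cf (FF A f a) k z) ≤ C * GE A w f g z)

/-! ## C: masses near the origin -/

/-- the two basic mass bounds -/
def T_ABM : Prop := ∀ (n : ℕ) (X : Type) [TopologicalSpace X] [T2Space X] (ι : Type) [Fintype ι]
  (A : Atl n X ι) (w : ι → V n → ℝ) (f : V n → X) (I : Set (V n)), Gau A w → Sing A f I →
  ∃ C : ℝ, ∀ t : ℝ, 1 ≤ t →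
    ∫⁻ z in (Dp n \ I) ∩ {z | nsq z ≤ 1 / 4 ∧ -2 * t ≤ lu z}, ENNReal.ofReal (GE A w f lu z)
      ≤ ENNReal.ofReal (C * t ^ 2) ∧
    ∫⁻ z in (Dp n \ I) ∩ {z | nsq z ≤ 1 / 4 ∧ -2 * t ≤ lu z}, ENNReal.ofReal (LL A w f lu z)
      ≤ ENNReal.ofReal (C * t)

/-- uniform bounds for the cutoffs at the origin -/
def T_CST : Prop := ∀ (n : ℕ) (X : Type) [TopologicalSpace X] [T2Space X] [CompactSpace X]
  (ι : Type) [Fintype ι]
  (A : Atl n X ι) (w : ι → V n → ℝ) (f : V n → X) (I : Set (V n)), Gau A w → Sing A f I →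
  ∃ C : ℝ, (∀ t : ℝ, 1 ≤ t → ∀ a k,
    ∫⁻ z in (Dp n \ I) ∩ Cb A f a 2,
      ENNReal.ofReal |lev (fun x => chi x * rho t x) z (cf (FF A f a) k z)| ≤ ENNReal.ofReal C ∧
    ∫⁻ z in (Dp n \ I) ∩ Cb A f a 2 ∩ {z | nsq z ≤ 1 / 4},
      ENNReal.ofReal (ge (rho t) z (cf (FF A f a) k z)) ≤ ENNReal.ofReal C ∧
    ∫⁻ z in (Dp n \ I) ∩ {z | nsq z ≤ 1 / 4},
      ENNReal.ofReal |LL A w f (rho t) z| ≤ ENNReal.ofReal C) ∧
    ∫⁻ z in (Dp n \ I) ∩ {z | nsq z ≤ 1 / 4}, ENNReal.ofReal (LL A w f nsq z) < ⊤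

/-- the flux is nonnegative and is the total mass of the inner cutoff -/
def T_FLX : Prop := ∀ (n : ℕ) (X : Type) [TopologicalSpace X] [T2Space X] [CompactSpace X]
  (ι : Type) [Fintype ι]
  (A : Atl n X ι) (w : ι → V n → ℝ) (f : V n → X) (I : Set (V n)), Gau A w → Sing A f I →
    0 ≤ flux A w f I ∧ ∀ t : ℝ, 1 ≤ t →
      ∫ z in (Dp n \ I) ∩ {z | nsq z ≤ 1 / 4}, LL A w f (rho t) z = flux A w f I

/-- the adjoint identity up to the origin -/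
def T_F1 : Prop := ∀ (n : ℕ) (X : Type) [TopologicalSpace X] [T2Space X] [CompactSpace X]
  (ι : Type) [Fintype ι]
  (A : Atl n X ι) (w : ι → V n → ℝ) (f : V n → X) (I : Set (V n)), Gau A w → Sing A f I →
  ∀ g : V n → ℝ, ContDiff ℝ 2 g →
    IntegrableOn (fun z => chi z * LL A w f g z) (Dp n \ I) ∧
    IntegrableOn (fun z => g z * LLs A w f chi z) (Dp n \ I) ∧
    ∫ z in Dp n \ I, chi z * LL A w f g z
      = (∫ z in Dp n \ I, g z * LLs A w f chi z) - flux A w f I * g 0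

/-- functions with finite mass on the fibre do not feel the origin -/
def T_INV : Prop := ∀ (n : ℕ) (X : Type) [TopologicalSpace X] [T2Space X] [CompactSpace X]
  (ι : Type) [Fintype ι]
  (A : Atl n X ι) (w : ι → V n → ℝ) (f : V n → X) (I : Set (V n)), Gau A w → Sing A f I →
  ∀ S : Set (V n), MeasurableSet S →
    ∫⁻ z in (Dp n \ I) ∩ S ∩ {z | nsq z ≤ 1 / 4}, ENNReal.ofReal (PB A f w z) < ⊤ →
    ∀ a k, Tendsto (fun t : ℝ => ∫⁻ z in (Dp n \ I) ∩ Cb A f a 2 ∩ S ∩ {z | nsq z ≤ 1 / 4},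
      ENNReal.ofReal (‖(jac (FF A f a) z).det‖ * ‖dr (rho t) z (cf (FF A f a) k z)‖))
      atTop (𝓝 0)

end Pool.Agent.H95.VG
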