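import Mathlib
import Pool.Agent.H95.VG.Defs

/-!
# VG definitions for part 3 (positive flux)
-/

open MeasureTheory Set Filter Topology
open scoped ENNReal NNReal ContDiff ComplexConjugate

namespace Pool.Agent.H95.VG

variable {n : ℕ}

/-- weakly closed real 1-form (coefficients locally integrable) on an open set -/
def WCl (Q : Set (V n)) (β : V n → V n →L[ℝ] ℝ) : Prop :=
  ∀ p : V n → ℝ, ContDiff ℝ ∞ p → HasCompactSupport p → tsupport p ⊆ Q → ∀ v v' : V n,
    ∫ z in Q, (β z v * fderiv ℝ p z v' - β z v' * fderiv ℝ p z v) = 0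

/-- `F` is a `W^{1,1}_loc` function on `Q` with differential `β` (by smooth approximation on
compact subsets) -/
def WGr (Q : Set (V n)) (F : V n → ℝ) (β : V n → V n →L[ℝ] ℝ) : Prop :=
  ∀ K ⊆ Q, IsCompact K → ∃ G : ℕ → V n → ℝ, (∀ j, ContDiff ℝ ∞ (G j)) ∧
    Tendsto (fun j => ∫⁻ z in K, ENNReal.ofReal |G j z - F z|) atTop (𝓝 0) ∧
    Tendsto (fun j => ∫⁻ z in K, ENNReal.ofReal ‖fderiv ℝ (G j) z - β z‖) atTop (𝓝 0)

/-- `(1,0)` part of a real linear form -/
noncomputable def b10 (β : V n →L[ℝ] ℝ) (v : V n) : ℂ :=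
  (((β v : ℝ) : ℂ) - Complex.I * ((β (Complex.I • v) : ℝ) : ℂ)) / 2

variable {X : Type} [TopologicalSpace X] {ι : Type}

/-- the family of functions equal to `p` at `a` and `0` elsewhere -/
noncomputable def sgl (a : ι) (p : V n → ℝ) : ι → V n → ℝ := fun b y =>
  open Classical in if b = a then p y else 0

/-- transition map from chart `a` to chart `b` -/
noncomputable def tr (A : Atl n X ι) (a b : ι) (y : V n) : V n := A.φ b ((A.φ a).symm y)

/-- domain of the transition inside the polydiscs of radius `2` -/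
def tdo (A : Atl n X ι) (a b : ι) : Set (V n) :=
  {y | y ∈ Metric.ball (0 : V n) 2 ∧ (A.φ a).symm y ∈ (A.φ b).source ∧
    tr A a b y ∈ Metric.ball (0 : V n) 2}

/-- pull back to `Dp n \ I` of the closed form with local potentials `h` -/
noncomputable def bt (A : Atl n X ι) (f : V n → X) (h : ι → V n → ℝ) (z : V n) : V n →L[ℝ] ℝ :=
  fderiv ℝ (fun x => h (ch A (f z)) (A.φ (ch A (f z)) (f x))) z

/-- punctured ball of squared radius `1/4`, minus `I` -/
def Dq (n : ℕ) (I : Set (V n)) : Set (V n) := {z | z ∈ Dp n \ I ∧ nsq z < 1 / 4}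

/-- fibre of `(F_a, η - h_a(F_a))` over `(y, s)` inside `Dq` -/
def fib (A : Atl n X ι) (f : V n → X) (I : Set (V n)) (h : ι → V n → ℝ) (η : V n → ℝ)
    (a : ι) (s : ℝ) (y : V n) : Set (V n) :=
  {z | z ∈ Dq n I ∧ f z ∈ (A.φ a).source ∧ A.φ a (f z) = y ∧ η z = h a y + s}

/-- points of `Dq` in the fibre of `f` through `y`, at `η`-depth `L` below `y` -/
def FL (f : V n → X) (I : Set (V n)) (η : V n → ℝ) (L : ℝ) (y : V n) : Set (V n) :=
  {z | z ∈ Dq n I ∧ f z = f y ∧ η z = η y - L}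

variable [Fintype ι]

/-- the flux of `θ(η)` through the origin -/
noncomputable def Inn (A : Atl n X ι) (w : ι → V n → ℝ) (f : V n → X) (I : Set (V n))
    (h : ι → V n → ℝ) (η : V n → ℝ) (θ : ℝ → ℝ) : ℝ :=
  (∫ z in Dp n \ I, chi z * (deriv θ (η z) * PB A f (k1 w h) z
    + deriv (deriv θ) (η z) * PB A f (k2 w h) z))
  - ∫ z in Dp n \ I, θ (η z) * LL A w f chi z

/-- all windows of `η` of length two have bounded mass -/
def Win (A : Atl n X ι) (w : ι → V n → ℝ) (f : V n → X) (I : Set (V n)) (η : V n → ℝ) : Prop :=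
  ∃ C : ℝ, ∀ s : ℝ, ∫⁻ z in (Dp n \ I) ∩ {z | nsq z ≤ 1 / 2 ∧ |η z - s| ≤ 1},
    ENNReal.ofReal (PB A f w z) ≤ ENNReal.ofReal C

/-- `f` is nondegenerate almost everywhere -/
def Ndg (A : Atl n X ι) (w : ι → V n → ℝ) (f : V n → X) (I : Set (V n)) : Prop :=
  volume ((Dp n \ I) ∩ {z | PB A f w z = 0}) = 0

end Pool.Agent.H95.VG
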