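import Mathlib
import Pool.Agent.H95.VG.Defs3

/-!
# VG targets, part 3: positive flux
-/

open MeasureTheory Set Filter Topology
open scoped ENNReal NNReal ContDiff ComplexConjugate

namespace Pool.Agent.H95.VG

/-! ## W: weakly closed forms with integrable coefficients -/

/-- L¹ Poincaré lemma on convex open sets -/
def T_POI : Prop := ∀ (n : ℕ) (Q : Set (V n)) (β : V n → V n →L[ℝ] ℝ), IsOpen Q → Convex ℝ Q →
  Q.Nonempty → LocallyIntegrableOn β Q → WCl Q β →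
    ∃ F : V n → ℝ, LocallyIntegrableOn F Q ∧ WGr Q F β

/-- uniqueness up to local constants -/
def T_WG0 : Prop := ∀ (n : ℕ) (U : Set (V n)) (F F' : V n → ℝ) (β : V n → V n →L[ℝ] ℝ),
  IsOpen U → LocallyIntegrableOn F U → LocallyIntegrableOn F' U → LocallyIntegrableOn β U →
    WGr U F β → WGr U F' β →
    ∀ z ∈ U, ∃ r : ℝ, 0 < r ∧ Metric.ball z r ⊆ U ∧
      ∃ c : ℝ, ∀ᵐ x ∂(volume.restrict (Metric.ball z r)), F x - F' x = c

/-- composition with a biholomorphic map -/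
def T_WGC : Prop := ∀ (n : ℕ) (U U' : Set (V n)) (τ : V n → V n) (F : V n → ℝ)
  (β : V n → V n →L[ℝ] ℝ), IsOpen U → IsOpen U' → DifferentiableOn ℂ τ U → MapsTo τ U U' →
  InjOn τ U → (∀ z ∈ U, (jac τ z).det ≠ 0) → WGr U' F β →
    WGr U (fun z => F (τ z)) (fun z => (β (τ z)).comp (fderiv ℝ τ z))

/-- smooth functions -/
def T_WGS : Prop := ∀ (n : ℕ) (U : Set (V n)) (g : V n → ℝ), IsOpen U → ContDiffOn ℝ ∞ g U →
  WGr U g (fderiv ℝ g) ∧ WCl U (fderiv ℝ g) ∧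
  ∀ (F : V n → ℝ) (β : V n → V n →L[ℝ] ℝ) (p : V n → ℝ) (v : V n), WGr U F β →
    LocallyIntegrableOn F U → LocallyIntegrableOn β U → ContDiff ℝ ∞ p → HasCompactSupport p →
    tsupport p ⊆ U → ∫ z in U, p z * β z v = - ∫ z in U, F z * fderiv ℝ p z v

/-- gluing on the punctured ball, `n ≥ 2` -/
def T_GLU : Prop := ∀ (n : ℕ) (β : V n → V n →L[ℝ] ℝ), 2 ≤ n →
  LocallyIntegrableOn β (Dp n) → WCl (Dp n) β →
    ∃ F : V n → ℝ, LocallyIntegrableOn F (Dp n) ∧ WGr (Dp n) F β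

/-! ## V: the closed form dual to the flux -/

/-- push forward of `dχ` -/
structure Psh {n : ℕ} {X : Type} [TopologicalSpace X] {ι : Type} (A : Atl n X ι)
    (f : V n → X) (I : Set (V n)) (β : ι → V n → V n →L[ℝ] ℝ) : Prop where
  int : ∀ a, IntegrableOn (β a) (Metric.ball (0 : V n) 2)
  push : ∀ a k (p : V n → ℂ), Continuous p → (∃ C : ℝ, ∀ y, ‖p y‖ ≤ C) →
    IntegrableOn (fun z => p (FF A f a z) * (conj (jac (FF A f a) z).det *
      dr chi z (cf (FF A f a) k z))) (Oa A f I a) ∧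
    ∫ y in Metric.ball (0 : V n) 2, p y * b10 (β a y) (ek k)
      = ∫ z in Oa A f I a, p (FF A f a z) * (conj (jac (FF A f a) z).det *
          dr chi z (cf (FF A f a) k z))
  trans : ∀ a b, ∀ᵐ y ∂(volume.restrict (tdo A a b)),
    β a y = (β b (tr A a b y)).comp (fderiv ℝ (tr A a b) y)

def T_PSH : Prop := ∀ (n : ℕ) (X : Type) [TopologicalSpace X] [T2Space X] (ι : Type)
  (A : Atl n X ι) (f : V n → X) (I : Set (V n)), Sing A f I → ∃ β, Psh A f I β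

/-- the push forward is weakly closed -/
def T_WCA : Prop := ∀ (n : ℕ) (X : Type) [TopologicalSpace X] [T2Space X] (ι : Type)
  (A : Atl n X ι) (f : V n → X) (I : Set (V n)) (β : ι → V n → V n →L[ℝ] ℝ), Sing A f I →
    Psh A f I β → ∀ a, WCl (Metric.ball (0 : V n) 2) (β a)

/-- smooth closed form cohomologous to a weakly closed one -/
def T_CLH : Prop := ∀ (n : ℕ) (X : Type) [TopologicalSpace X] [T2Space X] [CompactSpace X]
  (ι : Type) [Fintype ι]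
  (A : Atl n X ι) (β : ι → V n → V n →L[ℝ] ℝ),
    (∀ a, IntegrableOn (β a) (Metric.ball (0 : V n) 2)) →
    (∀ a, WCl (Metric.ball (0 : V n) 2) (β a)) →
    (∀ a b, ∀ᵐ y ∂(volume.restrict (tdo A a b)),
      β a y = (β b (tr A a b y)).comp (fderiv ℝ (tr A a b) y)) →
    ∃ h F : ι → V n → ℝ, Clo A h ∧ (∀ a, LocallyIntegrableOn (F a) (Metric.ball (0 : V n) 2)) ∧
      (∀ a, WGr (Metric.ball (0 : V n) 2) (F a) (β a)) ∧
      ∀ a b, ∀ᵐ y ∂(volume.restrict (tdo A a b)),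
        h a y - F a y = h b (tr A a b y) - F b (tr A a b y)

/-- the period only depends on the class -/
def T_KPV : Prop := ∀ (n : ℕ) (X : Type) [TopologicalSpace X] [T2Space X] [CompactSpace X]
  (ι : Type) [Fintype ι]
  (A : Atl n X ι) (w : ι → V n → ℝ) (β : ι → V n → V n →L[ℝ] ℝ) (h F : ι → V n → ℝ), Gau A w →
    Clo A h → (∀ a, IntegrableOn (β a) (Metric.ball (0 : V n) 2)) →
    (∀ a, LocallyIntegrableOn (F a) (Metric.ball (0 : V n) 2)) →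
    (∀ a, WGr (Metric.ball (0 : V n) 2) (F a) (β a)) →
    (∀ a b, ∀ᵐ y ∂(volume.restrict (tdo A a b)),
        h a y - F a y = h b (tr A a b y) - F b (tr A a b y)) →
    kap w h = ∑ a, ∫ y in Metric.ball (0 : V n) 2,
      ∑ k, (b10 (β a y) (ek k) * conj (dr (w a) y (ek k))).re

/-- a closed form with period `-flux` -/
def T_VEX : Prop := ∀ (n : ℕ) (X : Type) [TopologicalSpace X] [T2Space X] [CompactSpace X]
  (ι : Type) [Fintype ι]
  (A : Atl n X ι) (w : ι → V n → ℝ) (f : V n → X) (I : Set (V n)), Gau A w → Sing A f I →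
    ∃ h : ι → V n → ℝ, Clo A h ∧ kap w h = - flux A w f I

/-- the pull back of a closed form is locally integrable and weakly closed on `Dp n` -/
def T_BTW : Prop := ∀ (n : ℕ) (X : Type) [TopologicalSpace X] [T2Space X] [CompactSpace X]
  (ι : Type) [Fintype ι]
  (A : Atl n X ι) (f : V n → X) (I : Set (V n)) (h : ι → V n → ℝ), Sing A f I → Clo A h →
    LocallyIntegrableOn (bt A f h) (Dp n) ∧ WCl (Dp n) (bt A f h) ∧
    ∀ a, ∀ z ∈ Oa A f I a, bt A f h z = fderiv ℝ (fun x => h a (FF A f a x)) z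

/-- existence of the primitive -/
def T_ETE : Prop := ∀ (n : ℕ) (X : Type) [TopologicalSpace X] [T2Space X] [CompactSpace X]
  (ι : Type) [Fintype ι]
  (A : Atl n X ι) (f : V n → X) (I : Set (V n)) (h : ι → V n → ℝ), Sing A f I → Clo A h →
    ∃ η : V n → ℝ, Eta A f I h η

/-! ## E: equidistribution -/

/-- properties of the density quotients -/
def T_RNC : Prop := ∀ (n : ℕ) (X : Type) [TopologicalSpace X] [T2Space X] [CompactSpace X]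
  (ι : Type) [Fintype ι] (A : Atl n X ι) (w p : ι → V n → ℝ), Gau A w →
    (∀ a, Continuous (p a)) → (∀ a y, p a y ≠ 0 → y ∈ Metric.closedBall (0 : V n) (3 / 2)) →
    Continuous (rn A w p) ∧ (∃ C : ℝ, ∀ x, |rn A w p x| ≤ C) ∧
    (∀ b, ∀ x ∈ (A.φ b).source, 0 < dens A w b x ∧ dens A p b x = rn A w p x * dens A w b x) ∧
    (∀ b, ContinuousOn (dens A p b) (A.φ b).source) ∧
    ∀ (f : V n → X) (I : Set (V n)), Sing A f I → ∀ z ∈ Dp n \ I,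
      PB A f p z = rn A w p (f z) * PB A f w z

/-- Weyl's lemma for positive measures, with the maximum principle -/
def T_WEY : Prop := ∀ (n : ℕ) (m : Measure (V n)), 1 ≤ n → IsFiniteMeasure m →
  (∀ p : V n → ℝ, ContDiff ℝ ∞ p → HasCompactSupport p →
    tsupport p ⊆ Metric.ball (0 : V n) (3 / 2) → ∫ y, ∑ k, lev p y (ek k) ∂m = 0) →
  ∃ b : V n → ℝ, ContinuousOn b (Metric.ball (0 : V n) (3 / 2)) ∧
    (∀ y ∈ Metric.ball (0 : V n) (3 / 2), 0 ≤ b y) ∧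
    m.restrict (Metric.ball (0 : V n) (3 / 2)) =
      (volume.restrict (Metric.ball (0 : V n) (3 / 2))).withDensity (fun y => ENNReal.ofReal (b y)) ∧
    ∀ y₀ ∈ Metric.ball (0 : V n) (3 / 2), IsLocalMax b y₀ → ∀ᶠ y in 𝓝 y₀, b y = b y₀

/-- uniqueness of the harmonic probability -/
def T_UNQ : Prop := ∀ (n : ℕ) (X : Type) [TopologicalSpace X] [T2Space X] [CompactSpace X]
  [ConnectedSpace X] [MeasurableSpace X] [BorelSpace X] (ι : Type) [Fintype ι] (A : Atl n X ι)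
  (w : ι → V n → ℝ) (m : Measure X), 1 ≤ n → Gau A w → IsProbabilityMeasure m →
    (∀ (a : ι) (p : V n → ℝ), ContDiff ℝ ∞ p →
      (∀ y, p y ≠ 0 → y ∈ Metric.closedBall (0 : V n) (3 / 2)) →
      ∫ x, rn A w (sgl a (fun y => ∑ k, lev p y (ek k))) x ∂m = 0) →
    ∀ p : ι → V n → ℝ, (∀ a, Continuous (p a)) →
      (∀ a y, p a y ≠ 0 → y ∈ Metric.closedBall (0 : V n) (3 / 2)) →
      ∫ x, rn A w p x ∂m = (∑ a, ∫ y, p a y) / (∑ a, ∫ y, w a y)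

/-- quantitative equidistribution -/
def T_EQD : Prop := ∀ (n : ℕ) (X : Type) [TopologicalSpace X] [T2Space X] [CompactSpace X]
  [ConnectedSpace X] [MeasurableSpace X] [BorelSpace X] (ι : Type) [Fintype ι] (A : Atl n X ι)
  (w : ι → V n → ℝ) (p : ι → V n → ℝ) (δ : ℝ), 1 ≤ n → Gau A w → (∀ a, Continuous (p a)) →
    (∀ a y, p a y ≠ 0 → y ∈ Metric.closedBall (0 : V n) (3 / 2)) → 0 < δ →
    0 < ∑ a, ∫ y, w a y ∧
    ∃ ε : ℝ, 0 < ε ∧ ∃ T : Finset (ι × (V n → ℝ)), (∀ c ∈ T, ContDiff ℝ ∞ c.2 ∧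
      ∀ y, c.2 y ≠ 0 → y ∈ Metric.closedBall (0 : V n) (3 / 2)) ∧
      ∀ m : Measure X, IsProbabilityMeasure m →
        (∀ c ∈ T, |∫ x, rn A w (sgl c.1 (fun y => ∑ k, lev c.2 y (ek k))) x ∂m| ≤ ε) →
        |∫ x, rn A w p x ∂m - (∑ a, ∫ y, p a y) / (∑ a, ∫ y, w a y)| ≤ δ

/-! ## A: windows -/

/-- the coefficients `k1`, `k2` -/
def T_KBD : Prop := ∀ (n : ℕ) (X : Type) [TopologicalSpace X] [T2Space X] [CompactSpace X]
  (ι : Type) [Fintype ι] (A : Atl n X ι) (w h : ι → V n → ℝ), Gau A w → Clo A h →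
    (∀ a, Continuous (k1 w h a) ∧ Continuous (k2 w h a)) ∧
    (∀ a y, k1 w h a y ≠ 0 ∨ k2 w h a y ≠ 0 → y ∈ Metric.closedBall (0 : V n) (3 / 2)) ∧
    ∑ a, ∫ y, k1 w h a y = kap w h ∧
    ∃ C : ℝ, ∀ (f : V n → X) (I : Set (V n)), Sing A f I → ∀ z ∈ Dp n \ I,
      |PB A f (k1 w h) z| ≤ C * PB A f w z ∧ |PB A f (k2 w h) z| ≤ C * PB A f w z

/-- the basic identity for functions of `η` -/
def T_IDN : Prop := ∀ (n : ℕ) (X : Type) [TopologicalSpace X] [T2Space X] [CompactSpace X]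
  (ι : Type) [Fintype ι]
  (A : Atl n X ι) (w : ι → V n → ℝ) (f : V n → X) (I : Set (V n)) (h : ι → V n → ℝ) (η : V n → ℝ),
  Gau A w → Sing A f I → Clo A h → Eta A f I h η → ∀ (θ : ℝ → ℝ) (φ : V n → ℝ),
  ContDiff ℝ 2 θ → (∃ C : ℝ, ∀ s, |θ s| ≤ C ∧ |deriv θ s| ≤ C ∧ |deriv (deriv θ) s| ≤ C) →
  ContDiff ℝ 2 φ → HasCompactSupport φ → tsupport φ ⊆ Dp n →
    IntegrableOn (fun z => θ (η z) * LL A w f φ z) (Dp n \ I) ∧
    IntegrableOn (fun z => φ z * (deriv θ (η z) * PB A f (k1 w h) z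
      + deriv (deriv θ) (η z) * PB A f (k2 w h) z)) (Dp n \ I) ∧
    ∫ z in Dp n \ I, θ (η z) * LL A w f φ z
      = ∫ z in Dp n \ I, φ z * (deriv θ (η z) * PB A f (k1 w h) z
          + deriv (deriv θ) (η z) * PB A f (k2 w h) z)

/-- near harmonicity of windows: for `τ ≥ 0` with small derivatives the measure
`f_* (χ_t τ(η) μ)` almost annihilates the functions `ℓ_{a,p}` -/
def T_NHA : Prop := ∀ (n : ℕ) (X : Type) [TopologicalSpace X] [T2Space X] [CompactSpace X]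
  (ι : Type) [Fintype ι]
  (A : Atl n X ι) (w : ι → V n → ℝ) (f : V n → X) (I : Set (V n)) (h : ι → V n → ℝ) (η : V n → ℝ),
  Gau A w → Sing A f I → Clo A h → Eta A f I h η → ∀ (a : ι) (p : V n → ℝ), ContDiff ℝ ∞ p →
  (∀ y, p y ≠ 0 → y ∈ Metric.closedBall (0 : V n) (3 / 2)) → ∃ C : ℝ, 0 ≤ C ∧
  ∀ (τ : ℝ → ℝ) (B t : ℝ), 1 ≤ t → ContDiff ℝ 2 τ → (∀ s, |τ s| ≤ B) →
    (∃ B' : ℝ, ∀ s, |deriv τ s| ≤ B' ∧ |deriv (deriv τ) s| ≤ B') →
    |∫ z in Dp n \ I, chi z * rho t z * τ (η z) *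
        PB A f (sgl a (fun y => ∑ k, lev p y (ek k))) z|
      ≤ C * B + C * ∫ z in Dp n \ I, chi z * rho t z *
        (|deriv τ (η z)| + |deriv (deriv τ) (η z)|) * PB A f w z

/-- Claim A: windows have bounded mass -/
def T_CLA : Prop := ∀ (n : ℕ) (X : Type) [TopologicalSpace X] [T2Space X] [CompactSpace X]
  [ConnectedSpace X] (ι : Type) [Fintype ι]
  (A : Atl n X ι) (w : ι → V n → ℝ) (f : V n → X) (I : Set (V n)) (h : ι → V n → ℝ) (η : V n → ℝ),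
  Gau A w → Sing A f I → Clo A h → Eta A f I h η → kap w h < 0 → Win A w f I η

/-- the inner flux functional -/
def T_INN : Prop := ∀ (n : ℕ) (X : Type) [TopologicalSpace X] [T2Space X] [CompactSpace X]
  (ι : Type) [Fintype ι]
  (A : Atl n X ι) (w : ι → V n → ℝ) (f : V n → X) (I : Set (V n)) (h : ι → V n → ℝ) (η : V n → ℝ),
  Gau A w → Sing A f I → Clo A h → Eta A f I h η → Win A w f I η →
  ∃ Ip Im : ℝ, 0 ≤ Ip ∧ 0 ≤ Im ∧ Ip + Im = flux A w f I ∧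
    ∀ (θ : ℝ → ℝ) (α β B : ℝ), ContDiff ℝ ∞ θ → (∀ s ≤ -B, θ s = α) → (∀ s, B ≤ s → θ s = β) →
      IntegrableOn (fun z => chi z * (deriv θ (η z) * PB A f (k1 w h) z
        + deriv (deriv θ) (η z) * PB A f (k2 w h) z)) (Dp n \ I) ∧
      Inn A w f I h η θ = β * Ip + α * Im

/-- the part of large positive `η` has finite mass -/
def T_PFM : Prop := ∀ (n : ℕ) (X : Type) [TopologicalSpace X] [T2Space X] [CompactSpace X]
  [ConnectedSpace X] (ι : Type) [Fintype ι]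
  (A : Atl n X ι) (w : ι → V n → ℝ) (f : V n → X) (I : Set (V n)) (h : ι → V n → ℝ) (η : V n → ℝ),
  Gau A w → Sing A f I → Clo A h → Eta A f I h η → kap w h < 0 → Win A w f I η →
  ∃ B : ℝ, ∫⁻ z in (Dp n \ I) ∩ {z | nsq z ≤ 1 / 2 ∧ B ≤ η z}, ENNReal.ofReal (PB A f w z) < ⊤

/-! ## C: counting functions -/

/-- locally constant functions are constant; bounded holomorphic functions extend -/
def T_CNN : Prop := ∀ (n : ℕ) (X : Type) [TopologicalSpace X] [T2Space X] (ι : Type) [Fintype ι]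
  (A : Atl n X ι) (f : V n → X) (I : Set (V n)), Sing A f I → ∀ R : ℝ, 0 < R → R ≤ 1 →
  (∀ (Y : Type) (g : V n → Y), (∀ z ∈ Dp n \ I, nsq z < R → ∀ᶠ z' in 𝓝 z, g z' = g z) →
    ∀ z ∈ Dp n \ I, ∀ z' ∈ Dp n \ I, nsq z < R → nsq z' < R → g z = g z') ∧
  (∀ g : V n → ℂ, DifferentiableOn ℂ g ((Dp n \ I) ∩ {z | nsq z < R}) →
    (∃ C : ℝ, ∀ z ∈ (Dp n \ I) ∩ {z | nsq z < R}, ‖g z‖ ≤ C) →
    ∃ G : V n → ℂ, DifferentiableOn ℂ G {z | nsq z < R} ∧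
      ∀ z ∈ (Dp n \ I) ∩ {z | nsq z < R}, G z = g z)

/-- zero sets of holomorphic functions -/
def T_ZER : Prop := ∀ (n : ℕ) (c : V n) (r : ℝ) (g : V n → ℂ),
  DifferentiableOn ℂ g (Metric.ball c r) → (∃ z ∈ Metric.ball c r, g z ≠ 0) →
    volume {z ∈ Metric.ball c r | g z = 0} = 0

/-- weak `∂bar` closedness: locally integrable functions with vanishing weak `∂bar` are
holomorphic almost everywhere; if real valued, constant on balls -/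
def T_WHL : Prop := ∀ (n : ℕ) (c : V n) (r : ℝ) (g : V n → ℂ), 0 < r →
  IntegrableOn g (Metric.ball c r) →
  (∀ p : V n → ℂ, ContDiff ℝ ∞ p → HasCompactSupport p → tsupport p ⊆ Metric.ball c r →
    ∀ k, ∫ y in Metric.ball c r, g y * dzb p y (ek k) = 0) →
  (∃ G : V n → ℂ, DifferentiableOn ℂ G (Metric.ball c r) ∧
    ∀ᵐ y ∂(volume.restrict (Metric.ball c r)), g y = G y) ∧
  ((∀ y, (g y).im = 0) → ∃ b : ℝ, ∀ᵐ y ∂(volume.restrict (Metric.ball c r)), g y = b)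

/-- either `f` is degenerate everywhere or it is nondegenerate almost everywhere -/
def T_DIC : Prop := ∀ (n : ℕ) (X : Type) [TopologicalSpace X] [T2Space X] [CompactSpace X]
  (ι : Type) [Fintype ι]
  (A : Atl n X ι) (w : ι → V n → ℝ) (f : V n → X) (I : Set (V n)), Gau A w → Sing A f I →
    (∀ z ∈ Dp n \ I, PB A f w z = 0) ∨ Ndg A w f I

/-- null sets are preserved by `f` and `f⁻¹` -/
def T_NUL : Prop := ∀ (n : ℕ) (X : Type) [TopologicalSpace X] [T2Space X] [CompactSpace X]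
  (ι : Type) [Fintype ι]
  (A : Atl n X ι) (w : ι → V n → ℝ) (f : V n → X) (I : Set (V n)), Gau A w → Sing A f I →
  Ndg A w f I →
    (∀ Z : Set (V n), Z ⊆ Dp n \ I → volume Z = 0 →
      volume {y ∈ Dp n \ I | ∃ z ∈ Z, f z = f y} = 0) ∧
    (∀ (a : ι) (E : Set (V n)), volume E = 0 →
      volume {y ∈ Dp n \ I | f y ∈ (A.φ a).source ∧ A.φ a (f y) ∈ E} = 0)

/-- the counting functions of deep levels are constant -/
def T_CON : Prop := ∀ (n : ℕ) (X : Type) [TopologicalSpace X] [T2Space X] [CompactSpace X]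
  (ι : Type) [Fintype ι]
  (A : Atl n X ι) (w : ι → V n → ℝ) (f : V n → X) (I : Set (V n)) (h : ι → V n → ℝ) (η : V n → ℝ),
  Gau A w → Sing A f I → Clo A h → Eta A f I h η → Win A w f I η →
  ∃ S₀ : ℝ, 0 < S₀ ∧ ∀ (a : ι) (s : ℝ), S₀ ≤ |s| →
    (∃ N : ℕ, ∀ᵐ y ∂(volume.restrict (Metric.ball (0 : V n) (3 / 2))),
      (fib A f I h η a s y).encard = N) ∧
    ∀ (i : Fin n) (j : ℕ), ∃ Q : V n → ℂ, DifferentiableOn ℂ Q (Metric.ball (0 : V n) (3 / 2)) ∧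
      ∀ᵐ y ∂(volume.restrict (Metric.ball (0 : V n) (3 / 2))),
        Q y = ∑ᶠ z ∈ fib A f I h η a s y, (z i) ^ j

/-- mass of a level in terms of the counting function, and its uniform bound -/
def T_LVB : Prop := ∀ (n : ℕ) (X : Type) [TopologicalSpace X] [T2Space X] [CompactSpace X]
  (ι : Type) [Fintype ι]
  (A : Atl n X ι) (w : ι → V n → ℝ) (f : V n → X) (I : Set (V n)) (h : ι → V n → ℝ) (η : V n → ℝ),
  Gau A w → Sing A f I → Clo A h → Eta A f I h η →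
  ∃ c H : ℝ, 0 < c ∧ (∀ a, ∀ y ∈ Metric.closedBall (0 : V n) (3 / 2), |h a y| ≤ H) ∧
    ∀ (a : ι) (T : Finset ℝ) (N : ℝ → ℕ) (s₀ : ℝ), (∀ s ∈ T, |s - s₀| ≤ 1) →
    (∀ s ∈ T, ∀ᵐ y ∂(volume.restrict (Metric.ball (0 : V n) (3 / 2))),
      (N s : ℕ∞) ≤ (fib A f I h η a s y).encard) →
    ENNReal.ofReal (c * ∑ s ∈ T, (N s : ℝ)) ≤
      ∫⁻ z in (Dp n \ I) ∩ {z | nsq z < 1 / 4 ∧ |η z - s₀| ≤ 1 + H}, ENNReal.ofReal (PB A f w z)

/-- `η` is bounded above near the origin, and the windows of large negative `η` have mass -/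
def T_UPB : Prop := ∀ (n : ℕ) (X : Type) [TopologicalSpace X] [T2Space X] [CompactSpace X]
  [ConnectedSpace X] (ι : Type) [Fintype ι]
  (A : Atl n X ι) (w : ι → V n → ℝ) (f : V n → X) (I : Set (V n)) (h : ι → V n → ℝ) (η : V n → ℝ),
  Gau A w → Sing A f I → Clo A h → Eta A f I h η → kap w h < 0 → 0 < flux A w f I →
  Win A w f I η → Ndg A w f I →
    (∃ B : ℝ, ∀ z ∈ Dq n I, η z ≤ B) ∧
    ∃ c S : ℝ, 0 < c ∧ ∀ s : ℝ, S ≤ s → ENNReal.ofReal c ≤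
      ∫⁻ z in (Dp n \ I) ∩ {z | nsq z < 1 / 4 ∧ |η z + s| ≤ 1}, ENNReal.ofReal (PB A f w z)

/-! ## L: the correspondences `FL` and the final iteration -/

/-- all properties of the correspondences used in the iteration -/
structure Cor {n : ℕ} {X : Type} (f : V n → X) (I : Set (V n)) (η : V n → ℝ) (L₀ : ℝ)
    (m₀ : ℕ) (N : ℝ → ℕ) : Prop where
  pos : 0 < L₀ ∧ 1 ≤ m₀
  le : ∀ L, L₀ ≤ L → N L ≤ m₀
  card : ∀ L, L₀ ≤ L → ∀ᵐ y ∂(volume.restrict (Dq n I)), (FL f I η L y).encard = N L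
  /-- null sets are preserved by the correspondences -/
  null : ∀ Z : Set (V n), volume Z = 0 → ∀ᵐ y ∂(volume.restrict (Dq n I)),
    ∀ z ∈ Dq n I, f z = f y → z ∉ Z
  /-- power sums are holomorphic and vanish at the origin -/
  hol : ∀ L, L₀ ≤ L → ∀ (i : Fin n) (j : ℕ), 1 ≤ j → ∃ P : V n → ℂ,
    DifferentiableOn ℂ P {z | nsq z < 1 / 4} ∧ P 0 = 0 ∧
    ∀ᵐ y ∂(volume.restrict (Dq n I)), P y = ∑ᶠ z ∈ FL f I η L y, (z i) ^ j
  /-- depth goes to the origin -/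
  deep : ∀ ε : ℝ, 0 < ε → ∃ B : ℝ, ∀ z ∈ Dq n I, η z ≤ -B → ‖z‖ ≤ ε
  up : ∃ B : ℝ, ∀ z ∈ Dq n I, η z ≤ B
  /-- arbitrarily large depths occur -/
  unb : ∀ B : ℝ, ∃ L, B ≤ L ∧ L₀ ≤ L ∧ 1 ≤ N L
  meas : volume (Dq n I) ≠ 0
  inull : volume (Dp n ∩ I) = 0

def T_FLN : Prop := ∀ (n : ℕ) (X : Type) [TopologicalSpace X] [T2Space X] [CompactSpace X]
  [ConnectedSpace X] (ι : Type) [Fintype ι]
  (A : Atl n X ι) (w : ι → V n → ℝ) (f : V n → X) (I : Set (V n)) (h : ι → V n → ℝ) (η : V n → ℝ),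
  Gau A w → Sing A f I → Clo A h → Eta A f I h η → kap w h < 0 → 0 < flux A w f I →
  Win A w f I η → Ndg A w f I → ∃ L₀ m₀ N, Cor f I η L₀ m₀ N

/-- from power sums to the points -/
def T_NEW : Prop := ∀ m : ℕ, 1 ≤ m → ∃ C : ℝ, 0 < C ∧ ∀ (S : Finset ℕ) (x : ℕ → ℂ) (R q : ℝ),
  S.card ≤ m → 0 ≤ R → 0 ≤ q → q ≤ 1 →
  (∀ j, 1 ≤ j → j ≤ m → ‖∑ l ∈ S, x l ^ j‖ ≤ R ^ j * q) →
    ∀ l ∈ S, ‖x l‖ ≤ C * R * q ^ (1 / (m : ℝ))

/-- Schwarz lemma on the ball -/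
def T_SCW : Prop := ∀ (n : ℕ) (P : V n → ℂ) (M : ℝ), DifferentiableOn ℂ P {z | nsq z < 1 / 4} →
  P 0 = 0 → 0 ≤ M → (∀ᵐ z ∂(volume.restrict {z : V n | nsq z < 1 / 4}), ‖P z‖ ≤ M) →
    ∀ z, nsq z < 1 / 4 → ‖P z‖ ≤ M * (2 * Real.sqrt (nsq z))

/-- Schwarz estimate for the correspondences -/
def T_SCH : Prop := ∀ (n : ℕ) (X : Type) (f : V n → X) (I : Set (V n)) (η : V n → ℝ) (L₀ : ℝ)
  (m₀ : ℕ) (N : ℝ → ℕ), Cor f I η L₀ m₀ N → ∃ C : ℝ, 1 ≤ C ∧ ∀ (L R : ℝ), L₀ ≤ L → 0 ≤ R →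
    (∀ᵐ y ∂(volume.restrict (Dq n I)), ∀ z ∈ FL f I η L y, ‖z‖ ≤ R) →
    ∀ᵐ y ∂(volume.restrict (Dq n I)), ∀ z ∈ FL f I η L y,
      ‖z‖ ≤ C * R * (2 * Real.sqrt (nsq y)) ^ (1 / (m₀ : ℝ))

/-- exponential decay of the depth -/
def T_ITR : Prop := ∀ (n : ℕ) (X : Type) (f : V n → X) (I : Set (V n)) (η : V n → ℝ) (L₀ : ℝ)
  (m₀ : ℕ) (N : ℝ → ℕ), Cor f I η L₀ m₀ N → ∃ L₁ : ℝ, L₀ ≤ L₁ ∧ 1 ≤ N L₁ ∧
    ∀ (L : ℝ) (k : ℕ), L₀ ≤ L → ∀ᵐ y ∂(volume.restrict (Dq n I)),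
      ∀ z ∈ FL f I η (L + k * L₁) y, ‖z‖ ≤ Real.exp (-k)

/-- the combinatorics of the occupied levels -/
def T_OCC : Prop := ∀ (O : Set ℝ) (S L : ℝ) (m : ℕ), 0 < L → (∀ s ∈ O, s < -S) →
  (∀ s ∈ O, s - L ∈ O) → (∀ (σ : ℝ) (T : Finset ℝ), ↑T ⊆ O ∩ Set.Ico σ (σ + L) → T.card ≤ m) →
    ∃ σ₀ : ℝ, ∀ s ∈ O, ∃ k : ℕ, s + k * L ∈ O ∧ σ₀ ≤ s + k * L

/-- `η` grows at most logarithmically -/
def T_LOG : Prop := ∀ (n : ℕ) (X : Type) [TopologicalSpace X] [T2Space X] [CompactSpace X]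
  [ConnectedSpace X] (ι : Type) [Fintype ι]
  (A : Atl n X ι) (w : ι → V n → ℝ) (f : V n → X) (I : Set (V n)) (h : ι → V n → ℝ) (η : V n → ℝ),
  Gau A w → Sing A f I → Clo A h → Eta A f I h η → kap w h < 0 → 0 < flux A w f I →
  Win A w f I η → Ndg A w f I → ∃ C : ℝ, ∀ z ∈ Dq n I, |η z| ≤ C * (1 + |lu z|)

/-- the case of positive flux -/
def T_CPO : Prop := ∀ (n : ℕ) (X : Type) [TopologicalSpace X] [T2Space X] [CompactSpace X]
  [ConnectedSpace X] (ι : Type) [Fintype ι]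
  (A : Atl n X ι) (w : ι → V n → ℝ) (f : V n → X) (I : Set (V n)), Gau A w → Sing A f I →
  0 < flux A w f I → Ndg A w f I → ∃ C : ℝ, ∀ t : ℝ, 1 ≤ t →
    ∫⁻ z in (Dp n \ I) ∩ {z | nsq z < 1 / 4 ∧ -t ≤ lu z}, ENNReal.ofReal (PB A f w z)
      ≤ ENNReal.ofReal (C * t)

/-- the main theorem for maps with mild singularities -/
def T_CORE : Prop := ∀ (n : ℕ) (X : Type) [TopologicalSpace X] [T2Space X] [CompactSpace X]
  [ConnectedSpace X] (ι : Type) [Fintype ι]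
  (A : Atl n X ι) (w : ι → V n → ℝ) (f : V n → X) (I : Set (V n)), Gau A w → Sing A f I →
  ∃ C : ℝ, ∀ t : ℝ, 1 ≤ t →
    ∫⁻ z in (Dp n \ I) ∩ {z | nsq z < 1 / 4 ∧ -t ≤ lu z}, ENNReal.ofReal (PB A f w z)
      ≤ ENNReal.ofReal (C * t)

end Pool.Agent.H95.VG
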