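import Mathlib
import Pool.Agent.H95.VG.Defs3

/-!
# VG definitions for part 5 (meromorphic maps: local theory of the graph)
-/

open MeasureTheory Set Filter Topology
open scoped ENNReal NNReal ContDiff ComplexConjugate

namespace Pool.Agent.H95.VG

variable {n : ℕ}

/-- the graph map `z ↦ (z, F z)` -/
def Zf (F : V n → V n) (z : V n) : V (n + n) := Fin.append z (F z)

/-- perturbed projection: `l + ε (coordinates selected by Φ, centred at P)` -/
noncomputable def YY (l : V (n + n) → V n) (P : V (n + n)) (Φ : Fin n → Fin n ⊕ Fin n) (ε : ℝ)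
    (Z : V (n + n)) : V n :=
  fun i => l Z i + (ε : ℂ) * (Z (finSumFinEquiv (Φ i)) - P (finSumFinEquiv (Φ i)))

/-- `ε_j = 1/(j+1)` -/
noncomputable def ej (j : ℕ) : ℝ := 1 / ((j : ℝ) + 1)

/-- random linear combination of the equations `G = 0`, `Y = w` -/
noncomputable def HB {N m k : ℕ} (B : Fin N → Fin m ⊕ Fin k → ℂ) (G : V N → V m) (Y : V N → V k)
    (w : V k) (Z : V N) : V N :=
  fun i => ∑ j, B i (Sum.inl j) * G Z j + ∑ j, B i (Sum.inr j) * (Y Z j - w j)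

/-- `B` is generic for the system `G = 0`, `Y = w`: all zeros of the combination which are not zeros
of the system are nondegenerate -/
def Gnr {N m k : ℕ} (U : Set (V N)) (B : Fin N → Fin m ⊕ Fin k → ℂ) (G : V N → V m)
    (Y : V N → V k) (w : V k) : Prop :=
  ∀ Z ∈ U, (G Z ≠ 0 ∨ Y Z ≠ w) → HB B G Y w Z = 0 → (jac (HB B G Y w) Z).det ≠ 0

variable {X : Type} [TopologicalSpace X] {ι : Type}

/-- points of `D \ I` whose graph point in the chart `a` is in the polydisc `ball P r` -/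
def Ug (A : Atl n X ι) (f : V n → X) (I D : Set (V n)) (a : ι) (P : V (n + n)) (r : ℝ) :
    Set (V n) :=
  {z | z ∈ D \ I ∧ f z ∈ (A.φ a).source ∧ Zf (FF A f a) z ∈ Metric.ball P r}

/-- local equations `G` of the graph and `n` functions `l` with isolated common zero `P` on it -/
structure LGr (A : Atl n X ι) (f : V n → X) (I D : Set (V n)) (a : ι) (P : V (n + n)) (r : ℝ)
    {m : ℕ} (G : V (n + n) → V m) (l : V (n + n) → V n) : Prop where
  rpos : 0 < r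
  rle : r ≤ 1 / 4
  dom : ∀ z y : V n, Fin.append z y ∈ Metric.ball P r → z ∈ D ∧ y ∈ Metric.ball (0 : V n) 3
  ghol : DifferentiableOn ℂ G (Metric.ball P r)
  lhol : DifferentiableOn ℂ l (Metric.ball P r)
  l0 : l P = 0
  iso : ∀ Z ∈ Metric.ball P r, G Z = 0 → l Z = 0 → Z = P
  gr : ∀ z y : V n, Fin.append z y ∈ Metric.ball P r → z ∉ I →
    (G (Fin.append z y) = 0 ↔ (f z ∈ (A.φ a).source ∧ A.φ a (f z) = y))

/-- bare hands meromorphic map on `D` with indeterminacy in `I` -/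
structure Mro (A : Atl n X ι) (f : V n → X) (I D : Set (V n)) : Prop where
  opn : IsOpen D
  sub : I ⊆ D
  ian : ∀ z₀ ∈ D, ∃ r : ℝ, 0 < r ∧ Metric.ball z₀ r ⊆ D ∧ ∃ (m : ℕ) (g : V n → V m),
    DifferentiableOn ℂ g (Metric.ball z₀ r) ∧ ∀ z ∈ Metric.ball z₀ r, (z ∈ I ↔ g z = 0)
  thin : interior I = ∅
  cont : ContinuousOn f (D \ I)
  hol : ∀ a, DifferentiableOn ℂ (FF A f a) {z | z ∈ D \ I ∧ f z ∈ (A.φ a).source}
  loc : ∀ a, ∀ z₀ ∈ D, ∀ y₀ ∈ Metric.closedBall (0 : V n) (5 / 2),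
    ∃ (r : ℝ) (m : ℕ) (G : V (n + n) → V m) (l : V (n + n) → V n),
      LGr A f I D a (Fin.append z₀ y₀) r G l

/-- properness and fibre bounds of the perturbed projections on the graph near `P` -/
structure FBd (A : Atl n X ι) (f : V n → X) (I D : Set (V n)) (a : ι) (P : V (n + n)) (r : ℝ)
    {m : ℕ} (G : V (n + n) → V m) (l : V (n + n) → V n) (r' ε₀ δ₁ : ℝ) (D₀ : ℕ) : Prop where
  pos : 0 < r' ∧ r' < r ∧ 0 < ε₀ ∧ ε₀ ≤ 1 ∧ 0 < δ₁
  prp : ∀ Φ (ε : ℝ), 0 ≤ ε → ε ≤ ε₀ → ∀ Z ∈ Metric.sphere P r', G Z = 0 → δ₁ < ‖YY l P Φ ε Z‖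
  cnt : ∀ Φ (j : ℕ), ej j ≤ ε₀ → ∀ᵐ w ∂(volume.restrict (Metric.ball (0 : V n) δ₁)),
    {z | z ∈ Ug A f I D a P r' ∧ YY l P Φ (ej j) (Zf (FF A f a) z) = w}.encard ≤ D₀

end Pool.Agent.H95.VG
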