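import Mathlib

/-!
# Volume growth of meromorphic maps on punctured polydisks: statement level definitions
-/

open MeasureTheory Set Filter Topology
open scoped ENNReal NNReal ContDiff Manifold ComplexConjugate

namespace Pool.Agent.H95.VG

/-- A continuous Hermitian metric on a complex manifold `X` modelled on `ℂⁿ`: a positive definite
Hermitian form (linear in the first, antilinear in the second argument) on every tangent space,
with continuous coefficients in every preferred chart. -/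
structure HMetric (n : ℕ) (X : Type) [TopologicalSpace X] [ChartedSpace (Fin n → ℂ) X] where
  H : (x : X) → TangentSpace 𝓘(ℂ, Fin n → ℂ) x → TangentSpace 𝓘(ℂ, Fin n → ℂ) x → ℂ
  add_left : ∀ x u v w, H x (u + v) w = H x u w + H x v w
  smul_left : ∀ x (c : ℂ) u w, H x (c • u) w = c * H x u w
  symm : ∀ x u v, H x v u = conj (H x u v)
  pos : ∀ x u, u ≠ 0 → 0 < (H x u u).re
  cont : ∀ (x₀ : X) (u v : Fin n → ℂ), ContinuousOn (fun y : Fin n → ℂ =>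
    H ((chartAt (Fin n → ℂ) x₀).symm y)
      (mfderiv 𝓘(ℂ, Fin n → ℂ) 𝓘(ℂ, Fin n → ℂ) (chartAt (Fin n → ℂ) x₀).symm y u)
      (mfderiv 𝓘(ℂ, Fin n → ℂ) 𝓘(ℂ, Fin n → ℂ) (chartAt (Fin n → ℂ) x₀).symm y v))
    (chartAt (Fin n → ℂ) x₀).target

/-- The density of `(f^* ω)^n` with respect to Lebesgue measure, `ω = (i/2) ∑ h_{jk} dx_j ∧ dx̄_k`:
`n!` times the Gram determinant of the vectors `df(∂/∂z_j)`. -/
noncomputable def volDensity {n : ℕ} {X : Type} [TopologicalSpace X] [ChartedSpace (Fin n → ℂ) X]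
    (g : HMetric n X) (f : (Fin n → ℂ) → X) (z : Fin n → ℂ) : ℝ :=
  n.factorial * (Matrix.of fun i j : Fin n => g.H (f z)
    (mfderiv 𝓘(ℂ, Fin n → ℂ) 𝓘(ℂ, Fin n → ℂ) f z (Pi.single i 1 : Fin n → ℂ))
    (mfderiv 𝓘(ℂ, Fin n → ℂ) 𝓘(ℂ, Fin n → ℂ) f z (Pi.single j 1 : Fin n → ℂ))).det.re

/-- The volume of the image `f(U)`, counted with multiplicity. -/
noncomputable def imageVol {n : ℕ} {X : Type} [TopologicalSpace X] [ChartedSpace (Fin n → ℂ) X]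
    (g : HMetric n X) (f : (Fin n → ℂ) → X) (U : Set (Fin n → ℂ)) : ℝ≥0∞ :=
  ∫⁻ z in U, ENNReal.ofReal (volDensity g f z)

/-- `A` is an analytic subset of the open set `U` of the complex manifold `M`. -/
def IsAnalyticIn {E H : Type} [NormedAddCommGroup E] [NormedSpace ℂ E] [TopologicalSpace H]
    (J : ModelWithCorners ℂ E H) {M : Type} [TopologicalSpace M] [ChartedSpace H M]
    (U A : Set M) : Prop :=
  A ⊆ U ∧ ∀ p ∈ U, ∃ W : Set M, IsOpen W ∧ p ∈ W ∧ W ⊆ U ∧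
    ∃ (m : ℕ) (g : Fin m → M → ℂ), (∀ i, MDifferentiableOn J 𝓘(ℂ, ℂ) (g i) W) ∧
      ∀ q ∈ W, q ∈ A ↔ ∀ i, g i q = 0

/-- The local dimension of the analytic set `A` at its point `p` is at most `d`: near `p` there are
`d` holomorphic functions vanishing at `p` whose only common zero on `A` is `p`. -/
def LocDimLE {E H : Type} [NormedAddCommGroup E] [NormedSpace ℂ E] [TopologicalSpace H]
    (J : ModelWithCorners ℂ E H) {M : Type} [TopologicalSpace M] [ChartedSpace H M]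
    (A : Set M) (p : M) (d : ℕ) : Prop :=
  ∃ W : Set M, IsOpen W ∧ p ∈ W ∧ ∃ l : Fin d → M → ℂ,
    (∀ i, MDifferentiableOn J 𝓘(ℂ, ℂ) (l i) W) ∧ (∀ i, l i p = 0) ∧
      ∀ q ∈ A ∩ W, (∀ i, l i q = 0) → q = p

/-- `f` is (the restriction to `D \ I` of) a meromorphic map from `D ⊆ ℂⁿ` to `X` with graph `Γ`:
`I` is a nowhere dense analytic subset of `D` (for instance of codimension at least two),
`f` is holomorphic on `D \ I`, and `Γ` is an analytic subset of `D × X`, of dimension at most `n`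
at each of its points, which coincides with the graph of `f` over `D \ I`. -/
structure IsMero {n : ℕ} {X : Type} [TopologicalSpace X] [ChartedSpace (Fin n → ℂ) X]
    (D I : Set (Fin n → ℂ)) (Γ : Set ((Fin n → ℂ) × X)) (f : (Fin n → ℂ) → X) : Prop where
  opn : IsOpen D
  ind : IsAnalyticIn 𝓘(ℂ, Fin n → ℂ) D I
  thin : interior I = ∅
  hol : MDifferentiableOn 𝓘(ℂ, Fin n → ℂ) 𝓘(ℂ, Fin n → ℂ) f (D \ I)
  graph : IsAnalyticIn (𝓘(ℂ, Fin n → ℂ).prod 𝓘(ℂ, Fin n → ℂ)) (D ×ˢ (univ : Set X)) Γ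
  graph_eq : ∀ z ∈ D \ I, ∀ x : X, (z, x) ∈ Γ ↔ x = f z
  dim : ∀ p ∈ Γ, LocDimLE (𝓘(ℂ, Fin n → ℂ).prod 𝓘(ℂ, Fin n → ℂ)) Γ p n

/-- the punctured polydisk -/
def PDisk (n : ℕ) : Set (Fin n → ℂ) := {z | z ≠ 0 ∧ ‖z‖ < 1}

/-- the shell `r < max |z_j| < ρ` -/
def Shell (n : ℕ) (r ρ : ℝ) : Set (Fin n → ℂ) := {z | r < ‖z‖ ∧ ‖z‖ < ρ}

/-- The final theorem. -/
def MainStatement : Prop := ∀ (n : ℕ), 2 ≤ n → ∀ (X : Type) [TopologicalSpace X] [T2Space X]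
  [CompactSpace X] [ChartedSpace (Fin n → ℂ) X] [IsManifold 𝓘(ℂ, Fin n → ℂ) 1 X]
  (g : HMetric n X) (I : Set (Fin n → ℂ)) (Γ : Set ((Fin n → ℂ) × X)) (f : (Fin n → ℂ) → X),
  IsMero (PDisk n) I Γ f → ∀ ρ : ℝ, 0 < ρ → ρ < 1 → ∃ C : ℝ, ∀ r : ℝ, 0 < r → r ≤ 1 / 2 →
    imageVol g f (Shell n r ρ \ I) ≤ ENNReal.ofReal (C * Real.log (1 / r))

/-- The holomorphic case. -/
def HolStatement : Prop := ∀ (n : ℕ), 2 ≤ n → ∀ (X : Type) [TopologicalSpace X] [T2Space X]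
  [CompactSpace X] [ChartedSpace (Fin n → ℂ) X] [IsManifold 𝓘(ℂ, Fin n → ℂ) 1 X]
  (g : HMetric n X) (f : (Fin n → ℂ) → X),
  MDifferentiableOn 𝓘(ℂ, Fin n → ℂ) 𝓘(ℂ, Fin n → ℂ) f (PDisk n) →
  ∀ ρ : ℝ, 0 < ρ → ρ < 1 → ∃ C : ℝ, ∀ r : ℝ, 0 < r → r ≤ 1 / 2 →
    imageVol g f (Shell n r ρ) ≤ ENNReal.ofReal (C * Real.log (1 / r))

end Pool.Agent.H95.VG
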