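import Mathlib
import Pool.Agent.H95.VG.Defs3
import Pool.Agent.H95.VG.Statement

/-!
# VG targets, part 4: holomorphic maps, manifolds
-/

open MeasureTheory Set Filter Topology
open scoped ENNReal NNReal ContDiff Manifold ComplexConjugate

namespace Pool.Agent.H95.VG

/-- holomorphic maps have mild singularities -/
def T_HIN : Prop := ∀ (n : ℕ) (X : Type) [TopologicalSpace X] [T2Space X] [CompactSpace X]
  (ι : Type) [Fintype ι] (A : Atl n X ι) (f : V n → X), 2 ≤ n → ContinuousOn f (Dp n) →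
  (∀ a, DifferentiableOn ℂ (FF A f a) {z | z ∈ Dp n ∧ f z ∈ (A.φ a).source}) → Sing A f ∅

/-- compatibility of a bare hands atlas with the manifold structure -/
def Cpt {n : ℕ} {X : Type} [TopologicalSpace X] [ChartedSpace (Fin n → ℂ) X] {ι : Type}
    (A : Atl n X ι) : Prop :=
  ∀ a, MDifferentiableOn 𝓘(ℂ, Fin n → ℂ) 𝓘(ℂ, Fin n → ℂ) (A.φ a) (A.φ a).source ∧
    MDifferentiableOn 𝓘(ℂ, Fin n → ℂ) 𝓘(ℂ, Fin n → ℂ) (A.φ a).symm (A.φ a).target

/-- existence of finite atlases -/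
def T_ATL : Prop := ∀ (n : ℕ) (X : Type) [TopologicalSpace X] [T2Space X] [CompactSpace X]
  [ChartedSpace (Fin n → ℂ) X] [IsManifold 𝓘(ℂ, Fin n → ℂ) 1 X],
  ∃ (ι : Type) (_ : Fintype ι) (A : Atl n X ι), Cpt A

/-- the volume density in a chart -/
def T_VOD : Prop := ∀ (n : ℕ) (X : Type) [TopologicalSpace X] [T2Space X] [CompactSpace X]
  [ChartedSpace (Fin n → ℂ) X] [IsManifold 𝓘(ℂ, Fin n → ℂ) 1 X] (g : HMetric n X)
  (ι : Type) [Fintype ι] (A : Atl n X ι), Cpt A → ∃ C : ℝ, 0 < C ∧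
    ∀ (f : V n → X) (z : V n) (a : ι), MDifferentiableAt 𝓘(ℂ, Fin n → ℂ) 𝓘(ℂ, Fin n → ℂ) f z →
      f z ∈ (A.φ a).source → DifferentiableAt ℂ (FF A f a) z ∧
      (A.φ a (f z) ∈ Metric.closedBall (0 : V n) 2 →
        volDensity g f z ≤ C * ‖(jac (FF A f a) z).det‖ ^ 2)

/-- restriction to a connected component -/
def T_SUB : Prop := ∀ (n : ℕ) (X : Type) [TopologicalSpace X] [T2Space X] [CompactSpace X]
  (ι : Type) [Fintype ι] (A : Atl n X ι) (x₀ : X),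
  ∃ (X' : Type) (_ : TopologicalSpace X') (_ : T2Space X') (_ : CompactSpace X')
    (_ : ConnectedSpace X') (ι' : Type) (_ : Fintype ι') (A' : Atl n X' ι') (j : X' → X)
    (e : ι' → ι), IsOpenEmbedding j ∧ range j = connectedComponent x₀ ∧
      (∀ a, (A'.φ a).source = j ⁻¹' (A.φ (e a)).source) ∧
      (∀ a, ∀ x ∈ (A'.φ a).source, A'.φ a x = A.φ (e a) (j x)) ∧
      ∀ a, ∀ y ∈ Metric.closedBall (0 : V n) 3, j ((A'.φ a).symm y) = (A.φ (e a)).symm y

end Pool.Agent.H95.VG
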