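import Mathlib
import Pool.Agent.H95.VG.Defs5
import Pool.Agent.H95.VG.Targets4

/-!
# VG targets, part 5: meromorphic maps (local theory of the graph)
-/

open MeasureTheory Set Filter Topology
open scoped ENNReal NNReal ContDiff Manifold ComplexConjugate

namespace Pool.Agent.H95.VG

/-! ## D: elementary degree theory for holomorphic maps `ℂᴺ → ℂᴺ` -/

/-- parametric transversality -/
def T_GEN : Prop := ∀ (N m k : ℕ) (U : Set (V N)) (G : V N → V m) (Y : V N → V k), IsOpen U →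
  DifferentiableOn ℂ G U → DifferentiableOn ℂ Y U →
    (∀ w : V k, ∀ᵐ B : Fin N → Fin m ⊕ Fin k → ℂ, Gnr U B G Y w) ∧
    ∀ᵐ B : Fin N → Fin m ⊕ Fin k → ℂ, ∀ᵐ w : V k, Gnr U B G Y w

/-- the number of preimages is constant away from the image of the boundary -/
def T_DEG : Prop := ∀ (N : ℕ) (U : Set (V N)) (H : V N → V N) (P : V N) (r δ : ℝ), 1 ≤ N →
  IsOpen U → 0 < r → 0 < δ → Metric.closedBall P r ⊆ U → DifferentiableOn ℂ H U →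
  (∀ Z ∈ Metric.sphere P r, δ ≤ ‖H Z‖) → ∃ d : ℕ,
    (∀ᵐ w ∂(volume.restrict (Metric.ball (0 : V N) δ)),
      {Z | Z ∈ Metric.ball P r ∧ H Z = w}.encard = d) ∧
    ∀ M : ℝ, (∀ Z ∈ Metric.ball P r, ‖(jac H Z).det‖ ^ 2 ≤ M) →
      (d : ℝ≥0∞) * volume (Metric.ball (0 : V N) δ) ≤ ENNReal.ofReal M * volume (Metric.ball P r)

/-- a zero produces preimages of all small values (minimum principle) -/
def T_MNP : Prop := ∀ (N : ℕ) (U : Set (V N)) (H : V N → V N) (q : V N) (ρ δ : ℝ), 1 ≤ N →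
  IsOpen U → 0 < ρ → 0 < δ → Metric.closedBall q ρ ⊆ U → DifferentiableOn ℂ H U → H q = 0 →
  (∀ Z ∈ Metric.sphere q ρ, δ ≤ ‖H Z‖) →
    (∃ Z ∈ Metric.ball q ρ, ‖H Z‖ < δ ∧ (jac H Z).det ≠ 0) ∧
    ∀ᵐ w ∂(volume.restrict (Metric.ball (0 : V N) δ)), ∃ Z ∈ Metric.ball q ρ, H Z = w

/-- weakly isolated zeros are at most `d` -/
def T_CNT : Prop := ∀ (N : ℕ) (U : Set (V N)) (H : V N → V N) (P : V N) (r δ : ℝ) (d : ℕ)
  (T : Finset (V N)), 1 ≤ N → IsOpen U → 0 < r → 0 < δ → Metric.closedBall P r ⊆ U →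
  DifferentiableOn ℂ H U →
  (∀ᵐ w ∂(volume.restrict (Metric.ball (0 : V N) δ)),
      {Z | Z ∈ Metric.ball P r ∧ H Z = w}.encard = d) →
  (∀ q ∈ T, q ∈ Metric.ball P r ∧ H q = 0 ∧ ∀ ε : ℝ, 0 < ε → ∃ ρ : ℝ, 0 < ρ ∧ ρ < ε ∧
    ∀ Z ∈ Metric.sphere q ρ, H Z ≠ 0) → T.card ≤ d

/-- isolated zeros of the system are weakly isolated zeros of a generic combination -/
def T_ISO : Prop := ∀ (N m k : ℕ) (U : Set (V N)) (G : V N → V m) (Y : V N → V k) (w : V k)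
  (B : Fin N → Fin m ⊕ Fin k → ℂ) (q : V N) (ε₁ : ℝ), 1 ≤ N → IsOpen U → DifferentiableOn ℂ G U →
  DifferentiableOn ℂ Y U → Gnr U B G Y w → q ∈ U → 0 < ε₁ →
  (∀ Z ∈ Metric.ball q ε₁, G Z = 0 → Y Z = w → Z = q) →
    ∀ ε : ℝ, 0 < ε → ∃ ρ : ℝ, 0 < ρ ∧ ρ < ε ∧ Metric.closedBall q ρ ⊆ U ∧
      ∀ Z ∈ Metric.sphere q ρ, HB B G Y w Z ≠ 0

/-- Vandermonde extraction -/
def T_VDM : Prop := ∀ (n : ℕ) (e : Fin (n + 1) → ℝ), Function.Injective e → ∃ C : ℝ, 0 < C ∧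
  ∀ M M' : Matrix (Fin n) (Fin n) ℂ,
    ‖M'.det‖ ^ 2 ≤ C * ∑ i, ‖(M + ((e i : ℝ) : ℂ) • M').det‖ ^ 2

/-! ## M: local finiteness of the graph -/

/-- openness and thinness -/
def T_MOP : Prop := ∀ (n : ℕ) (X : Type) [TopologicalSpace X] [T2Space X] (ι : Type)
  (A : Atl n X ι) (f : V n → X) (I D : Set (V n)), Mro A f I D →
    IsOpen (D \ I) ∧ volume I = 0 ∧
    (∀ a P r, IsOpen (Ug A f I D a P r)) ∧
    ∀ D' : Set (V n), IsOpen D' → D' ⊆ D → Mro A f (I ∩ D') D'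

/-- Jacobians of the maps on the graph -/
def T_JAC : Prop := ∀ (n : ℕ) (F : V n → V n) (z : V n) (P' : V (n + n)) (r : ℝ)
  (l : V (n + n) → V n), DifferentiableAt ℂ F z → DifferentiableOn ℂ l (Metric.ball P' r) →
  Zf F z ∈ Metric.ball P' r → ∀ (Φ) (ε : ℝ),
    DifferentiableAt ℂ (fun x => YY l P' Φ ε (Zf F x)) z ∧
    jac (fun x => YY l P' Φ ε (Zf F x)) z
      = jac (fun x => l (Zf F x)) z + ((ε : ℝ) : ℂ) • jac (mix Φ F) z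

/-- domination of the cofactor fields of `l ∘ Zf F`-type maps by the mixed fields -/
def T_YMX : Prop := ∀ (n : ℕ) (P : V (n + n)) (r r' : ℝ) (l : V (n + n) → V n),
  DifferentiableOn ℂ l (Metric.ball P r) → r' < r → ∃ C : ℝ, 0 ≤ C ∧
  ∀ (F : V n → V n) (z : V n), DifferentiableAt ℂ F z → Zf F z ∈ Metric.closedBall P r' →
  ∀ (Φ) (ε : ℝ), 0 ≤ ε → ε ≤ 1 → ∀ k,
    ‖(jac (fun x => YY l P Φ ε (Zf F x)) z).det‖ ^ 2 ≤ C * Dm F z ∧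
    (∀ i, ‖cf (fun x => YY l P Φ ε (Zf F x)) k z i‖ ^ 2 ≤ C * Dm F z) ∧
    ∀ c : V n → ℝ, DifferentiableAt ℝ c z →
      ge c z (cf (fun x => YY l P Φ ε (Zf F x)) k z) ≤ C * ∑ Ψ, ∑ k', ge c z (cf (mix Ψ F) k' z)

/-- fibre bounds -/
def T_FBR : Prop := ∀ (n : ℕ) (X : Type) [TopologicalSpace X] [T2Space X] (ι : Type)
  (A : Atl n X ι) (f : V n → X) (I D : Set (V n)), 1 ≤ n → Mro A f I D →
  ∀ (a : ι) (P : V (n + n)) (r : ℝ) (m : ℕ) (G : V (n + n) → V m) (l : V (n + n) → V n),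
    LGr A f I D a P r G l → ∃ r' ε₀ δ₁ D₀, FBd A f I D a P r G l r' ε₀ δ₁ D₀

/-- local finiteness of the volume of the graph -/
def T_FVL : Prop := ∀ (n : ℕ) (X : Type) [TopologicalSpace X] [T2Space X] (ι : Type)
  (A : Atl n X ι) (f : V n → X) (I D : Set (V n)), 1 ≤ n → Mro A f I D →
  ∀ (a : ι) (P : V (n + n)) (r : ℝ) (m : ℕ) (G : V (n + n) → V m) (l : V (n + n) → V n),
    LGr A f I D a P r G l → ∀ r' ε₀ δ₁ D₀, FBd A f I D a P r G l r' ε₀ δ₁ D₀ →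
    ∃ ρ : ℝ, 0 < ρ ∧ ρ < r' ∧
      ∫⁻ z in Ug A f I D a P ρ, ENNReal.ofReal (Dm (FF A f a) z) < ⊤

/-- finiteness over compact sets -/
def T_S1M : Prop := ∀ (n : ℕ) (X : Type) [TopologicalSpace X] [T2Space X] (ι : Type)
  (A : Atl n X ι) (f : V n → X) (I D : Set (V n)), 1 ≤ n → Mro A f I D →
  ∀ K ⊆ D, IsCompact K → ∀ a,
    ∫⁻ z in (K \ I) ∩ Cb A f a (5 / 2), ENNReal.ofReal (Dm (FF A f a) z) < ⊤

/-- holomorphic chain rules between spaces of different dimensions -/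
def T_CHG : Prop := ∀ (n N : ℕ) (O : Set (V n)) (Y : V n → V N), IsOpen O →
  DifferentiableOn ℂ Y O → ∀ z ∈ O, ∀ v : V n,
  (∀ q : V N → ℝ, DifferentiableAt ℝ q (Y z) →
    dr (fun x => q (Y x)) z v = dr q (Y z) (fderiv ℂ Y z v)) ∧
  (∀ q : V N → ℝ, ContDiffAt ℝ 2 q (Y z) →
    lev (fun x => q (Y x)) z v = lev q (Y z) (fderiv ℂ Y z v))

/-- Levi forms of functions of `(z, F z)` along the mixed fields are dominated by the minors -/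
def T_LZB : Prop := ∀ (n : ℕ) (Θ : V (n + n) → ℝ), ContDiff ℝ ∞ Θ → HasCompactSupport Θ →
  ∃ C : ℝ, 0 ≤ C ∧ ∀ (O : Set (V n)) (F : V n → V n), IsOpen O → DifferentiableOn ℂ F O →
    ∀ z ∈ O, ∀ Φ k, |lev (fun x => Θ (Zf F x)) z (cf (mix Φ F) k z)| ≤ C * Dm F z

/-- symmetry of the Levi operator along a divergence free holomorphic field -/
def T_LSY : Prop := ∀ (n : ℕ) (O : Set (V n)) (F : V n → V n) (φ g : V n → ℝ), IsOpen O →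
  DifferentiableOn ℂ F O → (∀ z ∈ O, ∑ i, fderiv ℂ (fun x => F x i) z (ek i) = 0) →
  ContDiff ℝ 2 φ → HasCompactSupport φ → tsupport φ ⊆ O → ContDiffOn ℝ 2 g O →
    IntegrableOn (fun z => φ z * lev g z (F z)) O ∧
    IntegrableOn (fun z => g z * lev φ z (F z)) O ∧
    ∫ z in O, φ z * lev g z (F z) = ∫ z in O, g z * lev φ z (F z)

/-- the psh function `log |g|`, `g` holomorphic vector valued -/
def T_LGG : Prop := ∀ (n m : ℕ) (O : Set (V n)) (g : V n → V m), IsOpen O →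
  DifferentiableOn ℂ g O → ContDiffOn ℝ ∞ (fun z => Real.log (nsq (g z)) / 2) (O ∩ {z | g z ≠ 0}) ∧
    ∀ z ∈ O, g z ≠ 0 → ∀ v, 0 ≤ lev (fun z => Real.log (nsq (g z)) / 2) z v

/-- energy of `log |g|` on the graph near `P` -/
def T_LCE : Prop := ∀ (n : ℕ) (X : Type) [TopologicalSpace X] [T2Space X] (ι : Type)
  (A : Atl n X ι) (f : V n → X) (I D : Set (V n)), 1 ≤ n → Mro A f I D →
  ∀ (a : ι) (z₀ y₀ : V n) (ρ ρ' : ℝ) (m : ℕ) (g : V n → V m) (c₀ : ℝ), 0 < ρ' → ρ' < ρ → ρ ≤ 1 / 4 →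
    Metric.ball z₀ ρ ⊆ D → y₀ ∈ Metric.closedBall (0 : V n) (5 / 2) →
    DifferentiableOn ℂ g (Metric.ball z₀ ρ) → (∀ z ∈ Metric.ball z₀ ρ, (z ∈ I ↔ g z = 0)) →
    (∀ z ∈ Metric.ball z₀ ρ \ I, Real.log (nsq (g z)) / 2 ≤ c₀) →
    ∫⁻ z in Ug A f I D a (Fin.append z₀ y₀) ρ, ENNReal.ofReal (Dm (FF A f a) z) < ⊤ →
    ∃ C : ℝ, ∀ t : ℝ, 1 ≤ t → ∀ Φ k,
      ∫⁻ z in Ug A f I D a (Fin.append z₀ y₀) ρ' ∩ {z | -2 * t ≤ Real.log (nsq (g z)) / 2 - c₀},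
        ENNReal.ofReal (ge (fun z => Real.log (nsq (g z)) / 2) z (cf (mix Φ (FF A f a)) k z))
          ≤ ENNReal.ofReal (C * t ^ 2)

/-- local cutoffs -/
def T_CUI : Prop := ∀ (n : ℕ) (X : Type) [TopologicalSpace X] [T2Space X] (ι : Type) [Finite ι]
  (A : Atl n X ι) (f : V n → X) (I D : Set (V n)), 1 ≤ n → Mro A f I D → ∀ z₀ ∈ D,
  ∃ r : ℝ, 0 < r ∧ Metric.ball z₀ r ⊆ D ∧ ∃ c : ℕ → V n → ℝ,
    (∀ j, ContDiffOn ℝ ∞ (c j) (Metric.ball z₀ r)) ∧ (∀ j z, 0 ≤ c j z ∧ c j z ≤ 1) ∧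
    (∀ j, ∀ z ∈ Metric.ball z₀ r ∩ I, ∀ᶠ z' in 𝓝 z, c j z' = 0) ∧
    (∀ z ∈ Metric.ball z₀ r \ I, Tendsto (fun j => c j z) atTop (𝓝 1)) ∧
    ∀ a Φ k, Tendsto (fun j => ∫⁻ z in (Metric.ball z₀ r \ I) ∩ Cb A f a (5 / 2),
      ENNReal.ofReal (ge (c j) z (cf (mix Φ (FF A f a)) k z))) atTop (𝓝 0)

/-- cutoffs over compact sets -/
def T_S2M : Prop := ∀ (n : ℕ) (X : Type) [TopologicalSpace X] [T2Space X] (ι : Type) [Finite ι]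
  (A : Atl n X ι) (f : V n → X) (I D : Set (V n)), 1 ≤ n → Mro A f I D →
  ∀ K ⊆ D, IsCompact K → ∃ c : ℕ → V n → ℝ, (∀ j, ContDiff ℝ ∞ (c j)) ∧
    (∀ j z, 0 ≤ c j z ∧ c j z ≤ 1) ∧
    (∀ j, ∀ z ∈ K ∩ I, ∀ᶠ z' in 𝓝 z, c j z' = 0) ∧
    (∀ z ∈ K \ I, Tendsto (fun j => c j z) atTop (𝓝 1)) ∧
    ∀ a Φ k, Tendsto (fun j => ∫⁻ z in (K \ I) ∩ Cb A f a (5 / 2),
      ENNReal.ofReal (ge (c j) z (cf (mix Φ (FF A f a)) k z))) atTop (𝓝 0)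

/-- first order identity across `I` for the projections near `P` -/
def T_YFO : Prop := ∀ (n : ℕ) (X : Type) [TopologicalSpace X] [T2Space X] (ι : Type) [Finite ι]
  (A : Atl n X ι) (f : V n → X) (I D : Set (V n)), 1 ≤ n → Mro A f I D →
  ∀ (a : ι) (z₀ y₀ : V n) (r : ℝ) (m : ℕ) (G : V (n + n) → V m) (l : V (n + n) → V n),
    y₀ ∈ Metric.closedBall (0 : V n) 2 → LGr A f I D a (Fin.append z₀ y₀) r G l →
    ∀ (r' r'' ε : ℝ) (Φ) (k : Fin n) (g b : V n → ℂ), r' < r → r'' < r' → 0 ≤ ε → ε ≤ 1 →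
      ContDiffOn ℝ 1 g (Ug A f I D a (Fin.append z₀ y₀) r') →
      (∀ z ∈ Ug A f I D a (Fin.append z₀ y₀) r', g z ≠ 0 →
        Zf (FF A f a) z ∈ Metric.closedBall (Fin.append z₀ y₀) r'') →
      (∃ C : ℝ, ∀ z ∈ Ug A f I D a (Fin.append z₀ y₀) r', ‖g z‖ ≤ C) →
      DifferentiableOn ℂ b (Ug A f I D a (Fin.append z₀ y₀) r') →
      ∫⁻ z in Ug A f I D a (Fin.append z₀ y₀) r' ∩
        {z | Zf (FF A f a) z ∈ Metric.closedBall (Fin.append z₀ y₀) r''},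
        ENNReal.ofReal (‖b z‖ ^ 2) < ⊤ →
      IntegrableOn (fun z => b z * dzb g z
        (cf (fun x => YY l (Fin.append z₀ y₀) Φ ε (Zf (FF A f a) x)) k z))
        (Ug A f I D a (Fin.append z₀ y₀) r') →
      ∫ z in Ug A f I D a (Fin.append z₀ y₀) r', b z * dzb g z
        (cf (fun x => YY l (Fin.append z₀ y₀) Φ ε (Zf (FF A f a) x)) k z) = 0

/-- fibre counts of unions of components are constant -/
def T_LCC : Prop := ∀ (n : ℕ) (X : Type) [TopologicalSpace X] [T2Space X] (ι : Type) [Finite ι]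
  (A : Atl n X ι) (f : V n → X) (I D : Set (V n)), 1 ≤ n → Mro A f I D →
  ∀ (a : ι) (z₀ y₀ : V n) (r : ℝ) (m : ℕ) (G : V (n + n) → V m) (l : V (n + n) → V n),
    y₀ ∈ Metric.closedBall (0 : V n) 2 → LGr A f I D a (Fin.append z₀ y₀) r G l →
    ∀ (r' ε₀ δ₁ : ℝ) (D₀ : ℕ), FBd A f I D a (Fin.append z₀ y₀) r G l r' ε₀ δ₁ D₀ →
    ∀ (σ : V n → ℝ) (s : ℝ) (Φ) (j : ℕ), ej j ≤ ε₀ →
      (∀ z ∈ Ug A f I D a (Fin.append z₀ y₀) r', ∀ᶠ z' in 𝓝 z, σ z' = σ z) →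
      ∃ N : ℕ, ∀ᵐ w ∂(volume.restrict (Metric.ball (0 : V n) δ₁)),
        {z | z ∈ Ug A f I D a (Fin.append z₀ y₀) r' ∧ σ z = s ∧
          YY l (Fin.append z₀ y₀) Φ (ej j) (Zf (FF A f a) z) = w}.encard = N

/-- finitely many components near `P` -/
def T_FCC : Prop := ∀ (n : ℕ) (X : Type) [TopologicalSpace X] [T2Space X] (ι : Type) [Finite ι]
  (A : Atl n X ι) (f : V n → X) (I D : Set (V n)), 1 ≤ n → Mro A f I D →
  ∀ (a : ι) (z₀ y₀ : V n) (r : ℝ) (m : ℕ) (G : V (n + n) → V m) (l : V (n + n) → V n),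
    y₀ ∈ Metric.closedBall (0 : V n) 2 → LGr A f I D a (Fin.append z₀ y₀) r G l →
    ∀ (r' ε₀ δ₁ : ℝ) (D₀ : ℕ), FBd A f I D a (Fin.append z₀ y₀) r G l r' ε₀ δ₁ D₀ →
    ∃ ρ : ℝ, 0 < ρ ∧ ρ < r' ∧ ∀ σ : V n → ℝ,
      (∀ z ∈ Ug A f I D a (Fin.append z₀ y₀) r', ∀ᶠ z' in 𝓝 z, σ z' = σ z) →
      (σ '' Ug A f I D a (Fin.append z₀ y₀) ρ).encard ≤ D₀

/-- boundedness of primitives -/
def T_S3M : Prop := ∀ (n : ℕ) (X : Type) [TopologicalSpace X] [T2Space X] [CompactSpace X]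
  (ι : Type) [Finite ι] (A : Atl n X ι) (f : V n → X) (I : Set (V n)), 1 ≤ n →
  Mro A f I (Dp n) → ∀ h η, Clo A h → Eta A f I h η → ∀ K ⊆ Dp n, IsCompact K →
    ∃ C : ℝ, ∀ z ∈ K \ I, |η z| ≤ C

/-- L¹ bound for weakly subharmonic functions bounded above -/
def T_SBM : Prop := ∀ n : ℕ, 1 ≤ n → ∃ c C : ℝ, 0 < c ∧ c < 1 ∧ 0 < C ∧
  ∀ (R M : ℝ) (g : V n → ℝ) (S : Set (V n)), 0 < R → 0 ≤ M →
    IntegrableOn g (Metric.ball (0 : V n) R) →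
    (∀ p : V n → ℝ, ContDiff ℝ ∞ p → HasCompactSupport p → tsupport p ⊆ Metric.ball (0 : V n) R →
      (∀ y, 0 ≤ p y) → 0 ≤ ∫ y in Metric.ball (0 : V n) R, g y * ∑ k, lev p y (ek k)) →
    (∀ᵐ y ∂(volume.restrict (Metric.ball (0 : V n) R)), g y ≤ M) →
    S ⊆ Metric.ball (0 : V n) (c * R) → volume S ≠ 0 → (∀ y ∈ S, -M ≤ g y) →
    ∫ y in Metric.ball (0 : V n) (c * R), |g y| ≤ C * R ^ (2 * n) * M

/-- weak subharmonicity of sums over the fibres -/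
def T_LSB : Prop := ∀ (n : ℕ) (X : Type) [TopologicalSpace X] [T2Space X] (ι : Type) [Finite ι]
  (A : Atl n X ι) (f : V n → X) (I D : Set (V n)), 1 ≤ n → Mro A f I D →
  ∀ (a : ι) (z₀ y₀ : V n) (r : ℝ) (m : ℕ) (G : V (n + n) → V m) (l : V (n + n) → V n),
    y₀ ∈ Metric.closedBall (0 : V n) 2 → LGr A f I D a (Fin.append z₀ y₀) r G l →
    ∀ (r' ε₀ δ₁ : ℝ) (D₀ : ℕ), FBd A f I D a (Fin.append z₀ y₀) r G l r' ε₀ δ₁ D₀ →
    ∀ (Φ) (j : ℕ), ej j ≤ ε₀ → ∀ g : V n → ℝ, ContDiff ℝ ∞ g → (∀ z v, 0 ≤ lev g z v) →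
      ∃ u : V n → ℝ, IntegrableOn u (Metric.ball (0 : V n) δ₁) ∧
        (∀ᵐ w ∂(volume.restrict (Metric.ball (0 : V n) δ₁)),
          {z | z ∈ Ug A f I D a (Fin.append z₀ y₀) r' ∧
            YY l (Fin.append z₀ y₀) Φ (ej j) (Zf (FF A f a) z) = w}.Finite ∧
          u w = ∑ᶠ z ∈ {z | z ∈ Ug A f I D a (Fin.append z₀ y₀) r' ∧
            YY l (Fin.append z₀ y₀) Φ (ej j) (Zf (FF A f a) z) = w}, g z) ∧
        ∀ p : V n → ℝ, ContDiff ℝ ∞ p → HasCompactSupport p →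
          tsupport p ⊆ Metric.ball (0 : V n) δ₁ → (∀ y, 0 ≤ p y) →
          0 ≤ ∫ y in Metric.ball (0 : V n) δ₁, u y * ∑ k, lev p y (ek k)

/-- logarithms of polynomials near `P` -/
def T_OUT : Prop := ∀ (n : ℕ) (X : Type) [TopologicalSpace X] [T2Space X] (ι : Type) [Finite ι]
  (A : Atl n X ι) (f : V n → X) (I : Set (V n)), 1 ≤ n → Mro A f I (Dp n) →
  ∀ (a : ι) (z₀ y₀ : V n) (r : ℝ) (m : ℕ) (G : V (n + n) → V m) (l : V (n + n) → V n),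
    y₀ ∈ Metric.closedBall (0 : V n) 2 → LGr A f I (Dp n) a (Fin.append z₀ y₀) r G l →
    ∀ (r' ε₀ δ₁ : ℝ) (D₀ : ℕ), FBd A f I (Dp n) a (Fin.append z₀ y₀) r G l r' ε₀ δ₁ D₀ →
    ∃ ρ C : ℝ, 0 < ρ ∧ ρ < r' ∧ ∀ (d : ℕ) (P : MvPolynomial (Fin n) ℂ) (δ : ℝ),
      1 ≤ d → P.totalDegree ≤ d → Nrm P → 0 < δ → δ ≤ 1 →
      ∫⁻ z in Ug A f I (Dp n) a (Fin.append z₀ y₀) ρ,
        ENNReal.ofReal (|lgd P δ z| * Dm (FF A f a) z) ≤ ENNReal.ofReal (C * d)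

/-- logarithms of polynomials over compact sets -/
def T_S4M : Prop := ∀ (n : ℕ) (X : Type) [TopologicalSpace X] [T2Space X] (ι : Type) [Finite ι]
  (A : Atl n X ι) (f : V n → X) (I : Set (V n)), 1 ≤ n → Mro A f I (Dp n) →
  ∀ K ⊆ Dp n, IsCompact K → ∃ C : ℝ, ∀ (d : ℕ) (P : MvPolynomial (Fin n) ℂ) (δ : ℝ),
    1 ≤ d → P.totalDegree ≤ d → Nrm P → 0 < δ → δ ≤ 1 → ∀ a,
      ∫⁻ z in (K \ I) ∩ Cb A f a 2, ENNReal.ofReal (|lgd P δ z| * Dm (FF A f a) z)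
        ≤ ENNReal.ofReal (C * d)

/-- meromorphic maps have mild singularities -/
def T_MRO : Prop := ∀ (n : ℕ) (X : Type) [TopologicalSpace X] [T2Space X] [CompactSpace X]
  (ι : Type) [Finite ι] (A : Atl n X ι) (f : V n → X) (I : Set (V n)), 2 ≤ n →
  Mro A f I (Dp n) → Sing A f I

/-- from the manifold formulation to the bare hands formulation -/
def T_MRI : Prop := ∀ (n : ℕ) (X : Type) [TopologicalSpace X] [T2Space X] [CompactSpace X]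
  [ChartedSpace (Fin n → ℂ) X] [IsManifold 𝓘(ℂ, Fin n → ℂ) 1 X] (ι : Type) (A : Atl n X ι)
  (D I : Set (V n)) (Γ : Set (V n × X)) (f : V n → X), Cpt A → IsMero D I Γ f → Mro A f I D

/-- restriction to a component -/
def T_MRC : Prop := ∀ (n : ℕ) (X X' : Type) [TopologicalSpace X] [T2Space X]
  [TopologicalSpace X'] [T2Space X'] (ι ι' : Type) (A : Atl n X ι) (A' : Atl n X' ι')
  (j : X' → X) (e : ι' → ι) (f : V n → X) (f' : V n → X') (I D : Set (V n)),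
  IsOpenEmbedding j → (∀ a, (A'.φ a).source = j ⁻¹' (A.φ (e a)).source) →
  (∀ a, ∀ x ∈ (A'.φ a).source, A'.φ a x = A.φ (e a) (j x)) → (∀ z ∈ D \ I, j (f' z) = f z) →
  Mro A f I D → Mro A' f' I D

end Pool.Agent.H95.VG
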