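import Mathlib
import Pool.Agent.H95.VG.Defs

/-!
# VG targets, part 2: Gauduchon weights, and the case of flux zero
-/

open MeasureTheory Set Filter Topology
open scoped ENNReal NNReal ContDiff ComplexConjugate

namespace Pool.Agent.H95.VG

/-! ## G: existence of Gauduchon weights -/

/-- a radial averaging kernel `κ` and its primitive kernel `Kp`, with the representation formula -/
structure Ker (n : ℕ) (κ Kp : V n → ℝ) : Prop where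
  smooth : ContDiff ℝ ∞ κ ∧ ContDiff ℝ ∞ Kp
  pos : ∀ y, nsq y < 1 → 0 < κ y ∧ 0 < Kp y
  zero : ∀ y, 1 ≤ nsq y → κ y = 0 ∧ Kp y = 0
  rot : ∀ (c : ℂ) (y : V n), ‖c‖ = 1 → κ (c • y) = κ y ∧ Kp (c • y) = Kp y
  one : ∫ y, κ y = 1
  /-- `∫ κ(ζ) (g(y+Rζ) - g(y+rζ)) dζ = 4 ∫_r^R s ∫ Kp(ζ) (∑ lev g)(y+sζ) dζ ds` -/
  rep : ∀ (g : V n → ℝ) (y : V n) (r R : ℝ) (O : Set (V n)), IsOpen O → 0 ≤ r → r ≤ R →
    Metric.closedBall y R ⊆ O → ContDiffOn ℝ 2 g O →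
    ∫ ζ, κ ζ * (g (y + R • ζ) - g (y + r • ζ))
      = 4 * ∫ s in r..R, s * ∫ ζ, Kp ζ * ∑ k, lev g (y + s • ζ) (ek k)

def T_KER : Prop := ∀ n : ℕ, 1 ≤ n → ∃ κ Kp : V n → ℝ, Ker n κ Kp

/-- smooth partition of unity subordinate to the atlas -/
structure PU {n : ℕ} {X : Type} [TopologicalSpace X] {ι : Type} [Fintype ι] (A : Atl n X ι)
    (ρ : ι → X → ℝ) : Prop where
  cont : ∀ a, Continuous (ρ a)
  nonneg : ∀ a x, 0 ≤ ρ a x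
  sum : ∀ x, ∑ a, ρ a x = 1
  supp : ∀ a x, ρ a x ≠ 0 → x ∈ (A.φ a).source ∧ A.φ a x ∈ Metric.closedBall (0 : V n) (5 / 4)
  pos : ∀ a, ∀ x ∈ (A.φ a).source, A.φ a x ∈ Metric.closedBall (0 : V n) 1 → 0 < ρ a x
  smooth : ∀ a b, ContDiffOn ℝ ∞ (fun y => ρ a ((A.φ b).symm y)) (A.φ b).target

def T_PU : Prop := ∀ (n : ℕ) (X : Type) [TopologicalSpace X] [T2Space X] [CompactSpace X]
  (ι : Type) [Fintype ι] (A : Atl n X ι), ∃ ρ, PU A ρ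

/-- one step average of `g` starting at `x` -/
noncomputable def stp {n : ℕ} {X : Type} [TopologicalSpace X] {ι : Type} [Fintype ι]
    (A : Atl n X ι) (ρ : ι → X → ℝ) (κ : V n → ℝ) (g : X → ℝ) (x : X) : ℝ :=
  ∑ a, ρ a x * ∫ ζ, κ ζ * g ((A.φ a).symm (A.φ a x + (1 / 4 : ℝ) • ζ))

/-- stationary probability measure -/
def T_STM : Prop := ∀ (n : ℕ) (X : Type) [TopologicalSpace X] [T2Space X] [CompactSpace X]
  [Nonempty X] [MeasurableSpace X] [BorelSpace X] (ι : Type) [Fintype ι] (A : Atl n X ι)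
  (ρ : ι → X → ℝ) (κ Kp : V n → ℝ), PU A ρ → Ker n κ Kp →
    (∀ g : X → ℝ, Continuous g → Continuous (stp A ρ κ g)) ∧
    ∃ ν : Measure X, IsProbabilityMeasure ν ∧ ∀ g : X → ℝ, Continuous g →
      ∫ x, stp A ρ κ g x ∂ν = ∫ x, g x ∂ν

/-- a stationary measure has smooth positive densities -/
def T_SDN : Prop := ∀ (n : ℕ) (X : Type) [TopologicalSpace X] [T2Space X] [CompactSpace X]
  [ConnectedSpace X] [MeasurableSpace X] [BorelSpace X] (ι : Type) [Fintype ι] (A : Atl n X ι)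
  (ρ : ι → X → ℝ) (κ Kp : V n → ℝ) (ν : Measure X), 1 ≤ n → PU A ρ → Ker n κ Kp →
    IsProbabilityMeasure ν →
    (∀ g : X → ℝ, Continuous g → ∫ x, stp A ρ κ g x ∂ν = ∫ x, g x ∂ν) →
    ∃ v : ι → V n → ℝ, (∀ a, ContDiff ℝ ∞ (v a)) ∧ (∀ a y, 0 ≤ v a y) ∧
      (∀ a y, v a y ≠ 0 → y ∈ Metric.closedBall (0 : V n) (5 / 4)) ∧
      (∀ a, ∀ y ∈ Metric.closedBall (0 : V n) 1, 0 < v a y) ∧
      ∀ g : X → ℝ, Continuous g → ∀ a,
        ∫ x, ρ a x * g x ∂ν = ∫ y, v a y * g ((A.φ a).symm y)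

/-- the weak form of the Gauduchon identity, from the densities -/
def T_GW1 : Prop := ∀ (n : ℕ) (X : Type) [TopologicalSpace X] [T2Space X] [CompactSpace X]
  [MeasurableSpace X] [BorelSpace X] (ι : Type) [Fintype ι] (A : Atl n X ι)
  (ρ : ι → X → ℝ) (κ Kp : V n → ℝ) (ν : Measure X) (v : ι → V n → ℝ), 1 ≤ n → PU A ρ →
    Ker n κ Kp → IsProbabilityMeasure ν →
    (∀ g : X → ℝ, Continuous g → ∫ x, stp A ρ κ g x ∂ν = ∫ x, g x ∂ν) →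
    (∀ a, ContDiff ℝ ∞ (v a)) → (∀ a y, 0 ≤ v a y) →
    (∀ a y, v a y ≠ 0 → y ∈ Metric.closedBall (0 : V n) (5 / 4)) →
    (∀ a, ∀ y ∈ Metric.closedBall (0 : V n) 1, 0 < v a y) →
    (∀ g : X → ℝ, Continuous g → ∀ a,
        ∫ x, ρ a x * g x ∂ν = ∫ y, v a y * g ((A.φ a).symm y)) →
    ∃ w : ι → V n → ℝ, (∀ a, ContDiff ℝ ∞ (w a)) ∧ (∀ a y, 0 ≤ w a y) ∧
      (∀ a y, w a y ≠ 0 → y ∈ Metric.closedBall (0 : V n) (3 / 2)) ∧
      (∀ a, ∀ y ∈ Metric.closedBall (0 : V n) 1, 0 < w a y) ∧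
      ∀ g : X → ℝ, (∀ a, ContDiffOn ℝ ∞ (fun y => g ((A.φ a).symm y)) (A.φ a).target) →
        ∑ a, ∫ y, w a y * ∑ k, lev (fun y => g ((A.φ a).symm y)) y (ek k) = 0

/-- from the weak to the pointwise identity -/
def T_GW2 : Prop := ∀ (n : ℕ) (X : Type) [TopologicalSpace X] [T2Space X] [CompactSpace X]
  (ι : Type) [Fintype ι] (A : Atl n X ι) (w : ι → V n → ℝ),
    (∀ a, ContDiff ℝ ∞ (w a)) → (∀ a y, 0 ≤ w a y) →
    (∀ a y, w a y ≠ 0 → y ∈ Metric.closedBall (0 : V n) (3 / 2)) →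
    (∀ a, ∀ y ∈ Metric.closedBall (0 : V n) 1, 0 < w a y) →
    (∀ g : X → ℝ, (∀ a, ContDiffOn ℝ ∞ (fun y => g ((A.φ a).symm y)) (A.φ a).target) →
        ∑ a, ∫ y, w a y * ∑ k, lev (fun y => g ((A.φ a).symm y)) y (ek k) = 0) → Gau A w

/-- existence of Gauduchon weights -/
def T_GAU : Prop := ∀ (n : ℕ) (X : Type) [TopologicalSpace X] [T2Space X] [CompactSpace X]
  [ConnectedSpace X] (ι : Type) [Fintype ι] (A : Atl n X ι), 1 ≤ n →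
    ∃ w : ι → V n → ℝ, Gau A w

/-! ## P: polynomials -/

/-- growth of polynomials -/
def T_GRW : Prop := ∀ (n d : ℕ) (P : MvPolynomial (Fin n) ℂ), P.totalDegree ≤ d →
  (∀ z : V n, nsq z ≤ 1 → ‖MvPolynomial.eval z P‖ ≤ 1) →
    ∀ z : V n, 1 ≤ nsq z → ‖MvPolynomial.eval z P‖ ≤ Real.sqrt (nsq z) ^ d

/-- `lgd` is smooth and plurisubharmonic -/
def T_LGP : Prop := ∀ (n : ℕ) (P : MvPolynomial (Fin n) ℂ) (δ : ℝ), 0 < δ →
  ContDiff ℝ ∞ (lgd P δ) ∧ ∀ z v : V n, 0 ≤ lev (lgd P δ) z v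

/-- integrals of `lgd` over the unit ball -/
def T_LGI : Prop := ∀ n : ℕ, 1 ≤ n → ∃ C : ℝ, ∀ (d : ℕ) (P : MvPolynomial (Fin n) ℂ) (δ : ℝ),
  1 ≤ d → P.totalDegree ≤ d → Nrm P → 0 < δ → δ ≤ 1 →
    ∫⁻ z in {z : V n | nsq z ≤ 1}, ENNReal.ofReal |lgd P δ z| ≤ ENNReal.ofReal (C * d) ∧
    ∀ z : V n, nsq z ≤ 16 → lgd P δ z ≤ C * d

/-- polynomials vanishing at given points (Siegel's lemma), normalised -/
def T_SGL : Prop := ∀ (n d : ℕ) (S : Finset (V n)), 1 ≤ n → S.card < (d + 1) ^ n →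
  ∃ P : MvPolynomial (Fin n) ℂ, P.totalDegree ≤ n * d ∧ Nrm P ∧ ∀ z ∈ S, MvPolynomial.eval z P = 0

/-- quantitative Jensen inequality at a zero -/
def T_JEN : Prop := ∀ n : ℕ, 1 ≤ n → ∃ c : ℝ, 0 < c ∧ ∀ (y : V n) (ρ R : ℝ) (q : V n → ℂ),
  0 < ρ → 2 * ρ < R → DifferentiableOn ℂ q (Metric.ball y R) → q y = 0 →
  (∃ x ∈ Metric.ball y R, q x ≠ 0) → ∃ δ₀ : ℝ, 0 < δ₀ ∧ ∀ δ : ℝ, 0 < δ → δ < δ₀ →
    c * ρ ^ (2 * n - 2) ≤ ∫ x in Metric.ball y (2 * ρ),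
      ∑ k, lev (fun x => Real.log (‖q x‖ ^ 2 + δ ^ 2) / 2) x (ek k)

/-- a family of local inverses of `F` over polydiscs of radius `3 ρ` centred at points of the
closed unit polydisc, with disjoint images of the polydiscs of radius `2 ρ` -/
def Sheets {n : ℕ} (O : Set (V n)) (F : V n → V n) (ρ : ℝ) (S : Finset (V n))
    (G : V n → V n → V n) : Prop :=
  (∀ s ∈ S, s ∈ O ∧ F s ∈ Metric.closedBall 0 1 ∧
    DifferentiableOn ℂ (G s) (Metric.ball (F s) (3 * ρ)) ∧ G s (F s) = s ∧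
    ∀ x ∈ Metric.ball (F s) (3 * ρ), G s x ∈ O ∧ F (G s x) = x) ∧
  ∀ s ∈ S, ∀ s' ∈ S, s ≠ s' → Disjoint (G s '' Metric.ball (F s) (2 * ρ))
    (G s' '' Metric.ball (F s') (2 * ρ))

/-- number of sheets in the case of flux zero -/
def T_SHE : Prop := ∀ (n : ℕ) (X : Type) [TopologicalSpace X] [T2Space X] [CompactSpace X]
  (ι : Type) [Fintype ι]
  (A : Atl n X ι) (w : ι → V n → ℝ) (f : V n → X) (I : Set (V n)), Gau A w → Sing A f I →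
  flux A w f I = 0 → ∀ a, ∃ C ρ₀ : ℝ, 0 < ρ₀ ∧ ∀ (ρ : ℝ) (S : Finset (V n)) (G : V n → V n → V n),
    0 < ρ → ρ ≤ ρ₀ → Sheets {z ∈ Oa A f I a | nsq z < 1 / 4} (FF A f a) ρ S G →
      (S.card : ℝ) * ρ ^ (2 * n) ≤ C

/-- from the number of sheets to the volume, by averaging over grids -/
def T_GRI : Prop := ∀ (n : ℕ) (O : Set (V n)) (F : V n → V n) (C ρ₀ : ℝ), IsOpen O →
  DifferentiableOn ℂ F O → 0 < ρ₀ → (∀ (ρ : ℝ) (S : Finset (V n)) (G : V n → V n → V n),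
    0 < ρ → ρ ≤ ρ₀ → Sheets O F ρ S G → (S.card : ℝ) * ρ ^ (2 * n) ≤ C) →
  ∫⁻ z in {z ∈ O | F z ∈ Metric.closedBall 0 1}, ENNReal.ofReal (‖(jac F z).det‖ ^ 2)
    ≤ ENNReal.ofReal (8 ^ (2 * n) * C)

/-- finite volume in the case of flux zero -/
def T_C0 : Prop := ∀ (n : ℕ) (X : Type) [TopologicalSpace X] [T2Space X] [CompactSpace X]
  (ι : Type) [Fintype ι]
  (A : Atl n X ι) (w : ι → V n → ℝ) (f : V n → X) (I : Set (V n)), Gau A w → Sing A f I →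
  flux A w f I = 0 →
    ∫⁻ z in (Dp n \ I) ∩ {z | nsq z < 1 / 4}, ENNReal.ofReal (PB A f w z) < ⊤

end Pool.Agent.H95.VG
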