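import Pool.Agent.H95.VG.Targets1
import Pool.Agent.H95.VG.Targets2
import Pool.Agent.H95.VG.Targets3

open MeasureTheory Set Filter Topology
open scoped ENNReal NNReal ContDiff ComplexConjugate

namespace Pool.Agent.H95.VG

theorem core (h1 : T_FLX) (h2 : T_DIC) (h3 : T_C0) (h4 : T_CPO) : T_CORE := by
  intro n X _ _ _ _ ι _ A w f I hw hS
  rcases h2 n X ι A w f I hw hS with h | h
  · refine ⟨0, fun t _ => ?_⟩
    rw [setLIntegral_congr_fun_ae (g := fun _ => 0)]
    · simp
    · have ho := hS.opn
      have : MeasurableSet ((Dp n \ I) ∩ {z : V n | nsq z < 1 / 4 ∧ -t ≤ lu z}) := by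
        refine ho.measurableSet.inter ?_
        have hm : Measurable (nsq (n := n)) := by
          unfold nsq; fun_prop
        have hl : Measurable (lu (n := n)) := by
          unfold lu; exact (hm.log).div_const 2
        exact (measurableSet_lt hm measurable_const).inter (measurableSet_le measurable_const hl)
      exact this
    · exact Eventually.of_forall (fun z hz => by simp [h z hz.1])
  · rcases (h1 n X ι A w f I hw hS).1.eq_or_lt with h0 | h0
    · have hfin := h3 n X ι A w f I hw hS h0.symm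
      refine ⟨(∫⁻ z in (Dp n \ I) ∩ {z | nsq z < 1 / 4}, ENNReal.ofReal (PB A f w z)).toReal,
        fun t ht => ?_⟩
      calc ∫⁻ z in (Dp n \ I) ∩ {z | nsq z < 1 / 4 ∧ -t ≤ lu z}, ENNReal.ofReal (PB A f w z)
          ≤ ∫⁻ z in (Dp n \ I) ∩ {z | nsq z < 1 / 4}, ENNReal.ofReal (PB A f w z) :=
            lintegral_mono_set (fun z hz => ⟨hz.1, hz.2.1⟩)
        _ = ENNReal.ofReal (∫⁻ z in (Dp n \ I) ∩ {z | nsq z < 1 / 4},
              ENNReal.ofReal (PB A f w z)).toReal := (ENNReal.ofReal_toReal hfin.ne).symm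
        _ ≤ _ := by
            apply ENNReal.ofReal_le_ofReal
            nlinarith [ENNReal.toReal_nonneg (a := ∫⁻ z in (Dp n \ I) ∩ {z | nsq z < 1 / 4},
              ENNReal.ofReal (PB A f w z))]
    · exact h4 n X ι A w f I hw hS h0 h

end Pool.Agent.H95.VG
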