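import Pool.Agent.H95.VG.Targets1
import Pool.Agent.H95.VG.Targets3

open MeasureTheory Set Filter Topology
open scoped ENNReal NNReal ContDiff ComplexConjugate

namespace Pool.Agent.H95.VG

open Classical in
theorem lint_bi {α β : Type} [MeasurableSpace α] (μ : Measure α) (s : Finset β) (t : β → Set α)
    (f : α → ℝ≥0∞) : ∫⁻ x in ⋃ j ∈ s, t j, f x ∂μ ≤ ∑ j ∈ s, ∫⁻ x in t j, f x ∂μ := by
  induction s using Finset.induction_on with
  | empty => simp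
  | insert a s ha ih =>
    rw [Finset.set_biUnion_insert, Finset.sum_insert ha]
    exact (lintegral_union_le f (t a) _).trans (add_le_add le_rfl ih)

theorem cpo (h1 : T_VEX) (h2 : T_ETE) (h3 : T_CLA) (h4 : T_LOG) : T_CPO := by
  intro n X _ _ _ _ ι _ A w f I hw hS hfl hnd
  obtain ⟨h, hC, hk⟩ := h1 n X ι A w f I hw hS
  obtain ⟨η, hη⟩ := h2 n X ι A f I h hS hC
  have hk' : kap w h < 0 := by rw [hk]; linarith
  have hW := h3 n X ι A w f I h η hw hS hC hη hk'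
  obtain ⟨C₁, hC₁⟩ := h4 n X ι A w f I h η hw hS hC hη hk' hfl hW hnd
  obtain ⟨C₂, hC₂⟩ := hW
  set K₁ : ℝ := max C₁ 0 with hK₁
  set K₂ : ℝ := max C₂ 0 with hK₂
  have hK₁0 : 0 ≤ K₁ := le_max_right _ _
  have hK₂0 : 0 ≤ K₂ := le_max_right _ _
  refine ⟨(4 * K₁ + 3) * K₂, fun t ht => ?_⟩
  set M : ℕ := ⌈K₁ * (1 + t)⌉₊ with hM
  have hM1 : K₁ * (1 + t) ≤ M := Nat.le_ceil _
  have hM2 : (M : ℝ) < K₁ * (1 + t) + 1 := Nat.ceil_lt_add_one (by positivity)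
  have hsub : (Dp n \ I) ∩ {z : V n | nsq z < 1 / 4 ∧ -t ≤ lu z} ⊆
      ⋃ j ∈ Finset.Icc (-(M : ℤ)) (M : ℤ),
        (Dp n \ I) ∩ {z : V n | nsq z ≤ 1 / 2 ∧ |η z - (j : ℝ)| ≤ 1} := by
    intro z hz
    obtain ⟨hz1, hz2, hz3⟩ := hz
    have hzq : z ∈ Dq n I := ⟨hz1, hz2⟩
    have hlu : lu z ≤ 0 := by
      unfold lu
      have : Real.log (nsq z) ≤ 0 := Real.log_nonpos hz1.1.1.le hz1.1.2.le
      linarith
    have habs : |lu z| ≤ t := by rw [abs_of_nonpos hlu]; linarith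
    have hb : |η z| ≤ M := by
      calc |η z| ≤ C₁ * (1 + |lu z|) := hC₁ z hzq
        _ ≤ K₁ * (1 + |lu z|) := by
            apply mul_le_mul_of_nonneg_right (le_max_left _ _)
            positivity
        _ ≤ K₁ * (1 + t) := by
            apply mul_le_mul_of_nonneg_left _ hK₁0
            linarith
        _ ≤ M := hM1
    rw [abs_le] at hb
    refine mem_iUnion₂.2 ⟨⌊η z⌋, ?_, hz1, by linarith, ?_⟩
    · rw [Finset.mem_Icc]
      constructor
      · rw [Int.le_floor]; push_cast; linarith [hb.1]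
      · have : (⌊η z⌋ : ℝ) ≤ M := (Int.floor_le _).trans hb.2
        exact_mod_cast this
    · rw [abs_le]
      constructor <;> linarith [Int.floor_le (η z), Int.lt_floor_add_one (η z)]
  calc ∫⁻ z in (Dp n \ I) ∩ {z | nsq z < 1 / 4 ∧ -t ≤ lu z}, ENNReal.ofReal (PB A f w z)
      ≤ ∫⁻ z in ⋃ j ∈ Finset.Icc (-(M : ℤ)) (M : ℤ),
        (Dp n \ I) ∩ {z : V n | nsq z ≤ 1 / 2 ∧ |η z - (j : ℝ)| ≤ 1},
          ENNReal.ofReal (PB A f w z) := lintegral_mono_set hsub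
    _ ≤ ∑ j ∈ Finset.Icc (-(M : ℤ)) (M : ℤ),
        ∫⁻ z in (Dp n \ I) ∩ {z : V n | nsq z ≤ 1 / 2 ∧ |η z - (j : ℝ)| ≤ 1},
          ENNReal.ofReal (PB A f w z) := by
        exact lint_bi volume (Finset.Icc (-(M : ℤ)) (M : ℤ))
          (fun j : ℤ => (Dp n \ I) ∩ {z : V n | nsq z ≤ 1 / 2 ∧ |η z - (j : ℝ)| ≤ 1})
          (fun z => ENNReal.ofReal (PB A f w z))
    _ ≤ ∑ j ∈ Finset.Icc (-(M : ℤ)) (M : ℤ), ENNReal.ofReal K₂ :=
        Finset.sum_le_sum (fun j _ => (hC₂ j).trans (ENNReal.ofReal_le_ofReal (le_max_left _ _)))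
    _ = ENNReal.ofReal ((2 * M + 1) * K₂) := by
        rw [Finset.sum_const, Int.card_Icc, nsmul_eq_mul]
        rw [ENNReal.ofReal_mul (by positivity)]
        congr 1
        have : ((M : ℤ) + 1 - -(M : ℤ)).toNat = 2 * M + 1 := by omega
        rw [this]
        rw [show (2 * (M : ℝ) + 1) = ((2 * M + 1 : ℕ) : ℝ) by push_cast; ring]
        rw [ENNReal.ofReal_natCast]
    _ ≤ ENNReal.ofReal ((4 * K₁ + 3) * K₂ * t) := by
        apply ENNReal.ofReal_le_ofReal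
        have : 2 * (M : ℝ) + 1 ≤ (4 * K₁ + 3) * t := by nlinarith
        calc (2 * (M : ℝ) + 1) * K₂ ≤ (4 * K₁ + 3) * t * K₂ :=
              mul_le_mul_of_nonneg_right this hK₂0
          _ = _ := by ring

end Pool.Agent.H95.VG
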