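import Pool.Agent.H95.VG.Targets2

open MeasureTheory Set Filter Topology
open scoped ENNReal NNReal ContDiff ComplexConjugate

namespace Pool.Agent.H95.VG

theorem gau (h1 : T_KER) (h2 : T_PU) (h3 : T_STM) (h4 : T_SDN) (h5 : T_GW1) (h6 : T_GW2) :
    T_GAU := by
  intro n X _ _ _ _ ι _ A hn
  letI : MeasurableSpace X := borel X
  haveI : BorelSpace X := ⟨rfl⟩
  obtain ⟨κ, Kp, hK⟩ := h1 n hn
  obtain ⟨ρ, hρ⟩ := h2 n X ι A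
  obtain ⟨-, ν, hν1, hν2⟩ := h3 n X ι A ρ κ Kp hρ hK
  obtain ⟨v, v1, v2, v3, v4, v5⟩ := h4 n X ι A ρ κ Kp ν hn hρ hK hν1 hν2
  obtain ⟨w, w1, w2, w3, w4, w5⟩ := h5 n X ι A ρ κ Kp ν v hn hρ hK hν1 hν2 v1 v2 v3 v4 v5
  exact ⟨w, h6 n X ι A w w1 w2 w3 w4 w5⟩

end Pool.Agent.H95.VG
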