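import Pool.Agent.H95.VG.HFI
import Pool.Agent.H95.VG.Targets5

open MeasureTheory Set Filter Topology
open scoped ENNReal NNReal ContDiff Manifold ComplexConjugate

namespace Pool.Agent.H95.VG

/-- the meromorphic case -/
theorem mfi (hCNN : T_CNN) (hSUB : T_SUB) (hGAU : T_GAU) (hCORE : T_CORE)
    (hVOD : T_VOD) (hCMP : T_CMP) (hATL : T_ATL) (hDOM : T_DOM) (hMRI : T_MRI) (hMRC : T_MRC)
    (hMRO : T_MRO) (hMOP : T_MOP) (hS1M : T_S1M) : MainStatement := by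
  intro n hn X _ _ _ _ _ g I Γ f hf ρ hρ0 hρ
  obtain ⟨ι, _, A, hA⟩ := hATL n X
  obtain ⟨C₃, hC₃, hvod⟩ := hVOD n X g ι A hA
  have hM : Mro A f I (PDisk n) := hMRI n X ι A (PDisk n) I Γ f hA hf
  obtain ⟨hopen, -, -, hres⟩ := hMOP n X ι A f I (PDisk n) hM
  have hM' : Mro A f (I ∩ Dp n) (Dp n) := hres (Dp n) (isOpen_dp n) (dp_sub_pdisk n)
  have hfa : ∀ z ∈ PDisk n \ I, MDifferentiableAt 𝓘(ℂ, Fin n → ℂ) 𝓘(ℂ, Fin n → ℂ) f z :=
    fun z hz => hf.hol.mdifferentiableAt (hopen.mem_nhds hz)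
  have hfc : ContinuousOn f (PDisk n \ I) := hM.cont
  have hS : Sing A f (I ∩ Dp n) := hMRO n X ι A f (I ∩ Dp n) hn hM'
  have hin := near_origin hCNN hSUB hGAU hCORE hVOD hCMP hn g A hA f (I ∩ Dp n) hS
    (fun z hz => hfa z ⟨dp_sub_pdisk n hz.1, fun h => hz.2 ⟨h, hz.1⟩⟩) (by
      intro X' _ _ _ ι' _ A' j e f' hj hsrc hφ hf'
      exact hMRO n X' ι' A' f' (I ∩ Dp n) hn
        (hMRC n X X' ι ι' A A' j e f f' (I ∩ Dp n) (Dp n) hj hsrc hφ hf' hM'))
  have hDp : Dp n \ (I ∩ Dp n) = Dp n \ I := by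
    ext z
    simp only [Set.mem_sdiff, mem_inter_iff, not_and]
    constructor
    · rintro ⟨h1, h2⟩
      exact ⟨h1, fun h => h2 h h1⟩
    · rintro ⟨h1, h2⟩
      exact ⟨h1, fun h => absurd h h2⟩
  rw [hDp] at hin
  obtain ⟨C₁, hC₁⟩ := hin
  refine fin_lem (volDensity g f) I C₁ hC₁ ρ ?_
  set K : Set (V n) := {z : V n | 1 / 4 ≤ nsq z ∧ ‖z‖ ≤ ρ} with hKdef
  have hK : IsCompact K := isCompact_outer n ρ
  have hKD : K ⊆ PDisk n := outer_sub n ρ hρ
  let W : ι → Set (V n) := fun a => {z | z ∈ PDisk n \ I ∧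
    f z ∈ (A.φ a).source ∩ (A.φ a) ⁻¹' Metric.ball (0 : V n) (3 / 2)}
  have hW : ∀ a, IsOpen (W a) := fun a =>
    hfc.isOpen_inter_preimage hopen ((A.φ a).isOpen_inter_preimage Metric.isOpen_ball)
  have hcov : K \ I ⊆ ⋃ a, K ∩ W a := by
    rintro z ⟨h1, h2⟩
    obtain ⟨a, ha1, ha2⟩ := A.cover (f z)
    exact mem_iUnion.2 ⟨a, h1, ⟨hKD h1, h2⟩, ha1, Metric.ball_subset_ball (by norm_num) ha2⟩
  calc ∫⁻ z in K \ I, ENNReal.ofReal (volDensity g f z)
      ≤ ∫⁻ z in ⋃ a, K ∩ W a, ENNReal.ofReal (volDensity g f z) := lintegral_mono_set hcov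
    _ ≤ ∑' a, ∫⁻ z in K ∩ W a, ENNReal.ofReal (volDensity g f z) := lintegral_iUnion_le _ _
    _ = ∑ a, ∫⁻ z in K ∩ W a, ENNReal.ofReal (volDensity g f z) := tsum_fintype _
    _ < ⊤ := by
        refine ENNReal.sum_lt_top.2 fun a _ => ?_
        have hb : ∫⁻ z in K ∩ W a, ENNReal.ofReal (Dm (FF A f a) z) < ⊤ := by
          refine lt_of_le_of_lt (lintegral_mono_set ?_) (hS1M n X ι A f I (PDisk n) (by omega) hM
            K hKD hK a)
          rintro z ⟨h1, h2, h3, h4⟩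
          refine ⟨⟨h1, h2.2⟩, h3, ?_⟩
          have := mem_ball_zero_iff.1 h4
          exact mem_closedBall_zero_iff.2 (this.le.trans (by norm_num))
        calc ∫⁻ z in K ∩ W a, ENNReal.ofReal (volDensity g f z)
            ≤ ∫⁻ z in K ∩ W a, ENNReal.ofReal C₃ * ENNReal.ofReal (Dm (FF A f a) z) := by
              refine setLIntegral_mono_ae' (hK.measurableSet.inter (hW a).measurableSet)
                (Eventually.of_forall fun z hz => ?_)
              obtain ⟨h1, h2, h3, h4⟩ := hz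
              rw [← ENNReal.ofReal_mul hC₃.le]
              apply ENNReal.ofReal_le_ofReal
              obtain ⟨k1, k2⟩ := hvod f z a (hfa z h2) h3
              have h5 := mem_ball_zero_iff.1 h4
              refine (k2 (mem_closedBall_zero_iff.2 (h5.le.trans (by norm_num)))).trans ?_
              exact mul_le_mul_of_nonneg_left (hDOM n (FF A f a) z k1).2.1 hC₃.le
          _ = ENNReal.ofReal C₃ * ∫⁻ z in K ∩ W a, ENNReal.ofReal (Dm (FF A f a) z) :=
              lintegral_const_mul' _ _ ENNReal.ofReal_ne_top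
          _ < ⊤ := ENNReal.mul_lt_top ENNReal.ofReal_lt_top hb

end Pool.Agent.H95.VG
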