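import Pool.Agent.H15.VG.Adj
import Pool.Agent.H15.VG.Cmp
import Pool.Agent.H15.VG.ConLev
import Pool.Agent.H15.VG.Inv
import Pool.Agent.H15.VG.Lvb
import Pool.Agent.H15.VG.NulSets
import Pool.Agent.H15.VG.Out
import Pool.Agent.H15.VG.Yfo
import Pool.Agent.H17.VG.MRI
import Pool.Agent.H17.VG.S2M
import Pool.Agent.H19.VG.CHG
import Pool.Agent.H19.VG.LZB
import Pool.Agent.H19.VG.MRC
import Pool.Agent.H19.VG.MRO
import Pool.Agent.H2.VG.CNN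
import Pool.Agent.H2.VG.DIC
import Pool.Agent.H2.VG.VOD
import Pool.Agent.H21.VG.FVL
import Pool.Agent.H24.VG.CLA
import Pool.Agent.H24.VG.PFM
import Pool.Agent.H24.VG.RNC
import Pool.Agent.H24.VG.UNQ
import Pool.Agent.H27.VG.FO
import Pool.Agent.H27.VG.PSH
import Pool.Agent.H27.VG.SYM
import Pool.Agent.H30.VG.ABM
import Pool.Agent.H30.VG.C0
import Pool.Agent.H30.VG.CUT
import Pool.Agent.H30.VG.FLX
import Pool.Agent.H30.VG.FOZ
import Pool.Agent.H32.VG.CUI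
import Pool.Agent.H32.VG.FLN
import Pool.Agent.H32.VG.GRW
import Pool.Agent.H32.VG.LOG
import Pool.Agent.H32.VG.OAO
import Pool.Agent.H32.VG.PU
import Pool.Agent.H33.VG.ATL
import Pool.Agent.H33.VG.BY1
import Pool.Agent.H33.VG.CST
import Pool.Agent.H33.VG.INN
import Pool.Agent.H37.VG.FBR
import Pool.Agent.H37.VG.KPV
import Pool.Agent.H39.VG.EQD
import Pool.Agent.H39.VG.LGI
import Pool.Agent.H4.VG.CLH
import Pool.Agent.H41.VG.CHN
import Pool.Agent.H41.VG.CHR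
import Pool.Agent.H41.VG.DEG
import Pool.Agent.H41.VG.GEN
import Pool.Agent.H41.VG.GW2
import Pool.Agent.H41.VG.LCC
import Pool.Agent.H41.VG.LGP
import Pool.Agent.H41.VG.LVX
import Pool.Agent.H41.VG.NSQ
import Pool.Agent.H42.VG.F1
import Pool.Agent.H42.VG.NHA
import Pool.Agent.H48.VG.CNT
import Pool.Agent.H48.VG.ISO
import Pool.Agent.H48.VG.MNP
import Pool.Agent.H48.VG.SBM
import Pool.Agent.H48.VG.VDM
import Pool.Agent.H54.VG.ITR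
import Pool.Agent.H54.VG.JEN
import Pool.Agent.H54.VG.NEW
import Pool.Agent.H54.VG.OCC
import Pool.Agent.H54.VG.SCH
import Pool.Agent.H54.VG.SCW
import Pool.Agent.H54.VG.SGL
import Pool.Agent.H54.VG.UPB
import Pool.Agent.H57.VG.POI
import Pool.Agent.H57.VG.STM
import Pool.Agent.H57.VG.WEY
import Pool.Agent.H62.VG.Gw1
import Pool.Agent.H62.VG.Ker
import Pool.Agent.H62.VG.Sdn2
import Pool.Agent.H65.VG.ARE
import Pool.Agent.H65.VG.GRI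
import Pool.Agent.H65.VG.SMO
import Pool.Agent.H65.VG.WHL
import Pool.Agent.H65.VG.ZER
import Pool.Agent.H67.VG.BTW
import Pool.Agent.H67.VG.ETE
import Pool.Agent.H67.VG.GLU
import Pool.Agent.H67.VG.SUB
import Pool.Agent.H67.VG.WG0
import Pool.Agent.H67.VG.WGC
import Pool.Agent.H67.VG.WGS
import Pool.Agent.H73.VG.IDN
import Pool.Agent.H73.VG.JAC
import Pool.Agent.H73.VG.KBD
import Pool.Agent.H73.VG.LGG
import Pool.Agent.H73.VG.LIN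
import Pool.Agent.H73.VG.LSY
import Pool.Agent.H73.VG.LVM
import Pool.Agent.H73.VG.PIO
import Pool.Agent.H73.VG.PRD
import Pool.Agent.H73.VG.VEX
import Pool.Agent.H78.VG.MOP
import Pool.Agent.H78.VG.S1M
import Pool.Agent.H78.VG.YMX
import Pool.Agent.H80.VG.SHE
import Pool.Agent.H80.VG.WCA
import Pool.Agent.H81.VG.FCC
import Pool.Agent.H81.VG.LCE
import Pool.Agent.H81.VG.LSB
import Pool.Agent.H81.VG.S3M
import Pool.Agent.H90.VG.DIV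
import Pool.Agent.H90.VG.DOM
import Pool.Agent.H90.VG.HIN
import Pool.Agent.H90.VG.PWB
import Pool.Agent.H90.VG.SFO
import Pool.Agent.H92.VG.STA
import Pool.Agent.H95.VG.CORE
import Pool.Agent.H95.VG.CPO
import Pool.Agent.H95.VG.GAU
import Pool.Agent.H95.VG.MFI

/-!
# VG: all targets proved
-/

namespace Pool.Agent.H95.VG

theorem tARE : T_ARE := Pool.Agent.H65.VG.are
theorem tATL : T_ATL := Pool.Agent.H33.VG.atl
theorem tDEG : T_DEG := Pool.Agent.H41.VG.deg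
theorem tDOM : T_DOM := Pool.Agent.H90.VG.dom
theorem tGEN : T_GEN := Pool.Agent.H41.VG.gen
theorem tGRI : T_GRI := Pool.Agent.H65.VG.gri
theorem tGRW : T_GRW := Pool.Agent.H32.VG.grw
theorem tGW1 : T_GW1 := Pool.Agent.H62.VG.t_GW1
theorem tGW2 : T_GW2 := Pool.Agent.H41.VG.gw2
theorem tISO : T_ISO := Pool.Agent.H48.VG.iso
theorem tJAC : T_JAC := Pool.Agent.H73.VG.jacm
theorem tKER : T_KER := Pool.Agent.H62.VG.t_KER
theorem tLIN : T_LIN := Pool.Agent.H73.VG.lin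
theorem tLVM : T_LVM := Pool.Agent.H73.VG.lvm
theorem tMRC : T_MRC := Pool.Agent.H19.VG.mrc
theorem tMRI : T_MRI := Pool.Agent.H17.VG.mri
theorem tNEW : T_NEW := Pool.Agent.H54.VG.new
theorem tOAO : T_OAO := Pool.Agent.H32.VG.oao
theorem tOCC : T_OCC := Pool.Agent.H54.VG.occ
theorem tPOI : T_POI := Pool.Agent.H57.VG.poi
theorem tPRD : T_PRD := Pool.Agent.H73.VG.prd
theorem tPWB : T_PWB := Pool.Agent.H90.VG.pwb tDOM
theorem tSBM : T_SBM := Pool.Agent.H48.VG.sbm tKER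
theorem tSCW : T_SCW := Pool.Agent.H54.VG.scw
theorem tSDN : T_SDN := Pool.Agent.H62.VG.t_SDN
theorem tSGL : T_SGL := Pool.Agent.H54.VG.sgl
theorem tSMO : T_SMO := Pool.Agent.H65.VG.smo
theorem tSTM : T_STM := Pool.Agent.H57.VG.stm
theorem tSUB : T_SUB := Pool.Agent.H67.VG.sub
theorem tVDM : T_VDM := Pool.Agent.H48.VG.vdm
theorem tVOD : T_VOD := Pool.Agent.H2.VG.vod_proof tSMO
theorem tWEY : T_WEY := Pool.Agent.H57.VG.wey tKER
theorem tWG0 : T_WG0 := Pool.Agent.H67.VG.wg0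
theorem tWGC : T_WGC := Pool.Agent.H67.VG.wgc tSMO
theorem tWGS : T_WGS := Pool.Agent.H67.VG.wgs
theorem tWHL : T_WHL := Pool.Agent.H65.VG.whl
theorem tYMX : T_YMX := Pool.Agent.H78.VG.ymx tSMO tLIN tDOM tJAC
theorem tZER : T_ZER := Pool.Agent.H65.VG.zer
theorem tBTW : T_BTW := Pool.Agent.H67.VG.btw tSMO tOAO tDOM
theorem tCHG : T_CHG := Pool.Agent.H19.VG.chg tSMO
theorem tCHN : T_CHN := Pool.Agent.H41.VG.chn tSMO
theorem tCHR : T_CHR := Pool.Agent.H41.VG.chr tLIN tLVM tCHN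
theorem tCMP : T_CMP := Pool.Agent.H15.VG.cmp tSMO tLVM tOAO
theorem tDIV : T_DIV := Pool.Agent.H90.VG.div tSMO tLIN tPRD
theorem tGLU : T_GLU := Pool.Agent.H67.VG.glu tPOI
theorem tLGP : T_LGP := Pool.Agent.H41.VG.lgp tPRD
theorem tLVB : T_LVB := Pool.Agent.H15.VG.lvb tOAO tARE tCMP
theorem tLVX : T_LVX := Pool.Agent.H41.VG.lvx tLIN tPRD tLVM
theorem tLZB : T_LZB := Pool.Agent.H19.VG.lzb tDOM tCHG
theorem tMOP : T_MOP := Pool.Agent.H78.VG.mop tZER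
theorem tNSQ : T_NSQ := Pool.Agent.H41.VG.nsq_mod tPRD
theorem tNUL : T_NUL := Pool.Agent.H15.VG.nul tSMO tOAO tCMP tARE
theorem tPIO : T_PIO := Pool.Agent.H73.VG.pio tSMO
theorem tPU : T_PU := Pool.Agent.H32.VG.pu tSMO
theorem tRNC : T_RNC := Pool.Agent.H24.VG.rnc tSMO tOAO
theorem tSCH : T_SCH := Pool.Agent.H54.VG.sch tNEW tSCW
theorem tSFO : T_SFO := Pool.Agent.H90.VG.sfo tLIN tPRD tPIO tDIV tOAO
theorem tUNQ : T_UNQ := Pool.Agent.H24.VG.unq tSMO tWEY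
theorem tBY1 : T_BY1 := Pool.Agent.H33.VG.by1 tSMO tLIN tPRD tLVM tCHR tPIO tDOM tOAO tSFO
theorem tCLH : T_CLH := Pool.Agent.H4.VG.clh tSMO tPU tPOI tWG0 tWGC
theorem tCUT : T_CUT := Pool.Agent.H30.VG.CUT.cut tNSQ
theorem tEQD : T_EQD := Pool.Agent.H39.VG.eqd tRNC tUNQ
theorem tETE : T_ETE := Pool.Agent.H67.VG.ete tSMO tOAO tGLU tBTW
theorem tFO : T_FO := Pool.Agent.H27.VG.fo tLIN tPRD tCHR tDOM tOAO tSFO tSMO tPIO
theorem tFOZ : T_FOZ := Pool.Agent.H30.VG.FOZ.foz tLIN tFO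
theorem tFVL : T_FVL := Pool.Agent.H21.VG.fvl tARE tMOP tJAC tVDM
theorem tGAU : T_GAU := Pool.Agent.H95.VG.gau tKER tPU tSTM tSDN tGW1 tGW2
theorem tITR : T_ITR := Pool.Agent.H54.VG.itr tSCH
theorem tKBD : T_KBD := Pool.Agent.H73.VG.kbd tLVX tLIN tDIV tSMO tRNC
theorem tKPV : T_KPV := Pool.Agent.H37.VG.kpv tPU tWGS
theorem tLGG : T_LGG := Pool.Agent.H73.VG.lgg tNSQ tCHG tSMO
theorem tLGI : T_LGI := Pool.Agent.H39.VG.lgi tGRW tLGP tKER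
theorem tLSY : T_LSY := Pool.Agent.H73.VG.lsy tLVX tLIN tDIV tSMO
theorem tMNP : T_MNP := Pool.Agent.H48.VG.mnp tNSQ tCHN tDEG
theorem tPSH : T_PSH := Pool.Agent.H27.VG.psh tSMO tLIN tDOM tOAO tARE tCUT tPIO
theorem tSYM : T_SYM := Pool.Agent.H27.VG.sym tLIN tLVM tFOZ tBY1 tOAO
theorem tWCA : T_WCA := Pool.Agent.H80.VG.WCA.wca tSMO tLIN tPRD tLVM tCHN tCHR tPIO tDOM tOAO tSFO tCUT
theorem tCNN : T_CNN := Pool.Agent.H2.VG.cnn_proof tDIV tPRD tLIN tCUT tWHL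
theorem tCNT : T_CNT := Pool.Agent.H48.VG.cnt tMNP
theorem tDIC : T_DIC := Pool.Agent.H2.VG.dic tSMO tOAO tCMP tZER tCNN
theorem tFBR : T_FBR := Pool.Agent.H37.VG.fbr tSMO tARE tMOP tJAC tGEN tDEG tCNT tISO
theorem tHIN : T_HIN := Pool.Agent.H90.VG.hin tSMO tLGI
theorem tIDN : T_IDN := Pool.Agent.H73.VG.idn tOAO tSYM
theorem tJEN : T_JEN := Pool.Agent.H54.VG.jen tKER tZER tLGG
theorem tLCE : T_LCE := Pool.Agent.H81.VG.LCE.lce tSMO tPRD tPIO tMOP tLSY tLGG tLZB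
theorem tS1M : T_S1M := Pool.Agent.H78.VG.s1m tFBR tFVL
theorem tSTA : T_STA := Pool.Agent.H92.VG.sta tOAO tSYM
theorem tVEX : T_VEX := Pool.Agent.H73.VG.vex tOAO tBY1 tPSH tWCA tCLH tKPV tCUT
theorem tADJ : T_ADJ := Pool.Agent.H15.VG.adj tSMO tLIN tPRD tLVM tCHR tPIO tOAO tDOM tSFO tSTA
theorem tCUI : T_CUI := Pool.Agent.H32.VG.Cui.cui tPRD tMOP tFBR tFVL tLGG tLCE
theorem tFLX : T_FLX := Pool.Agent.H30.VG.FLX.flx tPRD tNSQ tCUT tPWB tOAO tSTA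
theorem tS2M : T_S2M := Pool.Agent.H17.VG.s2m tSMO tPRD tDOM tMOP tS1M tCUI
theorem tYFO : T_YFO := Pool.Agent.H15.VG.yfo tSMO tLIN tPRD tPIO tDIV tMOP tJAC tYMX tS2M
theorem tABM : T_ABM := Pool.Agent.H30.VG.ABM.abm tPRD tNSQ tCUT tPWB tOAO tADJ
theorem tCST : T_CST := Pool.Agent.H33.VG.cst tSMO tPRD tLVM tNSQ tCUT tDOM tOAO tCMP tABM
theorem tF1 : T_F1 := Pool.Agent.H42.VG.f1 tSMO tPRD tNSQ tCUT tOAO tSTA tADJ tCST
theorem tINV : T_INV := Pool.Agent.H15.VG.inv tSMO tCUT tOAO tCMP tCST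
theorem tLCC : T_LCC := Pool.Agent.H41.VG.lcc tMOP tJAC tYMX tS1M tYFO
theorem tLSB : T_LSB := Pool.Agent.H81.VG.LSB.lsb tSMO tLIN tCHR tPIO tARE tMOP tJAC tYMX tS1M tYFO
theorem tNHA : T_NHA := Pool.Agent.H42.VG.nha tSMO tPRD tOAO tDOM tCUT tSYM tCMP tCST
theorem tOUT : T_OUT := Pool.Agent.H15.VG.out tSMO tARE tMOP tJAC tVDM tYMX tS1M tLGI tLGP tLSB tSBM
theorem tS4M : T_S4M := Pool.Agent.H81.VG.s4m tFBR tOUT
theorem tSHE : T_SHE := Pool.Agent.H80.VG.SHE.she tSMO tLVM tCHN tCUT tOAO tPWB tF1 tLGP tSGL tJEN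
theorem tC0 : T_C0 := Pool.Agent.H30.VG.C0.c0 tOAO tCMP tSHE tGRI
theorem tCLA : T_CLA := Pool.Agent.H24.VG.cla tSMO tOAO tRNC tEQD tKBD tIDN tNHA tCST tCUT
theorem tCON : T_CON := Pool.Agent.H15.VG.con tSMO tLIN tCUT tOAO tARE tCMP tINV tFO tWHL
theorem tFCC : T_FCC := Pool.Agent.H81.VG.fcc tSMO tMOP tJAC tLCC
theorem tINN : T_INN := Pool.Agent.H33.VG.INN.inn tPRD tNSQ tCUT tPWB tOAO tSTA tSMO tKBD tIDN tBY1 tINV
theorem tPFM : T_PFM := Pool.Agent.H24.VG.pfm tSMO tOAO tRNC tEQD tKBD tNHA tINN tCUT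
theorem tS3M : T_S3M := Pool.Agent.H81.VG.s3m tFBR tFCC
theorem tUPB : T_UPB := Pool.Agent.H54.VG.upb tKBD tINN tPFM tCON tLVB tNUL
theorem tFLN : T_FLN := Pool.Agent.H32.VG.fln tNUL tCON tLVB tUPB tCNN
theorem tLOG : T_LOG := Pool.Agent.H32.VG.logGrowth tNUL tCON tLVB tFLN tITR tOCC
theorem tMRO : T_MRO := Pool.Agent.H19.VG.mro tMOP tS1M tS2M tS3M tS4M
theorem tCPO : T_CPO := Pool.Agent.H95.VG.cpo tVEX tETE tCLA tLOG
theorem tCORE : T_CORE := Pool.Agent.H95.VG.core tFLX tDIC tC0 tCPO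

end Pool.Agent.H95.VG
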