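import Pool.Agent.H95.VG.Defs
import Pool.Agent.H95.VG.Statement

open MeasureTheory Set Filter Topology
open scoped ENNReal NNReal ContDiff ComplexConjugate

namespace Pool.Agent.H95.VG

theorem norm_sq_le_nsq {n : ℕ} (z : V n) : ‖z‖ ^ 2 ≤ nsq z := by
  unfold nsq
  by_cases hn : n = 0
  · subst hn
    have : z = 0 := Subsingleton.elim _ _
    simp [this]
  · have : Nonempty (Fin n) := ⟨⟨0, Nat.pos_of_ne_zero hn⟩⟩
    obtain ⟨i, hi⟩ : ∃ i, ‖z‖ = ‖z i‖ := by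
      obtain ⟨i, -, hi⟩ := Finset.exists_mem_eq_sup' (Finset.univ_nonempty (α := Fin n))
        (fun i => ‖z i‖₊)
      refine ⟨i, ?_⟩
      have h2 : ‖z‖₊ = ‖z i‖₊ := by
        rw [Pi.nnnorm_def, ← hi, Finset.sup'_eq_sup]
      exact congrArg NNReal.toReal h2
    rw [hi]
    exact Finset.single_le_sum (f := fun i => ‖z i‖ ^ 2) (fun j _ => by positivity)
      (Finset.mem_univ i)

theorem fin_lem {n : ℕ} (u : V n → ℝ) (I : Set (V n)) (C₁ : ℝ)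
    (hin : ∀ t : ℝ, 1 ≤ t → ∫⁻ z in (Dp n \ I) ∩ {z | nsq z < 1 / 4 ∧ -t ≤ lu z},
      ENNReal.ofReal (u z) ≤ ENNReal.ofReal (C₁ * t)) (ρ : ℝ)
    (hout : ∫⁻ z in {z : V n | 1 / 4 ≤ nsq z ∧ ‖z‖ ≤ ρ} \ I, ENNReal.ofReal (u z) < ⊤) :
    ∃ C : ℝ, ∀ r : ℝ, 0 < r → r ≤ 1 / 2 →
      ∫⁻ z in Shell n r ρ \ I, ENNReal.ofReal (u z) ≤ ENNReal.ofReal (C * Real.log (1 / r)) := by
  set M := (∫⁻ z in {z : V n | 1 / 4 ≤ nsq z ∧ ‖z‖ ≤ ρ} \ I, ENNReal.ofReal (u z)).toReal with hM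
  have hM0 : 0 ≤ M := ENNReal.toReal_nonneg
  have hMe : ∫⁻ z in {z : V n | 1 / 4 ≤ nsq z ∧ ‖z‖ ≤ ρ} \ I, ENNReal.ofReal (u z)
      = ENNReal.ofReal M := (ENNReal.ofReal_toReal hout.ne).symm
  refine ⟨2 * max C₁ 0 + 2 * M, fun r hr hr2 => ?_⟩
  have hlog2 : (1 : ℝ) / 2 ≤ Real.log 2 := by
    have := Real.log_two_gt_d9; linarith
  have hlr : Real.log 2 ≤ Real.log (1 / r) := by
    apply Real.log_le_log (by norm_num)
    rw [le_div_iff₀ hr]; linarith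
  have ht : 1 ≤ 2 * Real.log (1 / r) := by linarith
  have hlr0 : 0 < Real.log (1 / r) := by linarith
  have hsub : Shell n r ρ \ I ⊆ ((Dp n \ I) ∩ {z | nsq z < 1 / 4 ∧ -(2 * Real.log (1 / r)) ≤ lu z})
      ∪ ({z : V n | 1 / 4 ≤ nsq z ∧ ‖z‖ ≤ ρ} \ I) := by
    intro z hz
    obtain ⟨⟨h1, h2⟩, h3⟩ := hz
    rcases le_or_gt (1 / 4) (nsq z) with h4 | h4
    · exact Or.inr ⟨⟨h4, h2.le⟩, h3⟩
    · left
      have h5 := norm_sq_le_nsq z
      have h6 : r ^ 2 < nsq z := by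
        calc r ^ 2 < ‖z‖ ^ 2 := by gcongr
          _ ≤ nsq z := h5
      have h7 : 0 < nsq z := (by positivity : (0 : ℝ) < r ^ 2).trans h6
      refine ⟨⟨⟨h7, by linarith⟩, h3⟩, h4, ?_⟩
      unfold lu
      have h8 : Real.log (r ^ 2) ≤ Real.log (nsq z) := Real.log_le_log (by positivity) h6.le
      rw [Real.log_pow] at h8
      rw [one_div, Real.log_inv] at hlr0 ⊢
      push_cast at h8
      linarith
  calc ∫⁻ z in Shell n r ρ \ I, ENNReal.ofReal (u z)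
      ≤ ∫⁻ z in ((Dp n \ I) ∩ {z | nsq z < 1 / 4 ∧ -(2 * Real.log (1 / r)) ≤ lu z})
        ∪ ({z : V n | 1 / 4 ≤ nsq z ∧ ‖z‖ ≤ ρ} \ I), ENNReal.ofReal (u z) :=
        lintegral_mono_set hsub
    _ ≤ _ := lintegral_union_le _ _ _
    _ ≤ ENNReal.ofReal (max C₁ 0 * (2 * Real.log (1 / r))) + ENNReal.ofReal M := by
        refine add_le_add ((hin _ ht).trans (ENNReal.ofReal_le_ofReal ?_)) hMe.le
        exact mul_le_mul_of_nonneg_right (le_max_left _ _) (by linarith)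
    _ = ENNReal.ofReal (max C₁ 0 * (2 * Real.log (1 / r)) + M) := by
        rw [ENNReal.ofReal_add _ hM0]
        exact mul_nonneg (le_max_right _ _) (by linarith)
    _ ≤ _ := by
        apply ENNReal.ofReal_le_ofReal
        have : M ≤ 2 * M * Real.log (1 / r) := by nlinarith
        nlinarith

end Pool.Agent.H95.VG
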