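import Pool.Agent.H95.VG.Statement
import Pool.Agent.H95.VG.FinLem

open MeasureTheory Set Filter Topology
open scoped ENNReal NNReal ContDiff Manifold ComplexConjugate

namespace Pool.Agent.H95.VG

/-- from radii `ρ < 1` to radii `ρ ≤ 1` with finite volume near the outer boundary -/
theorem fin2 (h : MainStatement) : ∀ (n : ℕ), 2 ≤ n → ∀ (X : Type) [TopologicalSpace X] [T2Space X]
    [CompactSpace X] [ChartedSpace (Fin n → ℂ) X] [IsManifold 𝓘(ℂ, Fin n → ℂ) 1 X]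
    (g : HMetric n X) (I : Set (Fin n → ℂ)) (Γ : Set ((Fin n → ℂ) × X)) (f : (Fin n → ℂ) → X),
    IsMero (PDisk n) I Γ f → ∀ ρ : ℝ, ρ ≤ 1 →
      (∃ r₀ < 1, imageVol g f (Shell n r₀ ρ \ I) < ⊤) →
      ∃ C : ℝ, ∀ r : ℝ, 0 < r → r ≤ 1 / 2 →
        imageVol g f (Shell n r ρ \ I) ≤ ENNReal.ofReal (C * Real.log (1 / r)) := by
  intro n hn X _ _ _ _ _ g I Γ f hf ρ hρ ⟨r₀, hr₀, hfin⟩
  obtain ⟨C, hC⟩ := h n hn X g I Γ f hf ((max r₀ (1 / 2) + 1) / 2)
    (by linarith [le_max_right r₀ (1 / 2)]) (by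
      have : max r₀ (1 / 2) < 1 := max_lt hr₀ (by norm_num)
      linarith)
  set ρ' : ℝ := (max r₀ (1 / 2) + 1) / 2 with hρ'
  have hr₀ρ : r₀ < ρ' := by
    have h1 : max r₀ (1 / 2) < 1 := max_lt hr₀ (by norm_num)
    have h2 := le_max_left r₀ (1 / 2)
    rw [hρ']; linarith
  set M := (imageVol g f (Shell n r₀ ρ \ I)).toReal with hM
  have hM0 : 0 ≤ M := ENNReal.toReal_nonneg
  have hMe : imageVol g f (Shell n r₀ ρ \ I) = ENNReal.ofReal M :=
    (ENNReal.ofReal_toReal hfin.ne).symm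
  refine ⟨max C 0 + 2 * M, fun r hr hr2 => ?_⟩
  have hlog2 : (1 : ℝ) / 2 ≤ Real.log 2 := by
    have := Real.log_two_gt_d9; linarith
  have hlr : Real.log 2 ≤ Real.log (1 / r) := by
    apply Real.log_le_log (by norm_num)
    rw [le_div_iff₀ hr]; linarith
  have hlr0 : 0 < Real.log (1 / r) := by linarith
  have hsub : Shell n r ρ \ I ⊆ (Shell n r ρ' \ I) ∪ (Shell n r₀ ρ \ I) := by
    rintro z ⟨⟨h1, h2⟩, h3⟩
    rcases lt_or_ge ‖z‖ ρ' with h4 | h4
    · exact Or.inl ⟨⟨h1, h4⟩, h3⟩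
    · exact Or.inr ⟨⟨hr₀ρ.trans_le h4, h2⟩, h3⟩
  calc imageVol g f (Shell n r ρ \ I)
      ≤ ∫⁻ z in (Shell n r ρ' \ I) ∪ (Shell n r₀ ρ \ I), ENNReal.ofReal (volDensity g f z) :=
        lintegral_mono_set hsub
    _ ≤ imageVol g f (Shell n r ρ' \ I) + imageVol g f (Shell n r₀ ρ \ I) :=
        lintegral_union_le _ _ _
    _ ≤ ENNReal.ofReal (max C 0 * Real.log (1 / r)) + ENNReal.ofReal M := by
        refine add_le_add ((hC r hr hr2).trans (ENNReal.ofReal_le_ofReal ?_)) hMe.le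
        exact mul_le_mul_of_nonneg_right (le_max_left _ _) hlr0.le
    _ = ENNReal.ofReal (max C 0 * Real.log (1 / r) + M) := by
        rw [ENNReal.ofReal_add (mul_nonneg (le_max_right _ _) hlr0.le) hM0]
    _ ≤ _ := by
        apply ENNReal.ofReal_le_ofReal
        have : M ≤ 2 * M * Real.log (1 / r) := by nlinarith
        nlinarith

end Pool.Agent.H95.VG
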