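import Pool.Agent.H95.VG.NearO
import Pool.Agent.H65.VG.ARE

open MeasureTheory Set Filter Topology
open scoped ENNReal NNReal ContDiff Manifold ComplexConjugate

namespace Pool.Agent.H95.VG

theorem isOpen_pdisk (n : ℕ) : IsOpen (PDisk n) :=
  (isOpen_ne.inter (isOpen_lt continuous_norm continuous_const))

theorem dp_sub_pdisk (n : ℕ) : Dp n ⊆ PDisk n := by
  intro z hz
  refine ⟨?_, ?_⟩
  · rintro rfl
    have h := hz.1
    simp [nsq] at h
  · have h1 := norm_sq_le_nsq z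
    have h2 := hz.2
    nlinarith [norm_nonneg z]

theorem isOpen_dp (n : ℕ) : IsOpen (Dp n) := by
  have hc : Continuous (nsq (n := n)) := by unfold nsq; fun_prop
  exact (isOpen_lt continuous_const hc).inter (isOpen_lt hc continuous_const)

theorem isCompact_outer (n : ℕ) (ρ : ℝ) : IsCompact {z : V n | 1 / 4 ≤ nsq z ∧ ‖z‖ ≤ ρ} := by
  have hc : Continuous (nsq (n := n)) := by unfold nsq; fun_prop
  have h : {z : V n | 1 / 4 ≤ nsq z ∧ ‖z‖ ≤ ρ} = Metric.closedBall (0 : V n) ρ ∩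
      {z | 1 / 4 ≤ nsq z} := by
    ext z
    simp only [mem_ofPred_eq, mem_inter_iff, Metric.mem_closedBall, dist_zero_right]
    exact and_comm
  rw [h]
  exact (isCompact_closedBall _ _).inter_right (isClosed_le continuous_const hc)

theorem outer_sub (n : ℕ) (ρ : ℝ) (hρ : ρ < 1) :
    {z : V n | 1 / 4 ≤ nsq z ∧ ‖z‖ ≤ ρ} ⊆ PDisk n := by
  rintro z ⟨h1, h2⟩
  refine ⟨?_, by linarith⟩
  rintro rfl
  have h3 : nsq (0 : V n) = 0 := by simp [nsq]
  rw [h3] at h1
  norm_num at h1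

/-- the holomorphic case -/
theorem hfi (hCNN : T_CNN) (hSUB : T_SUB) (hGAU : T_GAU) (hCORE : T_CORE)
    (hVOD : T_VOD) (hCMP : T_CMP) (hATL : T_ATL) (hHIN : T_HIN) : HolStatement := by
  intro n hn X _ _ _ _ _ g f hf ρ hρ0 hρ
  obtain ⟨ι, _, A, hA⟩ := hATL n X
  obtain ⟨C₃, hC₃, hvod⟩ := hVOD n X g ι A hA
  have hfa : ∀ z ∈ PDisk n, MDifferentiableAt 𝓘(ℂ, Fin n → ℂ) 𝓘(ℂ, Fin n → ℂ) f z :=
    fun z hz => hf.mdifferentiableAt ((isOpen_pdisk n).mem_nhds hz)
  have hfc : ContinuousOn f (PDisk n) := hf.continuousOn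
  have hd : ∀ a, ∀ z ∈ PDisk n, f z ∈ (A.φ a).source → DifferentiableAt ℂ (FF A f a) z :=
    fun a z hz h => (hvod f z a (hfa z hz) h).1
  have hS : Sing A f ∅ := hHIN n X ι A f hn (hfc.mono (dp_sub_pdisk n))
    (fun a z hz => (hd a z (dp_sub_pdisk n hz.1) hz.2).differentiableWithinAt)
  have hin := near_origin hCNN hSUB hGAU hCORE hVOD hCMP hn g A hA f ∅ hS
    (fun z hz => hfa z (dp_sub_pdisk n hz.1)) (by
      intro X' _ _ _ ι' _ A' j e f' hj hsrc hφ hf'
      simp only [sdiff_empty] at hf'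
      refine hHIN n X' ι' A' f' hn ?_ ?_
      · rw [hj.toIsInducing.continuousOn_iff]
        exact (hfc.mono (dp_sub_pdisk n)).congr hf'
      · rintro a z ⟨hz, hza⟩
        have hza' : f z ∈ (A.φ (e a)).source := by
          rw [hsrc a, mem_preimage, hf' z hz] at hza
          exact hza
        apply DifferentiableAt.differentiableWithinAt
        refine (hd (e a) z (dp_sub_pdisk n hz) hza').congr_of_eventuallyEq ?_
        have hc : ContinuousAt f z :=
          (hfc.mono (dp_sub_pdisk n)).continuousAt ((isOpen_dp n).mem_nhds hz)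
        filter_upwards [(isOpen_dp n).mem_nhds hz,
          hc ((A.φ (e a)).open_source.mem_nhds hza')] with z' h3 h4
        have h5 : f' z' ∈ (A'.φ a).source := by
          rw [hsrc a, mem_preimage, hf' z' h3]; exact h4
        simp only [FF]
        rw [hφ a _ h5, hf' z' h3])
  obtain ⟨C₁, hC₁⟩ := hin
  obtain ⟨C, hC⟩ := fin_lem (volDensity g f) ∅ C₁ hC₁ ρ (by
    rw [sdiff_empty]
    have hK := isCompact_outer n ρ
    have hb : ∃ M : ℝ, ∀ z ∈ {z : V n | 1 / 4 ≤ nsq z ∧ ‖z‖ ≤ ρ}, volDensity g f z ≤ M := by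
      refine hK.induction_on (p := fun S => ∃ M : ℝ, ∀ z ∈ S, volDensity g f z ≤ M) ⟨0, by simp⟩
        (fun s t hst ⟨M, hM⟩ => ⟨M, fun z hz => hM z (hst hz)⟩)
        (fun s t ⟨M, hM⟩ ⟨M', hM'⟩ => ⟨max M M', fun z hz => ?_⟩) (fun z hz => ?_)
      · rcases hz with hz | hz
        · exact (hM z hz).trans (le_max_left _ _)
        · exact (hM' z hz).trans (le_max_right _ _)
      · have hzD := outer_sub n ρ hρ hz
        obtain ⟨a, ha1, ha2⟩ := A.cover (f z)
        have hc : ContinuousAt f z := hfc.continuousAt ((isOpen_pdisk n).mem_nhds hzD)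
        set O : Set (V n) := {z | z ∈ PDisk n ∧ f z ∈ (A.φ a).source} with hOdef
        have hO : IsOpen O := hfc.isOpen_inter_preimage (isOpen_pdisk n) (A.φ a).open_source
        have hdO : DifferentiableOn ℂ (FF A f a) O :=
          fun z' hz' => (hd a z' hz'.1 hz'.2).differentiableWithinAt
        have hzO : z ∈ O := ⟨hzD, ha1⟩
        have hcd : ContinuousAt (fun z => (jac (FF A f a) z).det) z :=
          (H65.VG.continuousOn_det hO hdO).continuousAt (hO.mem_nhds hzO)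
        have hcF : ContinuousAt (FF A f a) z := (hdO.continuousOn).continuousAt (hO.mem_nhds hzO)
        have h1 : ∀ᶠ z' in 𝓝 z, ‖(jac (FF A f a) z').det‖ < ‖(jac (FF A f a) z).det‖ + 1 :=
          (hcd.norm).eventually_lt_const (by linarith)
        have h2 : ∀ᶠ z' in 𝓝 z, FF A f a z' ∈ Metric.ball (0 : V n) 1 :=
          hcF.eventually_mem (Metric.isOpen_ball.mem_nhds ha2)
        refine ⟨{z' | z' ∈ O ∧ ‖(jac (FF A f a) z').det‖ < ‖(jac (FF A f a) z).det‖ + 1 ∧
          FF A f a z' ∈ Metric.ball (0 : V n) 1}, mem_nhdsWithin_of_mem_nhds ?_,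
          C₃ * (‖(jac (FF A f a) z).det‖ + 1) ^ 2, ?_⟩
        · filter_upwards [hO.mem_nhds hzO, h1, h2] with z' k1 k2 k3
          exact ⟨k1, k2, k3⟩
        · rintro z' ⟨k1, k2, k3⟩
          refine ((hvod f z' a (hfa z' k1.1) k1.2).2 ?_).trans ?_
          · rw [mem_ball_zero_iff] at k3
            rw [mem_closedBall_zero_iff]
            exact (k3.le).trans (by norm_num)
          · gcongr
    obtain ⟨M, hM⟩ := hb
    calc ∫⁻ z in {z : V n | 1 / 4 ≤ nsq z ∧ ‖z‖ ≤ ρ}, ENNReal.ofReal (volDensity g f z)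
        ≤ ∫⁻ z in {z : V n | 1 / 4 ≤ nsq z ∧ ‖z‖ ≤ ρ}, ENNReal.ofReal M :=
          setLIntegral_mono_ae' hK.measurableSet
            (Eventually.of_forall fun z hz => ENNReal.ofReal_le_ofReal (hM z hz))
      _ = ENNReal.ofReal M * volume {z : V n | 1 / 4 ≤ nsq z ∧ ‖z‖ ≤ ρ} := by
          rw [setLIntegral_const]
      _ < ⊤ := ENNReal.mul_lt_top ENNReal.ofReal_lt_top hK.measure_lt_top)
  refine ⟨C, fun r hr hr2 => ?_⟩
  have := hC r hr hr2
  rw [sdiff_empty] at this
  exact this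

end Pool.Agent.H95.VG
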