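import Pool.Agent.H95.VG.All
import Pool.Agent.H95.VG.MFI
import Pool.Agent.H95.VG.Fin2

namespace Pool.Agent.H95.VG

theorem mainStatement : MainStatement :=
  mfi tCNN tSUB tGAU tCORE tVOD tCMP tATL tDOM tMRI tMRC tMRO tMOP tS1M

theorem holStatement : HolStatement :=
  hfi tCNN tSUB tGAU tCORE tVOD tCMP tATL tHIN

end Pool.Agent.H95.VG
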