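import Pool.Agent.H95.VG.Targets4
import Pool.Agent.H95.VG.Targets3
import Pool.Agent.H95.VG.Targets2
import Pool.Agent.H95.VG.Targets1
import Pool.Agent.H95.VG.FinLem

open MeasureTheory Set Filter Topology
open scoped ENNReal NNReal ContDiff Manifold ComplexConjugate

namespace Pool.Agent.H95.VG

/-- the volume growth near the origin, from the core theorem on the component -/
theorem near_origin (hCNN : T_CNN) (hSUB : T_SUB) (hGAU : T_GAU) (hCORE : T_CORE)
    (hVOD : T_VOD) (hCMP : T_CMP) {n : ℕ} (hn : 2 ≤ n) {X : Type} [TopologicalSpace X] [T2Space X]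
    [CompactSpace X] [ChartedSpace (Fin n → ℂ) X] [IsManifold 𝓘(ℂ, Fin n → ℂ) 1 X]
    (g : HMetric n X) {ι : Type} [Fintype ι] (A : Atl n X ι) (hA : Cpt A)
    (f : V n → X) (I : Set (V n)) (hS : Sing A f I)
    (hf : ∀ z ∈ Dp n \ I, MDifferentiableAt 𝓘(ℂ, Fin n → ℂ) 𝓘(ℂ, Fin n → ℂ) f z)
    (htr : ∀ (X' : Type) [TopologicalSpace X'] [T2Space X'] [CompactSpace X'] (ι' : Type)
      [Fintype ι'] (A' : Atl n X' ι') (j : X' → X) (e : ι' → ι) (f' : V n → X'),
      IsOpenEmbedding j → (∀ a, (A'.φ a).source = j ⁻¹' (A.φ (e a)).source) →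
      (∀ a, ∀ x ∈ (A'.φ a).source, A'.φ a x = A.φ (e a) (j x)) →
      (∀ z ∈ Dp n \ I, j (f' z) = f z) → Sing A' f' I) :
    ∃ C₁ : ℝ, ∀ t : ℝ, 1 ≤ t → ∫⁻ z in (Dp n \ I) ∩ {z | nsq z < 1 / 4 ∧ -t ≤ lu z},
      ENNReal.ofReal (volDensity g f z) ≤ ENNReal.ofReal (C₁ * t) := by
  by_cases hne : (Dp n \ I).Nonempty
  swap
  · rw [not_nonempty_iff_eq_empty] at hne
    exact ⟨0, fun t _ => by simp [hne]⟩
  obtain ⟨z₀, hz₀⟩ := hne
  obtain ⟨X', i1, i2, i3, i4, ι', i5, A', j, e, hj, hrange, hsrc, hφ, hsymm⟩ :=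
    hSUB n X ι A (f z₀)
  -- everything is sent to one component
  have hcc : ∀ z ∈ Dp n \ I, f z ∈ range j := by
    intro z hz
    rw [hrange]
    have hloc : ∀ z ∈ Dp n \ I, nsq z < 1 → ∀ᶠ z' in 𝓝 z,
        connectedComponent (f z') = connectedComponent (f z) := by
      intro z hz _
      obtain ⟨X1, k1, k2, k3, k4, ι1, k5, A1, j1, e1, hj1, hr1, -, -, -⟩ := hSUB n X ι A (f z)
      have hop : IsOpen (connectedComponent (f z)) := by
        rw [← hr1]; exact hj1.isOpen_range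
      have hc : ContinuousAt f z := (hS.cont.continuousAt (hS.opn.mem_nhds hz))
      filter_upwards [hc (hop.mem_nhds mem_connectedComponent)] with z' hz'
      exact (connectedComponent_eq hz').symm
    have := (hCNN n X ι A f I hS 1 one_pos le_rfl).1 (Set X) (fun z => connectedComponent (f z))
      hloc z hz z₀ hz₀ hz.1.2 hz₀.1.2
    rw [← this]
    exact mem_connectedComponent
  have : Nonempty X' := inferInstance
  let f' : V n → X' := fun z => Function.invFun j (f z)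
  have hf' : ∀ z ∈ Dp n \ I, j (f' z) = f z := fun z hz => Function.invFun_eq (hcc z hz)
  have hS' : Sing A' f' I := htr X' ι' A' j e f' hj hsrc hφ hf'
  obtain ⟨w, hw⟩ := hGAU n X' ι' A' (by omega)
  obtain ⟨C, hC⟩ := hCORE n X' ι' A' w f' I hw hS'
  obtain ⟨C₂, hC₂, hcmp⟩ := hCMP n X' ι' A' w hw
  obtain ⟨C₃, hC₃, hvod⟩ := hVOD n X g ι A hA
  have hpt : ∀ z ∈ Dp n \ I, volDensity g f z ≤ C₃ * C₂ * PB A' f' w z := by
    intro z hz
    obtain ⟨a, ha1, ha2⟩ := A'.cover (f' z)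
    have ha1' : f z ∈ (A.φ (e a)).source := by
      have := ha1
      rw [hsrc a, mem_preimage, hf' z hz] at this
      exact this
    have hval : A.φ (e a) (f z) = A'.φ a (f' z) := by
      rw [hφ a _ ha1, hf' z hz]
    have hmem : A.φ (e a) (f z) ∈ Metric.closedBall (0 : V n) 2 := by
      rw [hval]
      rw [mem_ball_zero_iff] at ha2
      rw [mem_closedBall_zero_iff]; linarith
    obtain ⟨-, h1⟩ := hvod f z (e a) (hf z hz) ha1'
    have h2 := h1 hmem
    have hjac : jac (FF A f (e a)) z = jac (FF A' f' a) z := by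
      have hev : FF A f (e a) =ᶠ[𝓝 z] FF A' f' a := by
        have hc : ContinuousAt f z := (hS.cont.continuousAt (hS.opn.mem_nhds hz))
        filter_upwards [hS.opn.mem_nhds hz, hc ((A.φ (e a)).open_source.mem_nhds ha1')] with z' h3 h4
        have h5 : f' z' ∈ (A'.φ a).source := by
          rw [hsrc a, mem_preimage, hf' z' h3]; exact h4
        simp only [FF]
        rw [hφ a _ h5, hf' z' h3]
      unfold jac
      rw [hev.fderiv_eq]
    have h6 : z ∈ Cb A' f' a 2 := ⟨ha1, by rw [← hval]; exact hmem⟩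
    have h7 := (hcmp f' I hS' z hz a h6).1
    calc volDensity g f z ≤ C₃ * ‖(jac (FF A f (e a)) z).det‖ ^ 2 := h2
      _ = C₃ * ‖(jac (FF A' f' a) z).det‖ ^ 2 := by rw [hjac]
      _ ≤ C₃ * (C₂ * PB A' f' w z) := mul_le_mul_of_nonneg_left h7 hC₃.le
      _ = _ := by ring
  refine ⟨C₃ * C₂ * C, fun t ht => ?_⟩
  have hms : MeasurableSet ((Dp n \ I) ∩ {z : V n | nsq z < 1 / 4 ∧ -t ≤ lu z}) := by
    refine hS.opn.measurableSet.inter ?_
    have hm : Measurable (nsq (n := n)) := by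
      unfold nsq; fun_prop
    have hl : Measurable (lu (n := n)) := by
      unfold lu; exact (hm.log).div_const 2
    exact (measurableSet_lt hm measurable_const).inter (measurableSet_le measurable_const hl)
  calc ∫⁻ z in (Dp n \ I) ∩ {z | nsq z < 1 / 4 ∧ -t ≤ lu z}, ENNReal.ofReal (volDensity g f z)
      ≤ ∫⁻ z in (Dp n \ I) ∩ {z | nsq z < 1 / 4 ∧ -t ≤ lu z},
        ENNReal.ofReal (C₃ * C₂) * ENNReal.ofReal (PB A' f' w z) := by
        refine setLIntegral_mono_ae' hms (Eventually.of_forall fun z hz => ?_)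
        rw [← ENNReal.ofReal_mul (by positivity)]
        exact ENNReal.ofReal_le_ofReal (hpt z hz.1)
    _ = ENNReal.ofReal (C₃ * C₂) * ∫⁻ z in (Dp n \ I) ∩ {z | nsq z < 1 / 4 ∧ -t ≤ lu z},
        ENNReal.ofReal (PB A' f' w z) := lintegral_const_mul' _ _ ENNReal.ofReal_ne_top
    _ ≤ ENNReal.ofReal (C₃ * C₂) * ENNReal.ofReal (C * t) := by
        gcongr
        exact hC t ht
    _ = ENNReal.ofReal (C₃ * C₂ * C * t) := by
        rw [← ENNReal.ofReal_mul (by positivity)]
        congr 1; ring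

end Pool.Agent.H95.VG
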