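import Mathlib

/-!
# Volume growth of meromorphic maps on punctured polydisks: the definitions of the statement
-/

open MeasureTheory Set Filter Topology
open scoped ENNReal NNReal ContDiff Manifold ComplexConjugate

namespace Pool.Agent.H95.VG.Stmt

/-- the local model of complex manifolds of dimension `n` -/
noncomputable abbrev Md (n : ℕ) : ModelWithCorners ℂ (Fin n → ℂ) (Fin n → ℂ) := 𝓘(ℂ, Fin n → ℂ)

/-- the local model of products of two complex manifolds of dimension `n` -/
noncomputable abbrev Md2 (n : ℕ) : ModelWithCorners ℂ ((Fin n → ℂ) × (Fin n → ℂ))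
    (ModelProd (Fin n → ℂ) (Fin n → ℂ)) := (Md n).prod (Md n)

/-- A positive definite Hermitian form on a complex vector space: linear in the first, antilinear
in the second argument. -/
def IsHermForm {T : Type} [AddCommGroup T] [Module ℂ T] (h : T → T → ℂ) : Prop :=
  (∀ u v w, h (u + v) w = h u w + h v w) ∧ (∀ (c : ℂ) (u w : T), h (c • u) w = c * h u w) ∧
    (∀ u v, h v u = conj (h u v)) ∧ ∀ u, u ≠ 0 → 0 < (h u u).re

variable {n : ℕ} {X : Type} [TopologicalSpace X] [ChartedSpace (Fin n → ℂ) X]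

/-- the (holomorphic) tangent space of `X` at `x` -/
abbrev Tan (n : ℕ) {X : Type} [TopologicalSpace X] [ChartedSpace (Fin n → ℂ) X] (x : X) : Type :=
  TangentSpace (Md n) x

/-- the differential of `F : ℂⁿ → X` at `y` (the tangent spaces of `ℂⁿ` and of `X` are modelled
on `ℂⁿ`) -/
noncomputable def difL (F : (Fin n → ℂ) → X) (y : Fin n → ℂ) : (Fin n → ℂ) →L[ℂ] (Fin n → ℂ) :=
  mfderiv (Md n) (Md n) F y

/-- the differential of `F : ℂⁿ → X` at `y`, applied to `v` -/
noncomputable def dif (F : (Fin n → ℂ) → X) (y v : Fin n → ℂ) : Tan n (F y) :=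
  difL F y v

/-- the coefficient `(u, v)` of the family of forms `H` in the parametrisation `F` -/
noncomputable def coef (H : (x : X) → Tan n x → Tan n x → ℂ) (F : (Fin n → ℂ) → X)
    (u v y : Fin n → ℂ) : ℂ :=
  H (F y) (dif F y u) (dif F y v)

/-- A continuous Hermitian metric on a complex manifold `X` of dimension `n`: a positive definite
Hermitian form on every tangent space, with continuous coefficients in every preferred chart. -/
structure HermMetric (n : ℕ) (X : Type) [TopologicalSpace X] [ChartedSpace (Fin n → ℂ) X] where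
  H : (x : X) → Tan n x → Tan n x → ℂ
  herm : ∀ x, IsHermForm (H x)
  cont : ∀ (x₀ : X) (u v : Fin n → ℂ),
    ContinuousOn (coef H (chartAt (Fin n → ℂ) x₀).symm u v) (chartAt (Fin n → ℂ) x₀).target

/-- the Gram matrix of the vectors `df(∂/∂z_j)` at `z` -/
noncomputable def gram (g : HermMetric n X) (f : (Fin n → ℂ) → X) (z : Fin n → ℂ) :
    Matrix (Fin n) (Fin n) ℂ :=
  Matrix.of fun i j => coef g.H f (Pi.single i 1) (Pi.single j 1) z

/-- The density of `(f^* ω)^n` with respect to Lebesgue measure, `ω = (i/2) ∑ h_{jk} dx_j ∧ dx̄_k`: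
`n!` times the Gram determinant of the vectors `df(∂/∂z_j)`. -/
noncomputable def volDensity (g : HermMetric n X) (f : (Fin n → ℂ) → X) (z : Fin n → ℂ) : ℝ :=
  n.factorial * (gram g f z).det.re

/-- The volume of the image `f(U)`, counted with multiplicity. -/
noncomputable def imageVol (g : HermMetric n X) (f : (Fin n → ℂ) → X) (U : Set (Fin n → ℂ)) :
    ℝ≥0∞ :=
  ∫⁻ z in U, ENNReal.ofReal (volDensity g f z)

/-- `A` is an analytic subset of the open set `U` of the complex manifold `M`. -/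
def IsAnalyticIn {E H : Type} [NormedAddCommGroup E] [NormedSpace ℂ E] [TopologicalSpace H]
    (J : ModelWithCorners ℂ E H) {M : Type} [TopologicalSpace M] [ChartedSpace H M]
    (U A : Set M) : Prop :=
  A ⊆ U ∧ ∀ p ∈ U, ∃ W : Set M, IsOpen W ∧ p ∈ W ∧ W ⊆ U ∧
    ∃ (m : ℕ) (g : Fin m → M → ℂ), (∀ i, MDifferentiableOn J 𝓘(ℂ, ℂ) (g i) W) ∧
      ∀ q ∈ W, q ∈ A ↔ ∀ i, g i q = 0

/-- The local dimension of the analytic set `A` at its point `p` is at most `d`: near `p` there are
`d` holomorphic functions vanishing at `p` whose only common zero on `A` is `p`. -/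
def LocDimLE {E H : Type} [NormedAddCommGroup E] [NormedSpace ℂ E] [TopologicalSpace H]
    (J : ModelWithCorners ℂ E H) {M : Type} [TopologicalSpace M] [ChartedSpace H M]
    (A : Set M) (p : M) (d : ℕ) : Prop :=
  ∃ W : Set M, IsOpen W ∧ p ∈ W ∧ ∃ l : Fin d → M → ℂ,
    (∀ i, MDifferentiableOn J 𝓘(ℂ, ℂ) (l i) W) ∧ (∀ i, l i p = 0) ∧
      ∀ q ∈ A ∩ W, (∀ i, l i q = 0) → q = p

/-- `I` is a nowhere dense analytic subset of the open set `D ⊆ ℂⁿ` -/
def IsThin (D I : Set (Fin n → ℂ)) : Prop :=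
  IsOpen D ∧ IsAnalyticIn (Md n) D I ∧ interior I = ∅

/-- `Γ` is an analytic subset of `D × X`, of dimension at most `n` at each of its points -/
def IsGraphSet (D : Set (Fin n → ℂ)) (Γ : Set ((Fin n → ℂ) × X)) : Prop :=
  IsAnalyticIn (Md2 n) (D ×ˢ (univ : Set X)) Γ ∧ ∀ p ∈ Γ, LocDimLE (Md2 n) Γ p n

/-- `f` is (the restriction to `D \ I` of) a meromorphic map from `D ⊆ ℂⁿ` to `X` with graph `Γ`:
`I` is a nowhere dense analytic subset of `D` (for instance of codimension at least two),
`f` is holomorphic on `D \ I`, and `Γ` is an analytic subset of `D × X`, of dimension at most `n`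
at each of its points, which coincides with the graph of `f` over `D \ I`. -/
def IsMeromorphic (D I : Set (Fin n → ℂ)) (Γ : Set ((Fin n → ℂ) × X))
    (f : (Fin n → ℂ) → X) : Prop :=
  IsThin D I ∧ IsGraphSet D Γ ∧ MDifferentiableOn (Md n) (Md n) f (D \ I) ∧
    ∀ z ∈ D \ I, ∀ x : X, (z, x) ∈ Γ ↔ x = f z

/-- the punctured polydisk -/
def PolyStar (n : ℕ) : Set (Fin n → ℂ) := {z | z ≠ 0 ∧ ‖z‖ < 1}

/-- the shell `r < max |z_j| < ρ` -/
def Shell (n : ℕ) (r ρ : ℝ) : Set (Fin n → ℂ) := {z | r < ‖z‖ ∧ ‖z‖ < ρ}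

end Pool.Agent.H95.VG.Stmt
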